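/-!
A checker on packed natural numbers (digits in base `2 ^ 336`). Definitions only.
-/

namespace Pool.Agent.Lib.MP_834949_an.Ck

noncomputable section

def force {α : Type} (x : Nat) (f : Nat → α) : α := Nat.rec (f 0) (fun n _ => f n.succ) x

def nth (l : List Nat) (k : Nat) : Nat :=
  List.rec (motive := fun _ => Nat → Nat) (fun _ => 0)
    (fun a _ ih k => Nat.rec a (fun k' _ => ih k') k) l k

def allN (n : Nat) (f : Nat → Bool) : Bool := Nat.rec true (fun k ih => cond (f k) ih false) n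

def p2 (k : Nat) : Nat := Nat.pow 2 k
def m2 (k : Nat) : Nat := Nat.sub (Nat.pow 2 k) 1
def MM : Nat := m2 336
def OO : Nat := p2 334
def sr (k X : Nat) : Nat := Nat.shiftRight X (Nat.mul 336 k)
def sl (k X : Nat) : Nat := Nat.shiftLeft X (Nat.mul 336 k)
def dg (X j : Nat) : Nat := Nat.land (Nat.shiftRight X (Nat.mul 336 j)) MM
def pw (n : Nat) : Nat := sl n 1
def lw (n : Nat) : Nat := Nat.sub (pw n) 1
def ones (n : Nat) : Nat := Nat.div (pw n) MM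
def cn (c n : Nat) : Nat := Nat.mul c (ones n)
def tr (n X : Nat) : Nat := Nat.land X (lw n)
def ng (n X : Nat) : Nat := Nat.sub (pw n) (tr n X)
def sb (n X Z : Nat) : Nat := Nat.add X (ng n Z)
def nm (n X : Nat) : Nat := tr n (Nat.add X (cn OO n))
def fld (n w X : Nat) : Nat := Nat.land X (cn (m2 w) n)
def nn (n X : Nat) : Bool := Nat.beq (Nat.land X (cn (Nat.mul 3 OO) n)) 0
def pos (n w X : Nat) : Nat := force (Nat.add X (cn (p2 w) n)) fun Z =>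
  fld n w (Nat.land Z (Nat.mul (Nat.land (Nat.shiftRight Z w) (ones n)) (m2 w)))
def dsum (X : Nat) : Nat := Nat.mod X MM
def esum (c X : Nat) : Nat := Nat.sub (Nat.mul 2 (dsum X)) (dg X c)
def mx (a b : Nat) : Nat := Nat.add a (Nat.sub b a)
def mn (a b : Nat) : Nat := Nat.sub a (Nat.sub a b)

def mac (o d V NV acc : Nat) : Nat :=
  Nat.rec (Nat.rec acc (fun z _ => Nat.add acc (Nat.mul (Nat.succ z) NV)) (Nat.sub o d))
    (fun x _ => Nat.add acc (Nat.mul (Nat.succ x) V)) (Nat.sub d o)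

def bld (n : Nat) (F : Nat → Nat) : Nat := Nat.rec 0 (fun j ih => Nat.add ih (sl j (F j))) n

def sumN (n : Nat) (F : Nat → Nat) : Nat := Nat.rec 0 (fun j ih => Nat.add ih (F j)) n

def sumS (n : Nat) (z : Nat → Bool) (F : Nat → Nat) : Nat :=
  Nat.rec 0 (fun j ih => Bool.rec (Nat.add ih (F j)) ih (z j)) n

/-- Decoding of compact data; nothing is proved about it. -/
def rep (lv W b : Nat) : Nat :=
  Nat.div (p2 (Nat.mul W (p2 lv))) (m2 (Nat.mul W (p2 (Nat.succ b))))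
def smask (lv W w b : Nat) : Nat :=
  Nat.sub (Nat.shiftLeft (rep lv W b) (Nat.mul w (p2 (Nat.succ b))))
    (Nat.shiftLeft (rep lv W b) (Nat.mul w (p2 b)))
def spr (lv W w X : Nat) : Nat :=
  Nat.rec X (fun j ih => force (Nat.sub (Nat.sub lv 1) j) fun b => force ih fun Z =>
    force (Nat.land Z (smask lv W w b)) fun U =>
      Nat.add (Nat.sub Z U) (Nat.shiftLeft U (Nat.mul (Nat.sub W w) (p2 b)))) lv
def mv (R a w k X : Nat) : Nat :=
  Nat.shiftLeft (Nat.land (Nat.shiftRight X a) (Nat.mul R (m2 w))) k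
def rea (X : Nat) : Nat := force X fun X =>
  Nat.add (Nat.add (mv (ones 512) 0 16 0 X) (mv (ones 512) 16 16 48 X))
    (Nat.add (mv (ones 512) 32 16 144 X) (mv (ones 512) 48 10 96 X))
def r9 : Nat := Nat.div (p2 172032) (m2 1344)
def dec3 (X : Nat) : Nat := rea (spr 9 336 58 X)
def dec9 (X : Nat) : Nat := force (spr 7 1344 148 X) fun X =>
  rea (Nat.add (Nat.add (mv r9 0 48 0 X) (mv r9 48 48 336 X))
    (Nat.add (mv r9 96 48 1008 X) (mv r9 144 4 48 X)))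
def decL (X : Nat) : Nat := force (spr 9 336 120 X) fun X =>
  Nat.add (Nat.add (mv (ones 512) 0 40 0 X) (mv (ones 512) 40 40 48 X)) (mv (ones 512) 80 40 144 X)

def u3 : Nat := Nat.add (Nat.add 1 (p2 48)) (p2 144)
def v3 : Nat := Nat.add (Nat.add 1 (p2 336)) (p2 1008)
def o7 : Nat := Nat.mul (p2 47) (Nat.div MM (m2 48))
def m3 : Nat := Nat.mul 65535 u3
def o3 : Nat := Nat.mul 32768 u3
def m9 : Nat := Nat.mul m3 v3
def o9 : Nat := Nat.mul o3 v3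
def mL : Nat := Nat.mul 1048575 u3
def oL : Nat := Nat.mul 524288 u3
def TT : Nat := 4194304
def slot (n s Z : Nat) : Nat := fld n 48 (Nat.shiftRight Z (Nat.mul 48 s))
def bx (l : List Nat) (f : Nat) : Nat := Nat.land (nth l f) 16777215

/-- Grid size, density bound and trigonometric tables. -/
structure Tb where
  h : Nat
  q : Nat
  kk : List Nat
  tc : List Nat
  ts : List Nat

/-- The data of one leaf. -/
structure Cf where
  tb : Tb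
  lo : List Nat
  hi : List Nat
  sc : List Nat
  pa : List Nat
  pb : List Nat
  pn : List Nat
  py : List Nat
  pl : List Nat

namespace Tb
variable (B : Tb)

def h2 : Nat := Nat.mul 2 B.h
def h3 : Nat := Nat.mul 3 B.h
def h4 : Nat := Nat.mul 4 B.h
def h6 : Nat := Nat.mul 6 B.h
def q2 : Nat := Nat.mul 2 B.q
def na : Nat := Nat.succ B.h2
def nb : Nat := Nat.succ B.h4
def oa : Nat := Nat.succ B.nb
def oc : Nat := Nat.add B.oa B.na
def D : Nat := Nat.add B.oc B.na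
def og : Nat := Nat.add B.D B.nb
def P : Nat := Nat.mul 12 B.h
def CS (f : Nat) : Nat := fld B.nb 24 (spr 9 336 24 (nth B.tc f))
def SN (f : Nat) : Nat := fld B.nb 24 (spr 9 336 24 (nth B.ts f))
def K (f : Nat) : Nat := bx B.kk f
def onB (X : Nat) : Nat := sl 1 (tr B.nb X)
def onA (X : Nat) : Nat := sl B.oa (tr B.na X)
def onC (X : Nat) : Nat := sl B.oc (tr B.na X)
def sB (X : Nat) : Nat := sb B.D (B.onB X) (B.onB (cn TT B.nb))
def sA (X : Nat) : Nat := sb B.D (B.onA (sr B.h X)) (B.onA (cn TT B.nb))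
def sC (X : Nat) : Nat := sb B.D (B.onC X) (B.onC (cn TT B.nb))
def wsum (X : Nat) : Nat := Nat.sub (esum 0 X) (dg X B.h4)
def t1 (f : Nat) : Nat := Nat.mul 2 (B.sA (B.CS f))
def t3 (f : Nat) : Nat := Nat.mul 2 (B.sA (B.SN f))
def t4 (f : Nat) : Nat := B.sB (B.SN f)
def tcc (f : Nat) : Nat := Nat.mul 2 (B.sC (B.CS f))
def tcb (f : Nat) : Nat := B.sB (B.CS f)
def t26 (f : Nat) : Nat := Nat.add (B.tcc f) (Nat.mul 24 B.q2)
def t6 (f : Nat) : Nat := sb B.D (B.t26 f) (B.tcb f)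
def tv0 (f s : Nat) : Nat :=
  cond (Nat.beq s 0) (Nat.mul 8388632 B.q2) (
  cond (Nat.beq s 1) (B.t1 f) (
  cond (Nat.beq s 2) (Nat.add (B.t26 f) (B.tcb f)) (
  cond (Nat.beq s 3) (B.t3 f) (
  cond (Nat.beq s 4) (B.t4 f) (
  cond (Nat.beq s 6) (B.t6 f) 0)))))
def tv (j : Nat) : Nat := force (Nat.div j 7) fun f => tr B.D (B.tv0 f (Nat.mod j 7))
def IX : Nat := bld B.nb fun j => j
def SQ : Nat := bld B.nb fun j => force (Nat.add (Nat.sub j B.h2) (Nat.sub B.h2 j)) fun d =>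
  Nat.mul d d
def ev : Nat := sb B.D (Nat.mul 4 (B.onA (sr B.h B.SQ)))
  (Nat.add (B.onB B.SQ) (Nat.mul 2 (B.onC B.SQ)))
def rho (r : Nat) : Nat :=
  cond (Nat.beq r 0) (sb B.D (B.onB (ones B.nb)) B.q2) (
  cond (Nat.beq r 1) (sb B.D (B.onA (ones B.nb)) B.q2) (
  cond (Nat.beq r 2) (sb B.D (B.onC (ones B.nb)) B.q)
    (sb B.D (B.onB B.IX) (Nat.mul 2 (B.onA B.IX)))))
def W (a : Nat) : Nat :=
  cond (Nat.ble B.oa a) B.q2 (cond (Nat.beq a 1) 1 (cond (Nat.beq a B.nb) 1 2))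
def b0 (a : Nat) : Nat := cond (Nat.ble B.oc a) B.oc (cond (Nat.ble B.oa a) B.oa 0)
def b1 (a : Nat) : Nat := cond (Nat.ble B.oc a) B.D (cond (Nat.ble B.oa a) B.oc B.oa)
def bs (a : Nat) : Nat :=
  mn a (Nat.add (B.b0 a) (Nat.mul 28 (Nat.div (Nat.sub a (B.b0 a)) 28)))
def be (a : Nat) : Nat := mn B.D (mx (Nat.succ a) (mn (B.b1 a) (Nat.add (B.bs a) 28)))
def G : Nat := Nat.div (Nat.add B.D 2) 3

def cI (f : Nat) (m : Int) : Int := Int.subNatNat (dg (B.CS f) (Int.toNat (m + B.h2))) TT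
def sI (f : Nat) (m : Int) : Int := Int.subNatNat (dg (B.SN f) (Int.toNat (m + B.h2))) TT

def near (n X : Nat) : Bool :=
  cond (nn n (Nat.add X (cn 8388608 n))) (nn n (sb n (cn 8388608 n) X)) false
def sg (n X : Nat) : Nat := sb n X (cn TT n)
def rowT (f i : Nat) : Bool :=
  force (dg (B.CS f) (Nat.sub B.h3 i)) fun c => force (dg (B.SN f) (Nat.sub B.h3 i)) fun s =>
  force (sg B.na (sr B.h (B.CS f))) fun C => force (sg B.na (sr B.h (B.SN f))) fun S =>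
  cond (near B.na (mac TT c C (ng B.na C) (mac TT s (ng B.na S) S
      (ng B.na (Nat.mul TT (sg B.na (sr (Nat.sub B.h2 i) (B.CS f))))))))
    (near B.na (mac TT c S (ng B.na S) (mac TT s C (ng B.na C)
      (ng B.na (Nat.mul TT (sg B.na (sr (Nat.sub B.h2 i) (B.SN f)))))))) false
def symT (f j : Nat) : Bool :=
  cond (Nat.beq (dg (B.CS f) j) (dg (B.CS f) (Nat.sub B.h4 j)))
    (cond (Nat.beq (Nat.add (dg (B.SN f) j) (dg (B.SN f) (Nat.sub B.h4 j))) 8388608)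
      (Nat.ble (dg (B.CS f) j) 8388608) false) false
def ddf (n X : Nat) : Nat := sb n (Nat.add X (sr 2 X)) (Nat.mul 2 (sr 1 X))
def ddT (f : Nat) : Bool := force (Nat.sub B.h4 1) fun n =>
  cond (nn n (Nat.add (ddf n (B.CS f)) (cn (B.K f) n))) (nn n (sb n (cn (B.K f) n) (ddf n (B.CS f))))
    false
def ok : Bool :=
  cond (Nat.ble 1 B.h) (cond (Nat.ble B.h 37) (cond (Nat.ble 1 B.q) (cond (Nat.ble B.q 512)
    (allN 16 fun f => cond (Nat.beq (dg (B.CS f) B.h2) 8388608) (cond (B.ddT f)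
      (cond (allN B.nb (B.symT f)) (allN B.na (B.rowT f)) false) false) false)
    false) false) false) false

end Tb

namespace Cf
variable (C : Cf)

def s (i : Nat) : Nat := Nat.land (nth C.sc i) (m2 96)
def st : Nat := C.s 1
def nG : Nat := Nat.land (nth C.sc 9) 63
def nN : Nat := Nat.add C.tb.og C.nG
def np : Nat := Nat.add 87 C.nG
def tau (i n : Nat) : Nat := fld n 22 (spr 9 336 22 (nth C.pa i))
def t11 : Nat := C.tau 0 C.tb.na
def t20 : Nat := C.tau 1 C.tb.nb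
def tba : Nat := C.tau 2 (Nat.succ C.tb.h6)
def tbb : Nat := C.tau 3 C.tb.nb
def q1 : Nat := C.tau 4 (Nat.succ C.tb.h6)
def q2 : Nat := C.tau 5 C.tb.nb
def ee : Nat := C.tau 6 (Nat.sub C.tb.h4 1)
def fo (u : Nat) : Nat := fld C.tb.P 18 (spr 9 336 18 (nth C.pa (Nat.add 7 u)))
def f3 (u : Nat) : Nat :=
  Nat.add (C.fo u) (sl C.tb.P (Nat.add (C.fo u) (sl C.tb.P (C.fo u))))
def rv (u : Nat) : Nat := bld C.tb.P fun j => dg (C.fo u) (Nat.sub (Nat.sub C.tb.P 1) j)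
def ln (n : Nat) : Nat := Nat.add n (Nat.sub C.tb.P 1)
def cr (c n u w : Nat) : Nat :=
  Nat.mul (sb (C.ln n) (sr (Nat.sub (Nat.succ C.tb.P) c) (C.f3 u)) (cn 131072 (C.ln n)))
    (sb (C.ln n) (C.rv w) (cn 131072 C.tb.P))
def up (n Z : Nat) : Nat := sb n (sr (Nat.sub C.tb.P 1) (nm (C.ln n) Z)) (cn OO n)
def evx (c X : Nat) : Nat := Nat.add X (sl (Nat.succ c) (dg X (Nat.sub c 1)))
def n20 : Nat := Nat.sub C.tb.h4 1
def n1 : Nat := Nat.sub C.tb.h6 1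
def c11 (u : Nat) : Nat := C.cr C.tb.h2 C.tb.h2 u u
def k11 : Nat := Nat.add (Nat.mul C.st (Tb.ddf C.tb.h2 (evx C.tb.h2 C.t11))) (C.up C.tb.h2
  (Nat.add (Nat.add (Nat.add (C.c11 0) (C.c11 2)) (Nat.add (C.c11 3) (C.c11 4)))
    (Nat.add (Nat.add (C.c11 6) (C.c11 7)) (C.c11 8))))
def k20 : Nat := Nat.add
  (Nat.mul C.st (sb C.n20 (Tb.ddf C.n20 C.t20) (Nat.mul 6 C.ee))) (C.up C.n20
  (Nat.mul 2 (Nat.add (C.cr C.tb.h2 C.n20 3 4) (C.cr C.tb.h2 C.n20 6 7))))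
def kba : Nat := Nat.add
  (Nat.mul C.st (Nat.add (Tb.ddf C.n1 C.tba) (Nat.mul 4 (sr 1 C.q1))))
  (C.up C.n1 (Nat.mul 2 (C.cr C.tb.h3 C.n1 1 0)))
def kca : Nat := Nat.add
  (Nat.mul C.st (sb C.n1 (Tb.ddf C.n1 C.q1) (Tb.ddf C.n1 C.tba)))
  (C.up C.n1 (Nat.mul 2 (Nat.add (C.cr C.tb.h3 C.n1 3 5) (C.cr C.tb.h3 C.n1 5 4))))
def kbb : Nat := Nat.add
  (Nat.mul C.st (Nat.add (Tb.ddf C.tb.h4 (evx C.tb.h4 C.tbb)) (Nat.mul 4 (sr 1 C.q2))))
  (C.up C.tb.h4 (C.cr C.tb.h4 C.tb.h4 1 1))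
def kcc : Nat := Nat.add
  (Nat.mul C.st (sb C.tb.h4 (Tb.ddf C.tb.h4 (evx C.tb.h4 C.q2))
    (Tb.ddf C.tb.h4 (evx C.tb.h4 C.tbb))))
  (C.up C.tb.h4 (C.cr C.tb.h4 C.tb.h4 5 5))
def dom (n X : Nat) : Bool := nn n (sb n (pos n 100 X) X)
def p11 : Nat := pos C.tb.h2 100 C.k11
def p20 : Nat := pos C.n20 100 C.k20
def okS : Bool :=
  cond (dom C.tb.h2 C.k11) (cond (dom C.n20 C.k20) (cond (dom C.n1 C.kba) (cond (dom C.n1 C.kca)
    (cond (dom C.tb.h4 C.kbb) (dom C.tb.h4 C.kcc) false) false) false) false) false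
def gt (q p : Nat) : Nat := mx (Nat.mul 24 q) (Nat.add (Nat.mul 3 p) (Nat.mul 12 q))
def kc : Nat := Nat.add (Nat.add (Nat.mul 24 (Nat.mul C.st (dsum C.ee)))
    (Nat.add (gt (Nat.mul C.st (dsum C.q1)) (dsum (pos C.n1 100 C.kba)))
      (gt (Nat.mul C.st (esum C.tb.h4 C.q2)) (esum C.n20 (pos C.tb.h4 100 C.kbb)))))
  (Nat.mul 4 (Nat.add (dsum (pos C.n1 100 C.kca)) (esum C.n20 (pos C.tb.h4 100 C.kcc))))
def lin : Nat := Nat.add (Nat.add (Nat.mul 2 C.kc)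
    (Nat.mul C.st (Nat.add (Nat.mul 24 (C.tb.onB C.t20)) (Nat.mul 48 (C.tb.onC C.t11)))))
  (Nat.add (Nat.mul 6 (C.tb.onB (sl 1 C.p20))) (Nat.mul 12 (C.tb.onC (sl 1 C.p11))))

def sec (f l u : Nat) : Nat := sb C.tb.D
  (Nat.add (Nat.add (Nat.mul (Nat.mul TT (C.tb.K f)) C.tb.ev)
      (Nat.mul (Nat.mul 2 (Nat.add l u)) (C.tb.t3 f)))
    (Nat.mul (Nat.mul TT (Nat.add 56 (Nat.mul 4 (Nat.add l u)))) C.tb.q2))
  (Nat.add (Nat.mul TT (Nat.add (Nat.mul 2 (C.tb.t6 f)) (Nat.mul 4 (C.tb.t3 f))))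
    (Nat.mul (Nat.mul 4 (Nat.add (Nat.mul l u) (Nat.mul TT TT))) C.tb.q2))
def gv (i : Nat) : Nat := force (Nat.div i 3) fun f =>
  cond (Nat.ble 49 i) (sb C.tb.D C.tb.q2 C.tb.ev) (
  cond (Nat.ble 48 i) C.tb.ev (
  cond (Nat.beq (Nat.mod i 3) 0)
    (sb C.tb.D (C.tb.onA (sr C.tb.h (C.tb.SN f))) (Nat.mul (bx C.lo f) C.tb.q2)) (
  cond (Nat.beq (Nat.mod i 3) 1)
    (sb C.tb.D (Nat.mul (bx C.hi f) C.tb.q2) (C.tb.onA (sr C.tb.h (C.tb.SN f))))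
    (C.sec f (bx C.lo f) (bx C.hi f)))))
def gp (r : Nat) : Nat :=
  force (Nat.mul (C.s (Nat.add 59 (Nat.mul 3 r))) (C.gv (C.s (Nat.add 58 (Nat.mul 3 r))))) fun X =>
  force (tr C.tb.D (sb C.tb.D (fld C.tb.D 48 (Nat.shiftRight (Nat.add X (cn (p2 79) C.tb.D)) 32))
    (cn (m2 47) C.tb.D))) fun Z =>
  cond (nn C.tb.D (sb C.tb.D (Nat.mul (p2 32) Z) X)) Z 0
def vl (i : Nat) : Nat :=
  cond (Nat.ble C.nG i) (force (Nat.sub i C.nG) C.tb.tv) (C.gp i)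
def nv (i : Nat) : Nat := ng C.tb.D (C.vl i)
def gpt (S : Nat) : Nat := tr C.tb.nb (sr C.tb.D S)
def ctr (o n S : Nat) : Nat :=
  Nat.rec (Nat.mul 134217728 (sb C.tb.D
      (Nat.add (Nat.add S (sl 1 (cn o C.tb.nb))) (C.tb.wsum (C.gpt S)))
      (Nat.add (Nat.add (cn o C.tb.D) (sl 1 (C.gpt S))) (Nat.mul o (Nat.mul 2 C.tb.h4)))))
    (fun i ih => mac o (dg (sr C.tb.og S) i) (C.vl i) (C.nv i) ih) n
def a3 (f : Nat) : Nat := force (dec3 (nth C.pb (Nat.mul 2 f))) fun X =>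
  sumN (Nat.land (nth C.sc (Nat.add 26 f)) 511) fun i => force (sr i X) fun z =>
    force (Nat.sub (Nat.land z m3) o3) fun x =>
      sl (Nat.land (Nat.shiftRight z 96) 1023) (Nat.mul x x)
def a9 (f : Nat) : Nat := force (dec9 (nth C.pb (Nat.succ (Nat.mul 2 f)))) fun X =>
  sumN (Nat.land (nth C.sc (Nat.add 42 f)) 127) fun i => force (sr (Nat.mul 4 i) X) fun z =>
    force (Nat.sub (Nat.land z m9) o9) fun x =>
      sl (Nat.mul 7 (Nat.mod (Nat.land (Nat.shiftRight z 96) 15) (Nat.succ f))) (Nat.mul x x)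
def n9 (f : Nat) : Nat := Nat.mul 7 (Nat.succ f)
def az (f : Nat) : Nat := Nat.add (tr C.nN (Nat.add (C.a3 f) (cn o7 C.nN)))
  (sl C.nN (Nat.add (C.a9 f) (cn o7 (n9 f))))
def et (r : Nat) : Nat := sb C.tb.D
  (fld C.tb.D 28 (spr 9 336 28 (nth C.pa (Nat.add 16 r)))) (cn 134217728 C.tb.D)
def rr (f t : Nat) : Nat := Nat.mul (C.s (Nat.add 10 f))
  (tr C.tb.D (C.ctr (p2 47) (Nat.add C.nG (n9 f)) (slot (Nat.add C.nN (n9 f)) t (C.az f))))
def rz : Nat := Nat.add (Nat.mul (C.s 0) C.lin) (sumN 16 fun f =>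
  Nat.add (Nat.mul 8388632 (C.rr f 0)) (Nat.mul 24 (Nat.add (C.rr f 2) (C.rr f 6))))
def R (p : Nat) : Nat := tr C.tb.D (
  cond (Nat.ble 87 p) (force (Nat.sub p 87) fun r => Nat.mul (C.s (Nat.add 60 (Nat.mul 3 r)))
    (C.ctr 0 C.nG (fld C.nN 12 (spr 9 336 12 (nth C.pn r))))) (
  cond (Nat.ble 85 p) (Nat.mul (C.s 4) (force (Nat.sub p 81) C.et)) (
  cond (Nat.ble 81 p) (Nat.mul (C.s (Nat.sub p 76)) (force (Nat.sub p 81) C.et)) (
  cond (Nat.ble 80 p) C.rz (force (Nat.div p 5) fun f =>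
  cond (Nat.beq (Nat.mod p 5) 0) (C.rr f 1) (
  cond (Nat.beq (Nat.mod p 5) 1) (C.rr f 3) (
  cond (Nat.beq (Nat.mod p 5) 2) (C.rr f 4) (
  cond (Nat.beq (Nat.mod p 5) 3) (Nat.add (C.rr f 2) (C.rr f 6))
    (sb C.tb.D (C.rr f 2) (C.rr f 6))))))))))
def T (p : Nat) : Nat := tr C.tb.D (
  cond (Nat.ble 87 p) (force (Nat.sub p 87) C.vl) (
  cond (Nat.ble 85 p) (force (Nat.sub p 81) C.et) (
  cond (Nat.ble 81 p) (C.tb.rho (Nat.sub p 81)) (
  cond (Nat.ble 80 p) C.tb.q2 (force (Nat.div p 5) fun f =>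
  cond (Nat.beq (Nat.mod p 5) 0) (C.tb.t1 f) (
  cond (Nat.beq (Nat.mod p 5) 1) (C.tb.t3 f) (
  cond (Nat.beq (Nat.mod p 5) 2) (C.tb.t4 f) (
  cond (Nat.beq (Nat.mod p 5) 3) (C.tb.tcc f) (C.tb.tcb f)))))))))
def Rs (n p : Nat) : Nat := nm n (C.R p)
def Ts (n p : Nat) : Nat := nm n (C.T p)
def Rv (n p : Nat) : Nat := tr n (C.R p)
def Tv (n p : Nat) : Nat := tr n (C.T p)
def z1 (n p : Nat) : Bool := Nat.beq (C.Tv n p) 0
def z2 (b n p : Nat) : Bool := Nat.beq (sr b (C.Ts n p)) (cn OO (Nat.sub n b))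
def syP (b n a : Nat) : Nat := Nat.add
  (sumS C.np (C.z1 n) fun p => Nat.mul (dg (C.Rs n p) a) (C.Tv n p))
  (sumS C.np (C.z2 b n) fun p => Nat.mul (dg (C.Ts n p) a) (C.Rv n p))
def syN (b n : Nat) : Nat :=
  Nat.mul OO (Nat.add (sumN C.np (C.Tv n)) (sumS C.np (C.z2 b n) (C.Rv n)))

def lp (p : Nat) : Nat := decL (nth C.pl p)
def ls (j : Nat) : Nat := force (Nat.sub (Nat.sub C.tb.G 1) j) fun g =>
  Nat.land (Nat.shiftRight (force (Nat.div g 2) C.lp) (Nat.mul 20 (Nat.mod g 2)))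
    (cn mL (Nat.mul 3 (Nat.succ g)))
def Ls (n j : Nat) : Nat := tr n (C.ls j)
def lm (n j : Nat) : Nat := mn n (Nat.mul 3 (Nat.sub C.tb.G j))
def Lv (n j : Nat) : Nat := force (C.lm n j) fun m => tr m (sb m (C.ls j) (cn oL m))
def lc (a : Nat) : Nat := Nat.sub C.tb.G (Nat.div a 3)
def ll (n a m : Nat) : Nat :=
  sb m (sumN (C.lc a) fun j => Nat.mul (dg (C.Ls n j) a) (C.Lv n j))
    (Nat.mul oL (sumN (C.lc a) (C.Lv n)))
def lo3 (n a m : Nat) : Nat := force (Nat.add (C.ll n a m) (cn o7 m)) fun Z =>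
  Nat.add (Nat.add (slot m 0 Z) (slot m 2 Z)) (slot m 6 Z)

def qP (a : Nat) : Nat :=
  cond (Nat.ble C.tb.oc a) (force (Nat.sub a C.tb.oc) fun j => Nat.add
      (C.tb.onA (Nat.add (sr (Nat.sub C.tb.h4 j) C.q1) (sr j C.q1)))
      (sl C.tb.oc (Nat.mul 4 (Nat.add (sr (Nat.sub C.tb.h4 j) C.q2) (sr j C.q2))))) (
  cond (Nat.ble C.tb.oa a) (force (Nat.sub a C.tb.oa) fun i => Nat.add
      (C.tb.onB (sr (Nat.sub C.tb.h2 i) C.tba))
      (sl C.tb.oa (Nat.mul 2 (Nat.add (sr (Nat.sub C.tb.h2 i) C.t11) (sr i C.t20)))))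
    (sl 1 (Nat.mul 2 (sr (Nat.sub C.tb.nb a) C.tbb))))
def qN (a : Nat) : Nat :=
  cond (Nat.ble C.tb.oc a) (force (Nat.sub a C.tb.oc) fun j => Nat.add
      (C.tb.onA (Nat.add (sr (Nat.sub C.tb.h4 j) C.tba) (sr j C.tba)))
      (sl C.tb.oc (Nat.mul 4 (Nat.add (sr (Nat.sub C.tb.h4 j) C.tbb) (sr j C.tbb))))) 0
def sq : Nat := Nat.mul 24 (Nat.mul (C.s 0) C.st)
def sL : Nat := Nat.mul 2 (C.s 2)
def o3L : Nat := Nat.mul 3 (p2 47)

def yr (k : Nat) : Nat := force (Nat.sub C.tb.h4 k) fun j =>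
  Nat.shiftRight (nth C.py (Nat.div j 24)) (Nat.mul 14 (Nat.mod j 24))
def yn (k : Nat) : Nat := fld (Nat.succ k) 13 (Nat.land (C.yr k)
  (Nat.mul (Nat.land (Nat.shiftRight (C.yr k) 13) (ones (Nat.succ k))) 8191))
def yp (k : Nat) : Nat := fld (Nat.succ k) 13 (Nat.xor (C.yr k) (C.yn k))
def ap : Nat := sumN C.tb.nb fun k => Nat.mul (C.tb.W (Nat.succ k)) (C.yp k)
def an : Nat := sumN C.tb.nb fun k => Nat.mul (C.tb.W (Nat.succ k)) (C.yn k)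
def ys (a : Nat) : Nat :=
  cond (Nat.ble C.tb.oa a) 0 (force (Nat.sub a 1) fun k => Nat.mul (C.s 3) (C.tb.wsum (C.yp k)))
def yP (a : Nat) : Nat :=
  cond (Nat.ble C.tb.oa a) 0 (force (Nat.sub a 1) fun k =>
    Nat.mul (C.s 3) (Nat.add (sl 1 (C.yn k)) (dg C.ap k)))
def yN (a : Nat) : Nat :=
  cond (Nat.ble C.tb.oa a) 0 (force (Nat.sub a 1) fun k =>
    Nat.mul (C.s 3) (Nat.add (sl 1 (C.yp k)) (dg C.an k)))

def eR (a m : Nat) : Nat := force (C.tb.bs a) fun b => force (C.tb.be a) fun n =>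
  force (C.lo3 n a m) fun L =>
  sb m (Nat.add (Nat.add (Nat.mul C.sq (C.qP a)) (C.syN b n))
      (Nat.mul C.sL (Nat.add (cn o3L m) (Nat.mul 7 o3L))))
    (Nat.add (Nat.add (Nat.mul C.sq (C.qN a)) (C.syP b n a))
      (Nat.mul C.sL (Nat.add L (Nat.mul 7 (dg L 0)))))
def hR (a m : Nat) : Nat := force (C.eR a m) fun E =>
  sb m (Nat.add (Nat.add (Nat.mul 2 E) (sl a OO)) (Nat.add (C.yP a) (C.ys a)))
    (Nat.add (sl a (dg (nm m E) a)) (C.yN a))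
def row (a bud : Nat) : Nat := force (Nat.succ a) fun m => force (C.hR a m) fun H =>
  force (tr C.tb.nb (sr 1 (pos m 240 (ng m H)))) fun Y =>
  force (sb m (Nat.add H (sl 1 Y)) (C.tb.wsum Y)) fun H3 =>
  force (Nat.sub OO (dg (nm 1 H3) 0)) fun e =>
  cond (nn m (Nat.add H3 e)) (Nat.sub bud (Nat.mul (C.tb.W a) (Nat.add e (C.ys a)))) 0
def e00 : Nat := force (C.tb.be 0) fun n => Nat.sub (dg (nm 1
  (sb 1 (Nat.add (C.syN 0 n) (Nat.mul C.sL (Nat.mul 64 o3L)))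
    (Nat.add (C.syP 0 n 0) (Nat.mul C.sL (Nat.mul 64 (C.lo3 n 0 1)))))) 0) OO
def rows (n : Nat) : Nat := Nat.rec C.e00 (fun k ih => force (Nat.succ k) fun a => C.row a ih) n
def chk : Bool := cond C.okS (Nat.ble 1 (C.rows (Nat.sub C.tb.D 1))) false

end Cf

end

end Pool.Agent.Lib.MP_834949_an.Ck
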