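import Pool.Agent.Lib.MP_834949_an.B.Ck

/-!
The test of a leaf in three parts.
-/

namespace Pool.Agent.Lib.MP_834949_an.Ck.Cf

/-- The rows `k + 1, ..., k + m`, starting from the budget `b`. -/
noncomputable def rowsF (C : Cf) (k m b : Nat) : Nat :=
  Nat.rec b (fun j ih => force (Nat.succ (Nat.add k j)) fun a => C.row a ih) m

theorem rows_add (C : Cf) (k m : Nat) : C.rows (k + m) = C.rowsF k m (C.rows k) := by
  induction m with
  | zero => rfl
  | succ m ih =>
    show force (Nat.succ (k + m)) (fun a => C.row a (C.rows (k + m))) =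
      force (Nat.succ (k + m)) (fun a => C.row a (C.rowsF k m (C.rows k)))
    rw [ih]

/-- The three parts of the test. -/
noncomputable def ck1 (C : Cf) (b1 : Nat) : Bool := cond C.okS (Nat.beq (C.rows 109) b1) false
noncomputable def ck2 (C : Cf) (b1 b2 : Nat) : Bool := Nat.beq (C.rowsF 109 55 b1) b2
noncomputable def ck3 (C : Cf) (b2 : Nat) : Bool := Nat.ble 1 (C.rowsF 164 55 b2)

theorem chk_of (C : Cf) {b1 b2 : Nat} (e : Nat.sub C.tb.D 1 = 109 + 55 + 55)
    (h1 : C.ck1 b1 = true) (h2 : C.ck2 b1 b2 = true) (h3 : C.ck3 b2 = true) : C.chk = true := by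
  unfold chk
  unfold ck1 at h1
  cases h : C.okS
  · rw [h] at h1
    exact h1
  · rw [h] at h1
    rw [e, rows_add, rows_add, Nat.eq_of_beq_eq_true h1, Nat.eq_of_beq_eq_true h2]
    exact h3

end Pool.Agent.Lib.MP_834949_an.Ck.Cf
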