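import Pool.Agent.Lib.MP_834949_an.B.Ms5
import Pool.Agent.Lib.MP_834949_an.Reduce

/-!
Branching, and the passage from measures to functions.
-/

namespace Pool.Agent.Lib.MP_834949_an

open MeasureTheory Set

theorem reduce2 (h : ℕ) (hh : 0 < h) (c : ℝ)
    (H : ∀ (ν : Measure ℝ) [IsProbabilityMeasure ν], Sp ν h →
      Dens (ν ∗ ν) (c / (4 * h)) → False)
    (f : ℝ → ℝ) (h0 : ∀ x, 0 ≤ f x) (hf : MemLp f 2 volume) :
    c * (∫ x in (-1 / 4 : ℝ)..(1 / 4), f x) ^ 2 ≤
      ⨆ t : Icc (-1 / 2 : ℝ) (1 / 2), ∫ x, f x * f (t - x) := by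
  set S := ⨆ t : Icc (-1 / 2 : ℝ) (1 / 2), ∫ x, f x * f (t - x) with hS
  set I := ∫ x in (-1 / 4 : ℝ)..(1 / 4), f x with hI
  by_contra hlt
  rw [not_le] at hlt
  have hS0 : 0 ≤ S :=
    (integral_nonneg fun x => mul_nonneg (h0 _) (h0 _)).trans
      (conv_le_sup hf (t := 0) (by constructor <;> norm_num))
  have hI0 : 0 ≤ I := intervalIntegral.integral_nonneg (by norm_num) fun x _ => h0 x
  have hIp : 0 < I := by
    rcases hI0.lt_or_eq with h1 | h1
    · exact h1
    · rw [← h1] at hlt; linarith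
  have hK : (0 : ℝ) < 4 * h := by positivity
  set J : Set ℝ := Icc (-1 / 4) (1 / 4) with hJ
  set g : ℝ → ENNReal := fun x => ENNReal.ofReal (J.indicator f x / I) with hg
  have hgm : AEMeasurable g volume :=
    ((hf.aestronglyMeasurable.aemeasurable.indicator measurableSet_Icc).div_const I).ennreal_ofReal
  have hint : Integrable (J.indicator f) volume :=
    (integrable_indicator_iff measurableSet_Icc).2 ((hf.restrict J).integrable (by norm_num))
  have hind0 : ∀ x, 0 ≤ J.indicator f x := fun x => indicator_nonneg (fun y _ => h0 y) x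
  have hind1 : ∀ x, J.indicator f x ≤ f x := fun x => indicator_le_self' (fun y _ => h0 y) x
  have : IsProbabilityMeasure (volume.withDensity g) := by
    constructor
    rw [withDensity_apply _ MeasurableSet.univ, Measure.restrict_univ,
      ← ofReal_integral_eq_lintegral_ofReal (hint.div_const I)
        (ae_of_all _ fun x => div_nonneg (hind0 x) hI0), integral_div,
      integral_indicator measurableSet_Icc, integral_Icc_eq_integral_Ioc,
      ← intervalIntegral.integral_of_le (by norm_num), ← hI, div_self hIp.ne', ENNReal.ofReal_one]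
  have hsupp : ∀ᵐ x ∂(volume.withDensity g), |x| ≤ (1 / 4 : ℝ) := by
    refine (ae_withDensity_iff' hgm).2 (ae_of_all _ fun x hx => ?_)
    by_contra hx'
    apply hx
    have : x ∉ J := fun hx2 => hx' (abs_le.2 ⟨by linarith [hx2.1], hx2.2⟩)
    simp [hg, this]
  have hconv : ∀ t, (g ⋆ₗ[volume] g) t ≤ ENNReal.ofReal c := by
    intro t
    rw [lconvolution_def]
    by_cases ht : t ∈ Icc (-1 / 2 : ℝ) (1 / 2)
    · calc ∫⁻ y, g y * g (-y + t) ≤ ∫⁻ y, ENNReal.ofReal (f y * f (t - y) / I ^ 2) := by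
            refine lintegral_mono fun y => ?_
            simp only [hg]
            rw [← ENNReal.ofReal_mul (div_nonneg (hind0 y) hI0), neg_add_eq_sub]
            refine ENNReal.ofReal_le_ofReal ?_
            rw [div_mul_div_comm, ← sq]
            exact div_le_div_of_nonneg_right
              (mul_le_mul (hind1 _) (hind1 _) (hind0 _) (h0 _)) (by positivity)
        _ = ENNReal.ofReal ((∫ y, f y * f (t - y)) / I ^ 2) := by
            rw [← ofReal_integral_eq_lintegral_ofReal ((integrable_conv hf t).div_const _)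
              (ae_of_all _ fun y => div_nonneg (mul_nonneg (h0 _) (h0 _)) (by positivity)),
              integral_div]
        _ ≤ ENNReal.ofReal c := by
            refine ENNReal.ofReal_le_ofReal ?_
            rw [div_le_iff₀ (by positivity)]
            exact (conv_le_sup hf ht).trans hlt.le
    · have : ∀ y, g y * g (-y + t) = 0 := by
        intro y
        by_cases h1 : y ∈ J
        · have h2 : -y + t ∉ J := fun h2 =>
            ht ⟨by linarith [h1.1, h2.1], by linarith [h1.2, h2.2]⟩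
          simp [hg, h2]
        · simp [hg, h1]
      simp [this]
  have hc0 : 0 ≤ c := by
    by_contra h1
    rw [not_le] at h1
    nlinarith [sq_pos_of_pos hIp]
  have hm : Measurable (fun x : ℝ => 4 * h * x) := by fun_prop
  have : IsProbabilityMeasure ((volume.withDensity g).map (fun x : ℝ => 4 * h * x)) :=
    Measure.isProbabilityMeasure_map hm.aemeasurable
  refine H ((volume.withDensity g).map (fun x : ℝ => 4 * h * x)) ?_ ?_
  · rw [Sp, ae_map_iff hm.aemeasurable (measurableSet_le (by fun_prop) measurable_const)]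
    refine hsupp.mono fun x hx => ?_
    rw [abs_mul, abs_of_pos hK]
    nlinarith
  · have e := Measure.map_conv_addMonoidHom (μ := volume.withDensity g) (ν := volume.withDensity g)
      (AddMonoidHom.mulLeft (4 * h : ℝ)) hm
    have e' : (AddMonoidHom.mulLeft (4 * h : ℝ) : ℝ → ℝ) = fun x : ℝ => 4 * h * x := rfl
    rw [e'] at e
    rw [Dens, ← e, conv_withDensity_eq_mlconvolution₀ hgm hgm]
    refine (Measure.map_mono (withDensity_mono (ae_of_all _ hconv)) hm).trans_eq ?_
    rw [withDensity_const, Measure.map_smul, Real.map_volume_mul_left hK.ne', smul_smul,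
      ← ENNReal.ofReal_mul hc0, abs_of_pos (inv_pos.2 hK), div_eq_mul_inv]

namespace Ck

/-- No admissible measure has its coordinates in the box. -/
def Inf (B : Tb) (lo hi : List ℕ) : Prop :=
  ∀ (ν : Measure ℝ) [IsProbabilityMeasure ν], Sp ν B.h → Dens (ν ∗ ν) (1 / B.q) →
    (∀ f < 16, bx lo f ≤ ycoord B ν f ∧ ycoord B ν f ≤ bx hi f) → False

variable {B : Tb} {lo hi lo' hi' : List ℕ}

lemma Inf.leaf (C : Cf) (hT : C.tb.ok = true) (hC : C.chk = true) : Inf C.tb C.lo C.hi :=
  fun _ _ => Cf.leaf hT hC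

lemma Inf.split (f : ℕ) (h1 : Inf B lo hi') (h2 : Inf B lo' hi)
    (e : ∀ g < 16, (bx lo' g ≤ bx lo g ∧ bx hi g ≤ bx hi' g) ∨ (g = f ∧ bx lo' g ≤ bx hi' g)) :
    Inf B lo hi := by
  intro ν _ hν hd hb
  rcases le_total (ycoord B ν f) (bx hi' f) with h | h
  · refine h1 ν hν hd fun g hg => ⟨(hb g hg).1, ?_⟩
    rcases e g hg with k | k
    · exact (hb g hg).2.trans (by exact_mod_cast k.2)
    · exact k.1 ▸ h
  · refine h2 ν hν hd fun g hg => ⟨?_, (hb g hg).2⟩
    rcases e g hg with k | k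
    · exact le_trans (by exact_mod_cast k.1) (hb g hg).1
    · exact le_trans (by exact_mod_cast k.2) (k.1 ▸ h)

theorem Inf.root (hT : B.ok = true) (h : Inf B lo hi)
    (e : ∀ g < 16, (bx lo g = 0 ∨ (g = 1 ∧ bx lo g = 4194304)) ∧ bx hi g = 8388608)
    (f : ℝ → ℝ) (h0 : ∀ x, 0 ≤ f x) (hf : MemLp f 2 volume) :
    4 * B.h / B.q * (∫ x in (-1 / 4 : ℝ)..(1 / 4), f x) ^ 2 ≤
      ⨆ t : Icc (-1 / 2 : ℝ) (1 / 2), ∫ x, f x * f (t - x) := by
  have h1 := (Tb.ok_spec hT).1
  have hr : ∀ (ν : Measure ℝ) [IsProbabilityMeasure ν], Sp ν B.h → ∀ g < 16,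
      ycoord B (rf ν) g = 8388608 - ycoord B ν g := fun ν _ hν g hg => by
    simp only [ycoord, IT_rf, (Tb.trig hT hg).od, hν.IT_neg]
    ring
  have hp : ∀ (ν : Measure ℝ) [IsProbabilityMeasure ν], Sp ν B.h → ∀ g, 0 ≤ ycoord B ν g :=
    fun ν _ hν g => by
      rw [ycoord, ← IT_const ν 4194304, ← hν.IT_add, ← hν.sum_tm]
      refine Finset.sum_nonneg fun i _ => mul_nonneg ?_ (tm_nonneg _ _)
      unfold tz
      split_ifs <;> simp
  have key : ∀ (ν : Measure ℝ) [IsProbabilityMeasure ν], Sp ν B.h → Dens (ν ∗ ν) (1 / B.q) →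
      4194304 ≤ ycoord B ν 1 → False := fun ν _ hν hd h2 => h ν hν hd fun g hg => by
    have h3 := hp _ hν.refl g
    rw [hr ν hν g hg] at h3
    refine ⟨?_, by rw [(e g hg).2]; push_cast; linarith⟩
    rcases (e g hg).1 with k | k
    · rw [k, Nat.cast_zero]; exact hp ν hν g
    · rw [k.2, k.1]; exact_mod_cast h2
  refine reduce2 B.h h1 _ (fun ν _ hν hd => ?_) f h0 hf
  rw [show (4 * B.h / B.q / (4 * B.h) : ℝ) = 1 / B.q by
    have : (0 : ℝ) < B.h := by exact_mod_cast h1
    field_simp] at hd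
  rcases le_total 4194304 (ycoord B ν 1) with h2 | h2
  · exact key ν hν hd h2
  · exact key _ hν.refl (rf_conv ν ν ▸ hd.refl) (by rw [hr ν hν 1 (by norm_num)]; linarith)

end Ck

end Pool.Agent.Lib.MP_834949_an
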