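import Pool.Agent.Lib.MP_834949_an.B.Pk7
import Pool.Agent.Lib.MP_834949_an.Tn5

/-!
The table check gives approximate cosine and sine tables.
-/

set_option exponentiation.threshold 1100

namespace Pool.Agent.Lib.MP_834949_an.Ck

open Finset

variable {n X V NV Z a b c w : ℕ} {f g : ℕ → ℤ}

lemma Rp.mac {o d : ℕ} (hd : |(d : ℤ) - o| ≤ 2 ^ c) (h1 : Rp n V f a) (h2 : Cg n NV fun j => -f j)
    (h3 : Rp n Z g b) :
    Rp n (mac o d V NV Z) (fun j => g j + ((d : ℤ) - o) * f j) (max b (c + a) + 1) :=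
  ⟨Cg.mac o d h1.1 h2 h3.1, fun j hj => bd_add (h3.2 j hj) (bd_mul hd (h1.2 j hj))⟩

lemma Rp.two (h : Rp n X f a) (ha : a ≤ 333) (hc : c ≤ 2 ^ a)
    (h1 : nn n (Nat.add X (Ck.cn c n)) = true) (h2 : nn n (Ck.sb n (Ck.cn c n) X) = true) :
    ∀ j < n, |f j| ≤ c := fun j hj => by
  have k1 := (h.add (Rp.cn' n hc)).nonneg (by omega) h1 j hj
  have k2 := ((Rp.cn' n hc).sb h).nonneg (by omega) h2 j hj
  rw [abs_le]
  constructor <;> linarith

lemma Bd.ddf (h : Bd w X) (n : ℕ) :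
    Rp n (Tb.ddf n X) (fun i => dg X i + dg X (2 + i) - 2 * dg X (1 + i)) (w + 2) :=
  ((((h.rp n).add ((h.sr 2).rp n)).sb (((h.sr 1).rp n).smul (a := 1) (c := 2) le_rfl)).le
    (by omega)).congr fun i _ => by simp [dg_sr]

/-- A table centred at `c`, with the offset removed. -/
noncomputable def tz (c X : ℕ) (m : ℤ) : ℝ :=
  if |m| ≤ c then (dg X (m + c).toNat : ℝ) - 4194304 else 0

lemma tz_eq {m : ℤ} (k : ℕ) (hk : m + c = k) (h : k ≤ 2 * c) : tz c X m = dg X k - 4194304 := by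
  rw [tz, if_pos (abs_le.2 ⟨by omega, by omega⟩), hk, Int.toNat_natCast]

namespace Tb

variable {B : Tb}

lemma CS_bd (B : Tb) (f : ℕ) : Bd 24 (B.CS f) := Bd.fld (by norm_num) _ _
lemma SN_bd (B : Tb) (f : ℕ) : Bd 24 (B.SN f) := Bd.fld (by norm_num) _ _
lemma bx_le (l : List ℕ) (f : ℕ) : bx l f ≤ 2 ^ 24 := (land_le _ _).trans (by norm_num)

lemma ok_spec (h : B.ok = true) : 1 ≤ B.h ∧ B.h ≤ 37 ∧ 1 ≤ B.q ∧ B.q ≤ 512 ∧ ∀ f < 16,
    B.ddT f = true ∧ (∀ j < B.nb, B.symT f j = true) ∧ ∀ i < B.na, B.rowT f i = true := by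
  obtain ⟨h1, h⟩ := cond_and h
  obtain ⟨h2, h⟩ := cond_and h
  obtain ⟨h3, h⟩ := cond_and h
  obtain ⟨h4, h⟩ := cond_and h
  refine ⟨Nat.le_of_ble_eq_true h1, Nat.le_of_ble_eq_true h2, Nat.le_of_ble_eq_true h3,
    Nat.le_of_ble_eq_true h4, fun f hf => ?_⟩
  obtain ⟨-, h⟩ := cond_and (allN_spec h f hf)
  obtain ⟨h5, h⟩ := cond_and h
  obtain ⟨h6, h7⟩ := cond_and h
  exact ⟨h5, allN_spec h6, allN_spec h7⟩

lemma sg_rp (h : Bd 24 X) (n k : ℕ) :
    Rp n (sg n (sr k X)) (fun j => (dg X (k + j) : ℤ) - TT) 25 :=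
  (((h.sr k).rp n).sb (Rp.cn' n (a := 24) (c := TT) (by decide))).congr fun j _ => by rw [dg_sr]

lemma off_bd (h : Bd 24 X) (k : ℕ) : |(dg X k : ℤ) - TT| ≤ 2 ^ 25 :=
  (sub_eq_add_neg (dg X k : ℤ) TT) ▸ bd_add (bd_nat (h k).le) (b := 24) (by decide)

theorem trig (h : B.ok = true) {f : ℕ} (hf : f < 16) :
    Trig B.h 4194304 (B.K f) (tz B.h2 (B.CS f)) (tz B.h2 (B.SN f)) := by
  obtain ⟨h1, h2, -, -, h3⟩ := ok_spec h
  obtain ⟨h4, h5, h6⟩ := h3 f hf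
  have hd := B.dims
  have hc := B.CS_bd f
  have hs := B.SN_bd f
  have sy : ∀ n : ℤ, tz B.h2 (B.CS f) (-n) = tz B.h2 (B.CS f) n ∧
      tz B.h2 (B.SN f) (-n) = -tz B.h2 (B.SN f) n := by
    intro n
    by_cases hn : |n| ≤ B.h2
    · rw [abs_le] at hn
      obtain ⟨k, hk⟩ : ∃ k : ℕ, n + B.h2 = k := ⟨(n + B.h2).toNat, by omega⟩
      obtain ⟨k1, k2⟩ := cond_and (h5 k (by omega))
      have k3 : (dg (B.SN f) k : ℝ) + dg (B.SN f) (B.h4 - k) = 8388608 := by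
        exact_mod_cast Nat.eq_of_beq_eq_true (cond_and k2).1
      rw [tz_eq k hk (by omega), tz_eq k hk (by omega), tz_eq (B.h4 - k) (by omega) (by omega),
        tz_eq (B.h4 - k) (by omega) (by omega), Nat.eq_of_beq_eq_true k1]
      exact ⟨rfl, by linarith⟩
    · simp [tz, hn]
  have ad : ∀ i j : ℤ, |i| ≤ B.h → |j| ≤ B.h →
      |tz B.h2 (B.CS f) i * tz B.h2 (B.CS f) j + tz B.h2 (B.SN f) i * tz B.h2 (B.SN f) j -
        4194304 * tz B.h2 (B.CS f) (i - j)| ≤ 2 * 4194304 ∧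
      |tz B.h2 (B.SN f) i * tz B.h2 (B.CS f) j - tz B.h2 (B.CS f) i * tz B.h2 (B.SN f) j -
        4194304 * tz B.h2 (B.SN f) (i - j)| ≤ 2 * 4194304 := by
    intro i j hi hj
    rw [abs_le] at hi hj
    obtain ⟨k, hk⟩ : ∃ k : ℕ, i + B.h = k := ⟨(i + B.h).toNat, by omega⟩
    obtain ⟨r, hr⟩ : ∃ r : ℕ, j + B.h = r := ⟨(j + B.h).toNat, by omega⟩
    have k0 := h6 r (by omega)
    simp only [rowT, force_eq, Nat.sub_eq] at k0
    obtain ⟨k1, k2⟩ := cond_and k0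
    have c1 := sg_rp hc B.na B.h
    have s1 := sg_rp hs B.na B.h
    have k3 := (Rp.mac (off_bd hc _) c1 (c1.ng le_rfl).1 (Rp.mac (off_bd hs _) (s1.ng le_rfl)
      (s1.1.congr fun _ _ => (neg_neg _).symm) (((sg_rp hc B.na (B.h2 - r)).smul (a := 22)
      (c := TT) (by decide)).ng le_rfl))).two (by norm_num) (by norm_num) (cond_and k1).1
      (cond_and k1).2 k (by omega)
    have k4 := (Rp.mac (off_bd hc _) s1 (s1.ng le_rfl).1 (Rp.mac (off_bd hs _) c1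
      (c1.ng le_rfl).1 (((sg_rp hs B.na (B.h2 - r)).smul (a := 22)
      (c := TT) (by decide)).ng le_rfl))).two (by norm_num) (by norm_num) (cond_and k2).1
      (cond_and k2).2 k (by omega)
    have e1 := (sy j).1
    have e2 := (sy j).2
    rw [tz_eq (B.h3 - r) (by omega) (by omega)] at e1 e2
    rw [← e1, ← neg_eq_iff_eq_neg.2 e2, tz_eq (m := i) (B.h + k) (by omega) (by omega),
      tz_eq (m := i) (B.h + k) (by omega) (by omega),
      tz_eq (m := i - j) (B.h2 - r + k) (by omega) (by omega),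
      tz_eq (m := i - j) (B.h2 - r + k) (by omega) (by omega)]
    have k5 := (Int.cast_le (R := ℝ)).2 k3
    have k6 := (Int.cast_le (R := ℝ)).2 k4
    simp only [TT] at k5 k6
    push_cast at k5 k6
    rw [abs_le] at k5 k6
    exact ⟨abs_le.2 ⟨by linarith, by linarith⟩, abs_le.2 ⟨by linarith, by linarith⟩⟩
  refine ⟨by norm_num, fun n => (sy n).1, fun n => (sy n).2, fun i j hi hj => (ad i j hi hj).1,
    fun i j hi hj => (ad i j hi hj).2, fun n hn => ?_⟩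
  rw [abs_lt] at hn
  obtain ⟨k, hk⟩ : ∃ k : ℕ, n - 1 + B.h2 = k := ⟨(n - 1 + B.h2).toNat, by omega⟩
  rw [ddT, force_eq, Nat.sub_eq] at h4
  have k1 := (hc.ddf _).two (c := B.K f) (by norm_num) ((bx_le _ _).trans (by norm_num)) (cond_and h4).1
    (cond_and h4).2 k (by omega)
  have k2 := (Int.cast_le (R := ℝ)).2 k1
  push_cast at k2
  rw [dd, tz_eq k hk (by omega), tz_eq (1 + k) (by omega) (by omega),
    tz_eq (2 + k) (by omega) (by omega)]
  rw [abs_le] at k2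
  exact abs_le.2 ⟨by linarith, by linarith⟩

end Tb

end Pool.Agent.Lib.MP_834949_an.Ck
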