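import Pool.Agent.Lib.MP_834949_an.B.Ms1

/-!
The vector of tent masses of a measure.
-/

set_option exponentiation.threshold 1100
set_option linter.unusedSectionVars false

namespace Pool.Agent.Lib.MP_834949_an.Ck

open Finset MeasureTheory

lemma sum_Icc (c : ℕ) (F : ℤ → ℝ) :
    ∑ i ∈ Icc (-(c : ℤ)) c, F i = ∑ k ∈ range (2 * c + 1), F (k - c) := by
  rw [Int.Icc_eq_finset_map, sum_map, show ((c : ℤ) + 1 - -c).toNat = 2 * c + 1 by omega]
  exact sum_congr rfl fun k _ => congrArg F (by simp; ring)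

lemma sum_fold (c : ℕ) (F : ℤ → ℝ) : ∑ i ∈ Icc (-(c : ℤ)) c, F i =
    ∑ j ∈ range (c + 1), (F (j - c) + F (c - j)) * if j = c then 1 / 2 else 1 := by
  have h1 : ∑ j ∈ range c, (F (j - c) + F (c - j)) * (if j = c then 1 / 2 else 1) =
      ∑ j ∈ range c, F (j - c) + ∑ j ∈ range c, F ((c + 1 + j : ℕ) - c) := by
    rw [← sum_range_reflect (fun j => F ((c + 1 + j : ℕ) - c)) c, ← sum_add_distrib]
    refine sum_congr rfl fun j hj => ?_
    have := mem_range.1 hj
    rw [if_neg this.ne, mul_one]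
    congr 2
    omega
  rw [sum_Icc, show 2 * c + 1 = c + 1 + c by ring, sum_range_add, sum_range_succ, sum_range_succ,
    if_pos rfl, h1, sub_self]
  ring

/-- The vector of tent masses. -/
noncomputable def vec (B : Tb) (ν : Measure ℝ) (a : ℕ) : ℝ :=
  if a = 0 then 1 / (2 * B.q) else if a < B.oa then tm (ν ∗ ν) (a - 1 - 2 * B.h)
  else if a < B.oc then tm ν (a - B.oa - B.h)
  else tm (gm ν) (a - B.oc - 2 * B.h) * if a - B.oc = 2 * B.h then 1 / 2 else 1

variable {B : Tb} {ν : Measure ℝ} [IsProbabilityMeasure ν] {X w : ℕ} {φ : ℤ → ℝ}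

lemma sumB (hν : Sp ν B.h) (φ : ℤ → ℝ) :
    ∑ k ∈ range B.nb, φ (k - B.h2) * vec B ν (1 + k) = IT (ν ∗ ν) φ := by
  have := B.dims
  rw [← (hν.conv hν).sum_tm, sum_Icc, show 2 * (B.h + B.h) + 1 = B.nb by omega]
  refine sum_congr rfl fun k hk => ?_
  have := mem_range.1 hk
  rw [vec, if_neg (by omega), if_pos (by omega)]
  congr 2 <;> omega

lemma sumA (hν : Sp ν B.h) (φ : ℤ → ℝ) :
    ∑ i ∈ range B.na, φ (i - B.h) * vec B ν (B.oa + i) = IT ν φ := by
  have := B.dims
  rw [← hν.sum_tm, sum_Icc, show 2 * B.h + 1 = B.na by omega]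
  refine sum_congr rfl fun k hk => ?_
  have := mem_range.1 hk
  rw [vec, if_neg (by omega), if_neg (by omega), if_pos (by omega)]
  congr 2
  omega

lemma sumC (hν : Sp ν B.h) (φ : ℤ → ℝ) :
    ∑ j ∈ range B.na, (φ (j - B.h2) + φ (B.h2 - j)) * vec B ν (B.oc + j) = IT (gm ν) φ := by
  have := B.dims
  rw [← hν.gm.sum_tm, sum_fold, show B.h + B.h = B.h2 by omega, show B.h2 + 1 = B.na by omega]
  refine sum_congr rfl fun k hk => ?_
  have h1 := tm_rf (gm ν) (B.h2 - k)
  rw [rf_gm, neg_sub] at h1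
  rw [vec, if_neg (by omega), if_neg (by omega), if_neg (by omega), h1, Nat.add_sub_cancel_left,
    show ((B.oc + k : ℕ) : ℤ) - B.oc - 2 * B.h = k - B.h2 by omega, show 2 * B.h = B.h2 from rfl]
  ring

lemma hvB (hν : Sp ν B.h) (h : Bd w X) (hw : w ≤ 335)
    (e : ∀ k < B.nb, (dg X k : ℝ) = φ (k - B.h2)) :
    HV B.D (vec B ν) (B.onB X) w (IT (ν ∗ ν) φ) := by
  have := B.dims
  refine (h.put (by omega) hw).eq le_rfl ?_
  rw [← sumB hν]
  exact sum_congr rfl fun k hk => by rw [e k (mem_range.1 hk)]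

lemma hvA (hν : Sp ν B.h) (h : Bd w X) (hw : w ≤ 335)
    (e : ∀ k < B.na, (dg X k : ℝ) = φ (k - B.h)) :
    HV B.D (vec B ν) (B.onA X) w (IT ν φ) := by
  have := B.dims
  refine (h.put (by omega) hw).eq le_rfl ?_
  rw [← sumA hν]
  exact sum_congr rfl fun k hk => by rw [e k (mem_range.1 hk)]

lemma hvC (hν : Sp ν B.h) (h : Bd w X) (hw : w ≤ 335) (he : ∀ n, φ (-n) = φ n)
    (e : ∀ k < B.na, (dg X k : ℝ) = φ (k - B.h2)) :
    HV B.D (vec B ν) (B.onC X) w (IT (gm ν) φ / 2) := by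
  have := B.dims
  refine (h.put (by omega) hw).eq le_rfl ?_
  rw [← sumC hν, sum_div]
  exact sum_congr rfl fun k hk => by rw [e k (mem_range.1 hk), ← he (B.h2 - k), neg_sub]; ring

lemma dg_bld (n : ℕ) {F : ℕ → ℕ} (h : ∀ j < n, F j < 2 ^ w) (hw : w ≤ 336) :
    Bd w (bld n F) ∧ ∀ j < n, dg (bld n F) j = F j := by
  have h1 : ∀ i, (if i < n then F i else 0) < 2 ^ w := fun i => by
    split_ifs with hi; exacts [h i hi, by positivity]
  have h2 := fun j => dg_ext _ j (f := fun j => if j < n then F j else 0)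
    ((Cg.bld _ n F).congr fun _ _ => by simp) fun i =>
      (h1 i).trans_le (Nat.pow_le_pow_right two_pos hw)
  exact ⟨fun j => h2 j ▸ h1 j, fun j hj => by rw [h2, if_pos hj]⟩

lemma cn_dg {c n k : ℕ} (hc : c < Y) (hk : k < n) : (dg (cn c n) k : ℝ) = c := by
  rw [dg_cn hc, if_pos hk]

/-- The quantity on which the branching takes place. -/
noncomputable def ycoord (B : Tb) (ν : Measure ℝ) (f : ℕ) : ℝ := IT ν (tz B.h2 (B.SN f)) + 4194304

/-- The values of the linear forms attached to a frequency. -/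
noncomputable def xs (B : Tb) (ν : Measure ℝ) (f : ℕ) : ℕ → ℝ
  | 0 => 2 * IT ν (tz B.h2 (B.CS f))
  | 1 => 2 * IT ν (tz B.h2 (B.SN f))
  | 2 => IT (ν ∗ ν) (tz B.h2 (B.SN f))
  | 3 => IT (gm ν) (tz B.h2 (B.CS f))
  | _ => IT (ν ∗ ν) (tz B.h2 (B.CS f))

lemma hvA' (hν : Sp ν B.h) (h : Bd w X) (hw : w ≤ 335) :
    HV B.D (vec B ν) (B.onA (sr B.h X)) w (IT ν (tz B.h2 X) + 4194304) := by
  have := B.dims
  refine (hvA hν (h.sr _) hw (φ := fun n => tz B.h2 X n + 4194304) fun k hk => ?_).eq le_rfl ?_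
  · rw [dg_sr, tz_eq (B.h + k) (by omega) (by omega), sub_add_cancel]
  · rw [hν.IT_add, IT_const]

lemma hv_sA (hν : Sp ν B.h) (h : Bd 24 X) : HV B.D (vec B ν) (B.sA X) 25 (IT ν (tz B.h2 X)) := by
  have := B.dims
  refine ((hvA' hν h (by norm_num)).sb (hvA hν (Bd.cn (w := 24) (by norm_num) (by decide) _)
    (by norm_num) (φ := fun _ => TT) fun k hk => cn_dg (by decide) (by omega))).eq le_rfl ?_
  simp [IT_const, TT]

lemma hv_sB (hν : Sp ν B.h) (h : Bd 24 X) :
    HV B.D (vec B ν) (B.sB X) 25 (IT (ν ∗ ν) (tz B.h2 X)) := by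
  have := B.dims
  refine ((hvB hν h (by norm_num) (φ := fun n => tz B.h2 X n + 4194304) fun k hk => ?_).sb
    (hvB hν (Bd.cn (w := 24) (by norm_num) (by decide) _)
    (by norm_num) (φ := fun _ => TT) fun k hk => cn_dg (by decide) hk)).eq le_rfl ?_
  · rw [tz_eq k (by omega) (by omega), sub_add_cancel]
  · simp [(hν.conv hν).IT_add, IT_const, TT]

lemma hv_sC (hν : Sp ν B.h) (h : Bd 24 X) (he : ∀ n, tz B.h2 X (-n) = tz B.h2 X n) :
    HV B.D (vec B ν) (B.sC X) 25 (IT (gm ν) (tz B.h2 X) / 2) := by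
  have := B.dims
  refine ((hvC hν h (by norm_num) (φ := fun n => tz B.h2 X n + 4194304) (fun n => by rw [he])
    fun k hk => ?_).sb (hvC hν (Bd.cn (w := 24) (by norm_num) (by decide) _) (by norm_num)
    (φ := fun _ => TT) (fun _ => rfl) fun k hk => cn_dg (by decide) (by omega))).eq le_rfl ?_
  · rw [tz_eq k (by omega) (by omega), sub_add_cancel]
  · rw [hν.gm.IT_add, IT_const, IT_const, TT]
    push_cast
    ring

lemma hv_ev (hν : Sp ν B.h) (h2 : B.h ≤ 37) : HV B.D (vec B ν) B.ev 16 (2 * em ν) := by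
  have := B.dims
  obtain ⟨k1, k2⟩ := dg_bld B.nb (w := 13) (F := fun j => force
    (Nat.add (Nat.sub j B.h2) (Nat.sub B.h2 j)) fun d => Nat.mul d d) (fun j hj => by
      rw [force_eq]
      have : Nat.add (Nat.sub j B.h2) (Nat.sub B.h2 j) ≤ 74 := by
        simp only [Nat.add_eq, Nat.sub_eq]; omega
      exact (Nat.mul_le_mul this this).trans_lt (by norm_num)) (by norm_num)
  have k3 : ∀ j < B.nb, (dg B.SQ j : ℝ) = ((j - B.h2 : ℤ) : ℝ) ^ 2 := fun j hj => by
    rw [Tb.SQ, k2 j hj, force_eq]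
    simp only [Nat.add_eq, Nat.sub_eq, Nat.mul_eq]
    rcases le_total j B.h2 with h | h
    · rw [Nat.sub_eq_zero_of_le h, zero_add, Nat.cast_mul, Nat.cast_sub h]; push_cast; ring
    · rw [Nat.sub_eq_zero_of_le h, add_zero, Nat.cast_mul, Nat.cast_sub h]; push_cast; ring
  refine (((hvA hν (k1.sr B.h) (by norm_num) (φ := fun n => n ^ 2) fun k hk => ?_).smul (a := 2)
    (c := 4) le_rfl).sb ((hvB hν k1 (by norm_num) (φ := fun n => n ^ 2) k3).add
    ((hvC hν k1 (by norm_num) (φ := fun n => n ^ 2) (fun n => by simp)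
      fun k hk => k3 k (by omega)).smul (a := 1) (c := 2) le_rfl))).eq (by norm_num) ?_
  · rw [dg_sr]
    exact (k3 _ (by omega)).trans (by congr 2; omega)
  · rw [← mom2 hν]
    push_cast
    ring

theorem env {C : Cf} (hT : C.tb.ok = true) (hν : Sp ν C.tb.h) (hd : Dens (ν ∗ ν) (1 / C.tb.q))
    (hb : ∀ f < 16, bx C.lo f ≤ ycoord C.tb ν f ∧ ycoord C.tb ν f ≤ bx C.hi f) :
    Env C (vec C.tb ν) (xs C.tb ν) ∧ C.tb.q2 * vec C.tb ν 0 = 1 := by
  obtain ⟨h1, h2, h3, h4, -⟩ := Tb.ok_spec hT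
  have hD := C.tb.dims
  have hq : (0 : ℝ) < C.tb.q := by exact_mod_cast h3
  have v0 : vec C.tb ν 0 = 1 / (2 * C.tb.q) := if_pos rfl
  have hz : C.tb.q2 * vec C.tb ν 0 = 1 := by
    rw [v0, hD.2.2.2.2.1]; push_cast; field_simp
  have z : HV C.tb.D (vec C.tb ν) C.tb.q2 10 1 := (HV.const (by omega) (by omega)).eq le_rfl hz
  have one : ∀ k < C.tb.nb, (dg (ones C.tb.nb) k : ℝ) = 1 := fun k hk => by
    have := cn_dg (c := 1) (by decide) hk
    rwa [cn, Nat.mul_eq, one_mul, Nat.cast_one] at this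
  have ob : Bd 1 (ones C.tb.nb) := by
    have := Bd.cn (w := 1) (c := 1) (by norm_num) (by norm_num) C.tb.nb
    rwa [cn, Nat.mul_eq, one_mul] at this
  have ht : ∀ f < 16, HV C.tb.D (vec C.tb ν) (C.tb.t1 f) 30 (xs C.tb ν f 0) ∧
      HV C.tb.D (vec C.tb ν) (C.tb.t3 f) 30 (xs C.tb ν f 1) ∧
      HV C.tb.D (vec C.tb ν) (C.tb.t4 f) 30 (xs C.tb ν f 2) ∧
      HV C.tb.D (vec C.tb ν) (C.tb.tcc f) 30 (xs C.tb ν f 3) ∧
      HV C.tb.D (vec C.tb ν) (C.tb.tcb f) 30 (xs C.tb ν f 4) := fun f hf =>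
    ⟨((hv_sA hν (C.tb.CS_bd f)).smul (a := 1) (c := 2) le_rfl).eq (by norm_num) (by simp [xs]),
      ((hv_sA hν (C.tb.SN_bd f)).smul (a := 1) (c := 2) le_rfl).eq (by norm_num) (by simp [xs]),
      (hv_sB hν (C.tb.SN_bd f)).le (by norm_num),
      ((hv_sC hν (C.tb.CS_bd f) (Tb.trig hT hf).ev).smul (a := 1) (c := 2) le_rfl).eq (by norm_num)
        (by simp only [xs]; push_cast; ring), (hv_sB hν (C.tb.CS_bd f)).le (by norm_num)⟩
  have ev := hv_ev hν h2
  have em := em_mem hν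
  refine ⟨⟨h1, h2, h4, by rw [v0]; positivity, fun a => ?_, fun a => ?_, fun r => ?_, ht,
    fun f hf ξ => ?_, fun i => ?_⟩, hz⟩
  · have := tm_nonneg (gm ν)
    unfold vec
    split_ifs <;> first | exact tm_nonneg _ _ | exact mul_nonneg (this _) (by norm_num) | positivity
  · have t1 : ∀ (μ : Measure ℝ) [IsProbabilityMeasure μ] (i : ℤ), tm μ i ≤ 1 := fun μ _ i => by
      simpa [tm] using integral_mono_of_nonneg (μ := μ) (ae_of_all _ (tn_nonneg i))
        (integrable_const 1) (ae_of_all _ (tn_le_one i))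
    have hb := hν.conv hν
    rcases le_or_gt C.tb.oa a with h | h
    · rw [Tb.W, cT h, hz, vec, if_neg (by omega), if_neg (by omega)]
      have := t1 (gm ν) (a - C.tb.oc - 2 * C.tb.h)
      split_ifs <;> first | exact t1 _ _ | linarith
    rcases a with _ | a
    · rw [Tb.W, cF h, cB, cB, if_neg (by omega), if_neg (by omega), v0]
      have : 0 < 1 / (2 * (C.tb.q : ℝ)) := by positivity
      push_cast
      linarith
    rw [Tb.W_b (by omega), vec, if_neg (by omega), if_pos h, v0]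
    have e : (1 : ℝ) / (2 * C.tb.q) = 1 / C.tb.q / 2 := by field_simp
    rw [e]
    split_ifs with h5
    · rw [Nat.cast_one, one_mul]
      rcases h5 with h5 | h5
      · convert hd.tm_left (by positivity) hb using 2; omega
      · convert hd.tm_right (by positivity) hb using 2; omega
    · exact (hd.tm_le (by positivity) _).trans_eq (by push_cast; ring)
  · simp only [Tb.rho, cB]
    split_ifs
    · exact ((hvB hν ob (by norm_num) (φ := fun _ => 1) one).sb z).eq (by norm_num)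
        (by simp [IT_const])
    · exact ((hvA hν ob (by norm_num) (φ := fun _ => 1) fun k hk => one k (by omega)).sb z).eq
        (by norm_num) (by simp [IT_const])
    · exact ((hvC hν ob (by norm_num) (φ := fun _ => 1) (fun _ => rfl) fun k hk =>
        one k (by omega)).sb (HV.const (a := 10) (by omega) (by omega))).eq (by norm_num)
        (by rw [IT_const, v0]; field_simp; ring)
    · obtain ⟨k1, k2⟩ := dg_bld C.tb.nb (w := 8) (F := fun j => j) (fun j hj => by omega)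
        (by norm_num)
      refine ((hvB hν k1 (by norm_num) (φ := fun n => n + 2 * C.tb.h) fun k hk => ?_).sb
        ((hvA hν k1 (by norm_num) (φ := fun n => n + C.tb.h) fun k hk => ?_).smul (a := 1) (c := 2)
          le_rfl)).eq (by norm_num) ?_
      · rw [k2 k hk, hD.1]; push_cast; ring
      · rw [k2 k (by omega)]; push_cast; ring
      · rw [(hν.conv hν).IT_add, hν.IT_add, IT_const, IT_const, mom1 hν]; push_cast; ring
  · have := (Tb.trig hT hf).psd hν (ξ 0) (ξ 1) (ξ 2)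
    simp only [hz, sum_range_succ, sum_range_zero, sl2, FF, xs]
    nlinarith [mul_self_nonneg (ξ 0), mul_self_nonneg (ξ 1), mul_self_nonneg (ξ 2)]
  · rw [Cf.gv, force_eq, show Nat.div i 3 = i / 3 from rfl]
    rcases le_or_gt 49 i with h | h
    · rw [cT h]
      exact ⟨_, by linarith [em.2], (z.sb ev).le (by norm_num)⟩
    rw [cF h]
    rcases le_or_gt 48 i with h | h
    · rw [cT h]
      exact ⟨_, by linarith [em.1], ev.le (by norm_num)⟩
    rw [cF h, cB, cB]
    have hf : i / 3 < 16 := by omega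
    generalize i / 3 = f at hf
    have y := hvA' hν (C.tb.SN_bd f) (by norm_num)
    obtain ⟨b1, b2⟩ := hb f hf
    have l1 := Tb.bx_le C.lo f
    have l2 := Tb.bx_le C.hi f
    rw [ycoord] at b1 b2
    split_ifs
    · exact ⟨_, by linarith, (y.sb (z.smul l1)).le (by norm_num)⟩
    · exact ⟨_, by linarith, ((z.smul l2).sb y).le (by norm_num)⟩
    generalize bx C.lo f = l at *
    generalize bx C.hi f = u at *
    obtain ⟨-, a3, -, ac, ab⟩ := ht f hf
    have hK : C.tb.K f ≤ 2 ^ 24 := Tb.bx_le _ _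
    have n1 : Nat.mul TT (C.tb.K f) ≤ 2 ^ 50 := by show 4194304 * _ ≤ _; omega
    have n2 : Nat.mul 2 (Nat.add l u) ≤ 2 ^ 50 := by show 2 * (l + u) ≤ _; omega
    have n3 : Nat.mul TT (Nat.add 56 (Nat.mul 4 (Nat.add l u))) ≤ 2 ^ 50 := by
      show 4194304 * (56 + 4 * (l + u)) ≤ _; omega
    have n4 : Nat.mul 4 (Nat.add (Nat.mul l u) (Nat.mul TT TT)) ≤ 2 ^ 52 := by
      have := Nat.mul_le_mul l1 l2
      show 4 * (l * u + 4194304 * 4194304) ≤ _; omega
    refine ⟨_, ?_, ((((ev.smul n1).add (a3.smul n2)).add (z.smul n3)).sb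
      ((((((ac.add (z.smul (a := 5) (c := 24) (by norm_num))).sb ab).smul (a := 1) (c := 2)
        le_rfl).add (a3.smul (a := 2) (c := 4) le_rfl)).smul (a := 22) (c := TT) (by decide)).add
        (z.smul n4))).le (by norm_num)⟩
    have k1 := (Tb.trig hT hf).secant hν
    have k2 := mul_nonneg (sub_nonneg.2 b1) (sub_nonneg.2 b2)
    simp only [xs, TT, Nat.mul_eq, Nat.add_eq]
    push_cast
    linarith

end Pool.Agent.Lib.MP_834949_an.Ck
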