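import Pool.Agent.Lib.MP_834949_an.B.Ms2

/-!
The packed data of the master inequality.
-/

set_option exponentiation.threshold 1100

namespace Pool.Agent.Lib.MP_834949_an.Ck

open Finset

/-- The digits of `X` as a sequence centred at `c`. -/
noncomputable def zs (c X : ℕ) (m : ℤ) : ℝ := if 0 ≤ m + c then dg X (m + c).toNat else 0

/-- The even extension of the left half. -/
noncomputable def ze (c X : ℕ) (m : ℤ) : ℝ := zs c X (-|m|)

variable {c X Z n o a b w : ℕ} {m : ℤ} {φ ψ : ℕ → ℝ}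

lemma zs_eq (k : ℕ) (hk : m + c = k) : zs c X m = dg X k := by
  rw [zs, if_pos (by omega), hk, Int.toNat_natCast]

lemma ze_eq (k : ℕ) (hk : m + c = k) (h : k ≤ c) : ze c X m = dg X k := by
  rw [ze, abs_of_nonpos (by omega), neg_neg, zs_eq k hk]

lemma ze_neg (c X : ℕ) (m : ℤ) : ze c X (-m) = ze c X m := by rw [ze, ze, abs_neg]

lemma zs_nonneg (c X : ℕ) (m : ℤ) : 0 ≤ zs c X m := by unfold zs; split_ifs <;> positivity

lemma ze_nonneg (c X : ℕ) (m : ℤ) : 0 ≤ ze c X m := zs_nonneg _ _ _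

lemma zs_out (hX : X < Y ^ (2 * c + 1)) (hm : c < |m|) : zs c X m = 0 := by
  unfold zs
  split_ifs with h
  · rw [dg_big hX (by rw [lt_abs] at hm; omega), Nat.cast_zero]
  · rfl

lemma ze_out (hm : c < |m|) : ze c X m = 0 := if_neg (by omega)

lemma sum_cut {F : ℤ → ℝ} {N : ℕ} (hc : c ≤ N) (h : ∀ m : ℤ, c < |m| → F m = 0) :
    ∑ m ∈ Icc (-(N : ℤ)) N, F m = ∑ m ∈ Icc (-(c : ℤ)) c, F m :=
  (sum_subset (Icc_subset_Icc (by omega) (by omega)) fun m _ hm => h m (by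
    rw [mem_Icc, ← abs_le] at hm; omega)).symm

lemma sum_zs {N : ℕ} (hc : c ≤ N) (hX : X < Y ^ (2 * c + 1)) (h : Bd w X) (hn : c ≤ 500)
    (hw : w ≤ 320) : ∑ m ∈ Icc (-(N : ℤ)) N, zs c X m = dsum X := by
  rw [sum_cut hc fun _ => zs_out hX, sum_Icc, dsum_eq hX h (by omega) hw, Nat.cast_sum]
  exact sum_congr rfl fun k _ => zs_eq k (by omega)

lemma sum_ze {N : ℕ} (hc : c ≤ N) (hX : X < Y ^ (c + 1)) (h : Bd w X) (hn : c ≤ 500)
    (hw : w ≤ 320) : ∑ m ∈ Icc (-(N : ℤ)) N, ze c X m = esum c X := by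
  rw [sum_cut hc fun _ => ze_out, sum_fold, esum, dsum_eq hX h (by omega) hw, sum_range_succ,
    sum_range_succ, if_pos rfl, Nat.sub_eq, Nat.mul_eq, Nat.cast_sub (by omega), sub_self,
    ze_eq c (by omega) le_rfl, sum_congr rfl (g := fun j => 2 * (dg X j : ℝ)) fun j hj => by
      have := mem_range.1 hj
      rw [if_neg this.ne, ← ze_neg c X (c - j), neg_sub, ze_eq j (by omega) this.le]
      ring, ← mul_sum]
  push_cast
  ring

lemma dsum_le (hX : X < Y ^ n) (h : Bd w X) (hn : n ≤ 2 ^ 10) (hw : w ≤ 320) :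
    dsum X ≤ 2 ^ (10 + w) := by
  rw [dsum_eq hX h hn hw, pow_add]
  exact (sum_le_card_nsmul _ _ _ fun j _ => (h j).le).trans
    (by rw [card_range]; exact Nat.mul_le_mul_right _ hn)

/-- Signed digits from position `o` on, read as real numbers. -/
def RV (o n X b : ℕ) (φ : ℕ → ℝ) : Prop :=
  ∃ F, Rp (n + o) X F b ∧ ∀ i < n, (F (i + o) : ℝ) = φ i

lemma RV.add (h1 : RV o n X a φ) (h2 : RV o n Z b ψ) :
    RV o n (Nat.add X Z) (max a b + 1) fun i => φ i + ψ i :=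
  let ⟨_, h1, h3⟩ := h1
  let ⟨_, h2, h4⟩ := h2
  ⟨_, h1.add h2, fun i hi => by rw [Int.cast_add, h3 i hi, h4 i hi]⟩

lemma RV.sb (h1 : RV 0 n X a φ) (h2 : RV 0 n Z b ψ) :
    RV 0 n (sb n X Z) (max a b + 1) fun i => φ i - ψ i :=
  let ⟨_, h1, h3⟩ := h1
  let ⟨_, h2, h4⟩ := h2
  ⟨_, h1.sb h2, fun i hi => by rw [Int.cast_sub, h3 i hi, h4 i hi]⟩

lemma RV.smul (hc : c ≤ 2 ^ a) (h : RV o n X b φ) :
    RV o n (Nat.mul c X) (a + b) fun i => c * φ i :=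
  let ⟨_, h1, h3⟩ := h
  ⟨_, h1.smul hc, fun i hi => by rw [Int.cast_mul, h3 i hi, Int.cast_natCast]⟩

lemma Bd.rv (h : Bd w X) (e : ∀ i < n, (dg X i : ℝ) = φ i) : RV 0 n X w φ :=
  ⟨_, h.rp _, fun i hi => by simpa using e i hi⟩

lemma RV.up (C : Cf) (h : RV (C.tb.P - 1) n Z a φ) (ha : a ≤ 334) : RV 0 n (C.up n Z) a φ := by
  obtain ⟨F, h1, h2⟩ := h
  refine ⟨fun i => F (i + (C.tb.P - 1)), ⟨((Cg.dg _ _).sb (Cg.cn _ OO n) le_rfl).congr
    fun i hi => ?_, fun i hi => h1.2 _ (by omega)⟩, h2⟩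
  rw [if_pos (show i < n from hi), dg_sr, add_comm, Nat.sub_eq]
  exact sub_eq_of_eq_add (h1.nm ha _ (by omega))

lemma RV.dom (h : RV 0 n X a φ) (ha : a ≤ 333) (hd : Cf.dom n X = true) :
    ∀ i < n, φ i ≤ dg (pos n 100 X) i := by
  obtain ⟨F, h1, h2⟩ := h
  intro i hi
  have := (((Bd.pos (w := 100) (by norm_num) n X).rp n).sb h1).nonneg (by omega) hd i hi
  rw [← h2 i hi]
  exact_mod_cast sub_nonneg.1 this

lemma Bd.dd (h : Bd w X) {τ : ℤ → ℝ} (e : ∀ j ≤ n + 1, (dg X j : ℝ) = τ (j - c)) :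
    RV 0 n (Tb.ddf n X) (w + 2) fun i => dd τ (i + 1 - c) :=
  ⟨_, h.ddf n, fun i hi => by
    push_cast
    rw [add_zero, e _ (by omega), e _ (by omega), e _ (by omega), Pool.Agent.Lib.MP_834949_an.dd]
    push_cast
    ring_nf⟩

lemma Bd.dds (h : Bd w X) (n c : ℕ) :
    RV 0 n (Tb.ddf n X) (w + 2) fun i => Pool.Agent.Lib.MP_834949_an.dd (zs c X) (i + 1 - c) :=
  h.dd fun j _ => (zs_eq j (by omega)).symm

lemma Bd.dde (h : Bd w X) (hX : X < Y ^ (c + 1)) (hc : 1 ≤ c) :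
    RV 0 c (Tb.ddf c (Cf.evx c X)) (w + 2)
      fun i => Pool.Agent.Lib.MP_834949_an.dd (ze c X) (i + 1 - c) := by
  have e := dg_cat hX (dg X (c - 1))
  refine Bd.dd (fun j => ?_) fun j hj => ?_
  · refine (e j).trans_lt ?_
    split_ifs
    · exact h j
    · rw [dg_eq]
      exact ((Nat.mod_le _ _).trans (Nat.div_le_self _ _)).trans_lt (h _)
  · refine (congrArg _ (e j)).trans ?_
    split_ifs with h1
    · exact (ze_eq j (by omega) (by omega)).symm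
    · rw [← ze_neg, ze_eq (c - 1) (by omega) (by omega), show j - (c + 1) = 0 by omega, dg_eq,
        pow_zero, Nat.div_one, Nat.mod_eq_of_lt (dg_lt _ _)]

lemma dd_neg {τ : ℤ → ℝ} (h : ∀ m, τ (-m) = τ m) (m : ℤ) : dd τ (-m) = dd τ m := by
  rw [dd, dd, h, ← h (m - 1), ← h (m + 1), neg_sub, neg_add, add_comm (-m) 1]
  simp only [sub_eq_add_neg]
  ring

lemma all_zs {κ : ℤ → ℝ} (hn : n + 1 = 2 * c) (h : ∀ i < n, κ (i + 1 - c) ≤ dg X i) (m : ℤ)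
    (hm : |m| < c) : κ m ≤ zs (c - 1) X m := by
  rw [abs_lt] at hm
  obtain ⟨k, hk⟩ : ∃ k : ℕ, m + c - 1 = k := ⟨(m + c - 1).toNat, by omega⟩
  rw [zs_eq k (by omega)]
  convert h k (by omega) using 2
  omega

lemma all_ze {κ : ℤ → ℝ} (he : ∀ m, κ (-m) = κ m) (h : ∀ i < c, κ (i + 1 - c) ≤ dg X i) (m : ℤ)
    (hm : |m| < c) : κ m ≤ ze (c - 1) X m := by
  obtain ⟨k, hk⟩ : ∃ k : ℕ, -|m| + c - 1 = k := ⟨(-|m| + c - 1).toNat, by omega⟩
  have := abs_nonneg m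
  have h1 := h k (by omega)
  rw [show (k : ℤ) + 1 - c = -|m| by omega, he] at h1
  rw [ze, zs_eq k (by omega)]
  rcases abs_choice m with h2 | h2 <;> rw [h2] at h1
  exacts [h1, he m ▸ h1]

/-- The periodic filters. -/
noncomputable def Cf.gz (C : Cf) (u : ℕ) (n : ℤ) : ℝ :=
  dg (C.fo u) (n % C.tb.P).toNat - 131072

lemma Cf.gz_per (C : Cf) (u : ℕ) (n : ℤ) : C.gz u (n + C.tb.P) = C.gz u n := by
  simp [Cf.gz]

lemma Cf.cr_spec (C : Cf) (h1 : 1 ≤ C.tb.h) (h2 : C.tb.h ≤ 37) (hc : c ≤ C.tb.P)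
    (hn : n ≤ C.tb.P) (u w : ℕ) : RV (C.tb.P - 1) n (C.cr c n u w) 48
      fun i => cor C.tb.P (C.gz u) (C.gz w) (i + 1 - c) := by
  have hP := C.tb.dims.2.2.2.2.2.2.2.2.2.2.2
  have hb : ∀ u, Bd 18 (C.fo u) := fun u => Bd.fld (by norm_num) _ _
  have hl : C.fo u < Y ^ C.tb.P := fld_lt (by norm_num) _ _
  have g1 : ∀ u (k : ℕ), C.gz u k = dg (C.fo u) (k % C.tb.P) - 131072 := fun u k => by
    rw [Cf.gz, ← Int.natCast_mod, Int.toNat_natCast]
  have e3 : ∀ j < 3 * C.tb.P, dg (C.f3 u) j = dg (C.fo u) (j % C.tb.P) := fun j hj => by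
    rw [Cf.f3, dg_cat hl, dg_cat hl]
    split_ifs with k1 k2
    · rw [Nat.mod_eq_of_lt k1]
    · rw [Nat.mod_eq_sub_mod (by omega), Nat.mod_eq_of_lt k2]
    · rw [Nat.mod_eq_sub_mod (by omega), Nat.mod_eq_sub_mod (by omega),
        Nat.mod_eq_of_lt (by omega)]
  have b3 : Bd 18 (C.f3 u) := fun j => by
    rw [Cf.f3, dg_cat hl, dg_cat hl]
    split_ifs <;> exact hb _ _
  have r1 := dg_bld C.tb.P (w := 18) (F := fun j => dg (C.fo w) (C.tb.P - 1 - j))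
    (fun _ _ => hb _ _) (by norm_num)
  have r2 : Rp (n + (C.tb.P - 1)) (C.rv w)
      (fun j => if j < C.tb.P then (dg (C.fo w) (C.tb.P - 1 - j) : ℤ) else 0) 18 :=
    ⟨Cg.bld _ _ _, fun j _ => bd_ite fun _ => bd_nat (hb _ _).le⟩
  refine ⟨_, ((((b3.sr _).rp _).sb (Rp.cn' _ (a := 18) (by norm_num))).mul (m := 10) (by omega)
    (r2.sb (Rp.cn _ _ (a := 18) (by norm_num)))).le (by norm_num), fun i hi => ?_⟩
  beta_reduce
  rw [show i + (C.tb.P - 1) + 1 = i + C.tb.P by omega, sum_range_add, sum_eq_zero fun j hj => by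
    have := mem_range.1 hj
    rw [if_neg (by omega), if_neg (by omega), sub_zero, mul_zero], zero_add, cor, Int.cast_sum]
  refine sum_congr rfl fun k hk => ?_
  have := mem_range.1 hk
  rw [if_pos (by omega), if_pos (by omega), dg_sr, Nat.sub_eq, e3 _ (by omega), g1 w,
    Nat.mod_eq_of_lt this, ← C.gz_per, show C.tb.P - 1 - (i + (C.tb.P - 1) - (i + k)) = k by omega,
    show (k : ℤ) + (i + 1 - c) + C.tb.P = (C.tb.P.succ - c + (i + k) : ℕ) by omega, g1]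
  push_cast
  ring

end Pool.Agent.Lib.MP_834949_an.Ck
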