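import Pool.Agent.Lib.MP_834949_an.B.Ms3

/-!
The master inequality for the data of a leaf.
-/

set_option exponentiation.threshold 1100

namespace Pool.Agent.Lib.MP_834949_an.Ck

open Finset MeasureTheory

/-- The quadratic form of a leaf. -/
noncomputable def Cf.QQ (C : Cf) (ν : Measure ℝ) : ℝ :=
  KQ (ν ∗ ν) (ν ∗ ν) (ze C.tb.h4 C.tbb) + KQ (ν ∗ ν) ν (zs C.tb.h3 C.tba) +
    KQ ν ν (ze C.tb.h2 C.t11) + KQ ν (rf ν) (zs C.tb.h2 C.t20) +
    KQ ν (gm ν) (fun n => zs C.tb.h3 C.q1 n - zs C.tb.h3 C.tba n) +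
    KQ (gm ν) (gm ν) fun n => ze C.tb.h4 C.q2 n - ze C.tb.h4 C.tbb n

lemma Cf.tau_bd (C : Cf) (i n : ℕ) : Bd 22 (C.tau i n) := Bd.fld (by norm_num) _ _
lemma Cf.tau_lt (C : Cf) (i n : ℕ) : C.tau i n < Y ^ n := fld_lt (by norm_num) _ _

lemma gt_le {q p : ℕ} (hq : q ≤ 2 ^ 129) (hp : p ≤ 2 ^ 111) : Cf.gt q p ≤ 2 ^ 134 := by
  rw [Cf.gt, mx_eq]
  simp only [Nat.mul_eq, Nat.add_eq]
  omega

lemma esum_le (c X : ℕ) : esum c X ≤ 2 * dsum X := Nat.sub_le _ _

theorem Cf.s1 {C : Cf} {ν : Measure ℝ} [IsProbabilityMeasure ν] (h1 : 1 ≤ C.tb.h)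
    (h2 : C.tb.h ≤ 37) (hν : Sp ν C.tb.h) (hd : Dens (ν ∗ ν) (1 / C.tb.q)) (hS : C.okS = true) :
    ∃ y, HV C.tb.D (vec C.tb ν) C.lin 140 y ∧ 24 * C.st * C.QQ ν ≤ y := by
  have hD := C.tb.dims
  have n20 : C.n20 = 4 * C.tb.h - 1 := rfl
  have n1 : C.n1 = 6 * C.tb.h - 1 := rfl
  obtain ⟨d1, hS⟩ := cond_and hS
  obtain ⟨d2, hS⟩ := cond_and hS
  obtain ⟨d3, hS⟩ := cond_and hS
  obtain ⟨d4, hS⟩ := cond_and hS
  obtain ⟨d5, d6⟩ := cond_and hS
  have st : C.st ≤ 2 ^ 96 := C.s_le 1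
  have ce : ∀ u m, cor C.tb.P (C.gz u) (C.gz u) (-m) = cor C.tb.P (C.gz u) (C.gz u) m :=
    fun u => cor_neg (C.gz_per u) (C.gz_per u)
  have cr := fun c n (hc : c ≤ C.tb.P) (hn : n ≤ C.tb.P) => C.cr_spec h1 h2 hc hn
  have c2 := cr C.tb.h2 C.tb.h2 (by omega) (by omega)
  have c20 := cr C.tb.h2 C.n20 (by omega) (by omega)
  have c3 := cr C.tb.h3 C.n1 (by omega) (by omega)
  have c4 := cr C.tb.h4 C.tb.h4 (by omega) (by omega)
  have b11 : Bd 22 C.t11 := C.tau_bd _ _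
  have b20 : Bd 22 C.t20 := C.tau_bd _ _
  have bba : Bd 22 C.tba := C.tau_bd _ _
  have bbb : Bd 22 C.tbb := C.tau_bd _ _
  have bq1 : Bd 22 C.q1 := C.tau_bd _ _
  have bq2 : Bd 22 C.q2 := C.tau_bd _ _
  have be : Bd 22 C.ee := C.tau_bd _ _
  have lq1 : C.q1 < Y ^ (2 * C.tb.h3 + 1) :=
    (C.tau_lt _ _).trans_eq (congrArg _ (by omega))
  have lq2 : C.q2 < Y ^ (C.tb.h4 + 1) := C.tau_lt _ _
  have le : C.ee < Y ^ (2 * (C.tb.h2 - 1) + 1) :=
    (C.tau_lt _ _).trans_eq (congrArg _ (by simp only [Nat.sub_eq]; omega))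
  have bp : ∀ n X, Bd 100 (pos n 100 X) := Bd.pos (by norm_num)
  have l3 : ∀ X, pos C.n1 100 X < Y ^ (2 * (C.tb.h3 - 1) + 1) :=
    fun X => (pos_lt (by norm_num) _ _).trans_eq (congrArg _ (by omega))
  have l4 : ∀ X, pos C.tb.h4 100 X < Y ^ (C.tb.h4 - 1 + 1) :=
    fun X => (pos_lt (by norm_num) _ _).trans_eq (congrArg _ (by omega))
  have two : 2 ≤ 2 ^ 1 := le_rfl
  have k11 := all_ze (c := C.tb.h2) (X := C.p11)
    (κ := fun n => C.st * dd (ze C.tb.h2 C.t11) n + (_ + _ + (_ + _)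
    + (_ + _ + _))) (fun m => by simp only [dd_neg (ze_neg _ _), ce])
    ((((b11.dde (C.tau_lt _ _) (by omega)).smul st).add (((((c2 0 0).add (c2 2 2)).add
      ((c2 3 3).add (c2 4 4))).add (((c2 6 6).add (c2 7 7)).add (c2 8 8))).up C
      (by norm_num))).dom (by norm_num) d1)
  have k20 := all_zs (c := C.tb.h2) (X := C.p20)
    (κ := fun n => C.st * (dd (zs C.tb.h2 C.t20) n -
    (6 : ℕ) * zs (C.tb.h2 - 1) C.ee n) + (2 : ℕ) * (_ + _)) (by omega)
    (((((b20.dds _ C.tb.h2).sb ((be.rv fun i _ => (zs_eq i (by omega)).symm).smul (a := 3)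
      (by norm_num))).smul st).add ((((c20 3 4).add (c20 6 7)).smul two).up C
      (by norm_num))).dom (by norm_num) d2)
  have kba := all_zs (c := C.tb.h3) (X := pos C.n1 100 C.kba)
    (κ := fun n => C.st * (dd (zs C.tb.h3 C.tba) n +
    (4 : ℕ) * zs C.tb.h3 C.q1 n) + (2 : ℕ) * _) (by omega)
    (((((bba.dds _ C.tb.h3).add (((bq1.sr 1).rv fun i _ => by
      rw [dg_sr]; exact (zs_eq _ (by omega)).symm).smul (a := 2) le_rfl)).smul st).add
      (((c3 1 0).smul two).up C (by norm_num))).dom (by norm_num) d3)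
  have kca := all_zs (c := C.tb.h3) (X := pos C.n1 100 C.kca)
    (κ := fun n => C.st * (dd (zs C.tb.h3 C.q1) n -
    dd (zs C.tb.h3 C.tba) n) + (2 : ℕ) * (_ + _)) (by omega)
    (((((bq1.dds _ C.tb.h3).sb (bba.dds _ C.tb.h3)).smul st).add
      ((((c3 3 5).add (c3 5 4)).smul two).up C (by norm_num))).dom (by norm_num) d4)
  have kbb := all_ze (c := C.tb.h4) (X := pos C.tb.h4 100 C.kbb)
    (κ := fun n => C.st * (dd (ze C.tb.h4 C.tbb) n +
    (4 : ℕ) * ze C.tb.h4 C.q2 n) + _) (fun m => by simp only [dd_neg (ze_neg _ _), ce, ze_neg])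
    (((((bbb.dde (C.tau_lt _ _) (by omega)).add (((bq2.sr 1).rv fun i _ => by
      rw [dg_sr]; exact (ze_eq _ (by omega) (by omega)).symm).smul (a := 2) le_rfl)).smul st).add
      ((c4 1 1).up C (by norm_num))).dom (by norm_num) d5)
  have kcc := all_ze (c := C.tb.h4) (X := pos C.tb.h4 100 C.kcc)
    (κ := fun n => C.st * (dd (ze C.tb.h4 C.q2) n -
    dd (ze C.tb.h4 C.tbb) n) + _) (fun m => by simp only [dd_neg (ze_neg _ _), ce])
    (((((bq2.dde lq2 (by omega)).sb (bbb.dde (C.tau_lt _ _) (by omega))).smul st).add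
      ((c4 5 5).up C (by norm_num))).dom (by norm_num) d6)
  simp only [Nat.cast_ofNat] at k20 kba kca kbb
  have key := master hν (by positivity) hd C.gz C.gz_per C.st.cast_nonneg
    (Icc (-(C.tb.h4 : ℤ)) C.tb.h4)
    (fun n => ⟨zs_nonneg _ _ _, ze_nonneg _ _ _, zs_nonneg _ _ _, ze_nonneg _ _ _, zs_nonneg _ _ _,
      zs_nonneg _ _ _, zs_nonneg _ _ _, ze_nonneg _ _ _, ze_nonneg _ _ _⟩)
    (fun n hn => by
      rw [mem_Icc, ← abs_le] at hn
      exact ⟨zs_out lq1 (by omega), ze_out (by omega), zs_out le (by omega),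
        zs_out (l3 _) (by omega), zs_out (l3 _) (by omega), ze_out (by omega), ze_out (by omega)⟩)
    (fun n hn => k11 n (by omega)) (fun n hn => k20 n (by omega)) (fun n hn => kba n (by omega))
    (fun n hn => kca n (by omega)) (fun n hn => kbb n (by omega)) fun n hn => kcc n (by omega)
  rw [sum_zs (by omega) le be (by omega) (by norm_num),
    sum_zs (by omega) lq1 bq1 (by omega) (by norm_num),
    sum_ze le_rfl lq2 bq2 (by omega) (by norm_num),
    sum_zs (by omega) (l3 _) (bp _ _) (by omega) (by norm_num),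
    sum_zs (by omega) (l3 _) (bp _ _) (by omega) (by norm_num),
    sum_ze (by omega) (l4 _) (bp _ _) (by omega) (by norm_num),
    sum_ze (by omega) (l4 _) (bp _ _) (by omega) (by norm_num)] at key
  have kc : C.kc ≤ 2 ^ 137 := by
    have a1 := Nat.mul_le_mul st (dsum_le le be (by omega) (by norm_num))
    have a2 := Nat.mul_le_mul st (dsum_le lq1 bq1 (by omega) (by norm_num))
    have a3 := Nat.mul_le_mul st ((esum_le C.tb.h4 _).trans
      (Nat.mul_le_mul_left 2 (dsum_le lq2 bq2 (by omega) (by norm_num))))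
    have a4 := fun X => dsum_le (l3 X) (bp _ _) (by omega) (by norm_num)
    have a5 := fun X => (esum_le C.n20 _).trans
      (Nat.mul_le_mul_left 2 (dsum_le (l4 X) (bp _ _) (by omega) (by norm_num)))
    have a6 := gt_le (a2.trans (by norm_num)) ((a4 C.kba).trans (by norm_num))
    have a7 := gt_le (a3.trans (by norm_num)) ((a5 C.kbb).trans (by norm_num))
    have a8 := a4 C.kca
    have a9 := a5 C.kcc
    simp only [Cf.kc, Nat.mul_eq, Nat.add_eq]
    omega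
  refine ⟨_, (((HV.const (a := 138) (by omega) (by show 2 * _ ≤ _; omega)).add
    ((((hvB hν b20 (by norm_num) (φ := zs C.tb.h2 C.t20) fun k _ => (zs_eq k (by omega)).symm).smul
      (a := 5) (c := 24) (by norm_num)).add ((hvC hν b11 (by norm_num) (ze_neg C.tb.h2 C.t11)
      fun k _ => (ze_eq k (by omega) (by omega)).symm).smul (a := 6) (c := 48) (by norm_num))).smul
      st)).add (((hvB hν ((bp _ _).sl 1) (by norm_num) (φ := zs (C.tb.h2 - 1) C.p20)
      fun k _ => ?_).smul (a := 3) (c := 6) (by norm_num)).add ((hvC hν ((bp _ _).sl 1)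
      (by norm_num) (ze_neg (C.tb.h2 - 1) C.p11) fun k _ => ?_).smul (a := 4) (c := 12)
      (by norm_num)))).le (by norm_num), key.trans_eq ?_⟩
  · rw [dg_sl]
    split_ifs
    · exact (zs_eq _ (by omega)).symm
    · rw [zs, if_neg (by omega), Nat.cast_zero]
  · rw [dg_sl]
    split_ifs
    · exact (ze_eq _ (by omega) (by omega)).symm
    · rw [ze_out (by rw [lt_abs]; omega), Nat.cast_zero]
  · simp only [Cf.kc, Cf.gt, mx_eq, Nat.mul_eq, Nat.add_eq, vec, if_true, Cf.n20, Nat.sub_eq]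
    push_cast
    ring

end Pool.Agent.Lib.MP_834949_an.Ck
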