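import Pool.Agent.Lib.MP_834949_an.B.Ms4

/-!
Soundness of the checker for one leaf.
-/

set_option exponentiation.threshold 1100

namespace Pool.Agent.Lib.MP_834949_an.Ck

open Finset MeasureTheory

variable {v : ℕ → ℝ} {M : ℕ → ℕ → ℤ}

lemma tri_add (o n : ℕ) : tri (o + n) v M = tri o v M +
    2 * ∑ i ∈ range n, (∑ b ∈ range o, M (o + i) b * v b) * v (o + i) +
      tri n (fun i => v (o + i)) fun i j => M (o + i) (o + j) := by
  simp only [tri, sum_range_add, mul_sum, add_assoc, ← sum_add_distrib]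
  congr 1
  refine sum_congr rfl fun i _ => ?_
  simp only [← mul_sum]
  ring

lemma tri_sym {n : ℕ} (K : ℕ → ℕ → ℝ) (h : ∀ a < n, ∀ b ≤ a, (M a b : ℝ) = K a b)
    (hs : ∀ a b, K a b = K b a) :
    tri n v M = ∑ a ∈ range n, (∑ b ∈ range n, K a b * v b) * v a := by
  induction n with
  | zero => simp [tri]
  | succ n ih =>
    rw [tri, sum_range_succ, ← tri, ih fun a ha => h a (by omega), h n (by omega) n le_rfl,
      sum_congr rfl (s₂ := range n) (f := fun b => M n b * v b) (g := fun b => K n b * v b)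
        fun b hb => by
        rw [h n (by omega) b (mem_range.1 hb).le]]
    simp only [sum_range_succ, add_mul, sum_add_distrib, fun a => hs a n, mul_assoc,
      fun a => mul_comm (v n) (v a)]
    simp only [← mul_assoc, ← sum_mul]
    ring

lemma KQ_it {μ ν : Measure ℝ} [IsProbabilityMeasure μ] [IsProbabilityMeasure ν] {A B : ℕ}
    (hμ : Sp μ A) (hν : Sp ν B) (τ : ℤ → ℝ) :
    KQ μ ν τ = IT μ fun i => IT ν fun j => τ (i - j) := by
  simp only [KQ, ← key hμ hν, ← hμ.sum_tm, ← hν.sum_tm, sum_mul]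
  exact sum_congr rfl fun i _ => sum_congr rfl fun j _ => by ring

lemma Bd.two {X Z w : ℕ} (h1 : Bd w X) (h2 : Bd w Z) (n k l : ℕ) :
    Rp n (Nat.add (Ck.sr k X) (Ck.sr l Z)) (fun j => dg X (k + j) + dg Z (l + j)) (w + 1) :=
  ((((h1.sr k).rp n).add ((h2.sr l).rp n)).le (by simp)).congr fun j _ => by rw [dg_sr, dg_sr]

theorem Cf.leaf {C : Cf} (hT : C.tb.ok = true) (hC : C.chk = true) {ν : Measure ℝ}
    [IsProbabilityMeasure ν] (hν : Sp ν C.tb.h) (hd : Dens (ν ∗ ν) (1 / C.tb.q))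
    (hb : ∀ f < 16, bx C.lo f ≤ ycoord C.tb ν f ∧ ycoord C.tb ν f ≤ bx C.hi f) : False := by
  obtain ⟨E, hz⟩ := env hT hν hd hb
  obtain ⟨c1, c2⟩ := cond_and hC
  obtain ⟨y, y1, y2⟩ := Cf.s1 E.h1 E.h2 hν hd c1
  have hD := C.tb.dims
  have b11 : Bd 22 C.t11 := C.tau_bd _ _
  have b20 : Bd 22 C.t20 := C.tau_bd _ _
  have bba : Bd 22 C.tba := C.tau_bd _ _
  have bbb : Bd 22 C.tbb := C.tau_bd _ _
  have bq1 : Bd 22 C.q1 := C.tau_bd _ _
  have bq2 : Bd 22 C.q2 := C.tau_bd _ _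
  set K : ℕ → ℕ → ℕ → ℕ → ℤ := fun X Z j b =>
    (if C.tb.oa ≤ b then (if b - C.tb.oa < C.tb.na then
      (dg X (C.tb.h4 - j + (b - C.tb.oa)) + dg X (j + (b - C.tb.oa)) : ℤ) else 0) else 0) +
    if C.tb.oc ≤ b then
      (4 : ℕ) * (dg Z (C.tb.h4 - j + (b - C.tb.oc)) + dg Z (j + (b - C.tb.oc)) : ℤ) else 0 with hK
  have rK : ∀ {X Z : ℕ}, Bd 22 X → Bd 22 Z → ∀ m j, Rp m (Nat.add
      (C.tb.onA (Nat.add (sr (C.tb.h4 - j) X) (sr j X)))
      (sl C.tb.oc (Nat.mul 4 (Nat.add (sr (C.tb.h4 - j) Z) (sr j Z))))) (K X Z j) 30 :=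
    fun hX hZ m j => ((((hX.two hX _ _ _).cut (by norm_num) (fun _ _ => by positivity) _).sl _).add
      (((hZ.two hZ _ _ _).smul (a := 2) le_rfl).sl _)).le (by norm_num)
  set MP : ℕ → ℕ → ℤ := fun a b => if C.tb.oc ≤ a then K C.q1 C.q2 (a - C.tb.oc) b else
    if C.tb.oa ≤ a then (if 1 ≤ b then (if b - 1 < C.tb.nb then
      (dg C.tba (C.tb.h2 - (a - C.tb.oa) + (b - 1)) : ℤ) else 0) else 0) +
      (if C.tb.oa ≤ b then (2 : ℕ) * (dg C.t11 (C.tb.h2 - (a - C.tb.oa) + (b - C.tb.oa)) +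
        dg C.t20 (a - C.tb.oa + (b - C.tb.oa)) : ℤ) else 0)
    else if 1 ≤ b then (2 : ℕ) * (dg C.tbb (C.tb.nb - a + (b - 1)) : ℤ) else 0 with hMP
  set MN : ℕ → ℕ → ℤ := fun a b => if C.tb.oc ≤ a then K C.tba C.tbb (a - C.tb.oc) b else 0
    with hMN
  refine E.sound y1 (MP := MP) (MN := MN) (fun a _ _ => ?_) (by
    simp only [hMP, hMN]
    rw [if_neg (by omega), if_neg (by omega), if_neg (by omega), if_neg (by omega)]) ?_
    (Nat.le_of_ble_eq_true c2)
  · simp only [Cf.qP, Cf.qN, force_eq, hMP, hMN, Nat.sub_eq]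
    rcases le_or_gt C.tb.oc a with h | h
    · simp only [cT h, if_pos h]
      exact ⟨rK bq1 bq2 _ _, rK bba bbb _ _⟩
    simp only [cF h, if_neg h.not_ge]
    refine ⟨?_, Cg.zero _, fun _ _ => by simp⟩
    rcases le_or_gt C.tb.oa a with h' | h'
    · simp only [cT h', if_pos h', ← dg_sr _ C.tba]
      exact ((((((bba.sr _).rp _).cut (by norm_num) (fun _ _ => by positivity) _).sl 1).add
        (((b11.two b20 _ _ _).smul (a := 1) le_rfl).sl _)).le (by norm_num))
    · simp only [cF h', if_neg h'.not_ge, ← dg_sr]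
      exact ((((bbb.sr _).rp _).smul (a := 1) le_rfl).sl 1).le (by norm_num)
  rw [hz, mul_one]
  refine le_of_eq_of_le ?_ (mul_le_mul_of_nonneg_left y2 zero_le_two)
  rw [mul_left_comm 2]
  congr 1
  have hb := hν.conv hν
  have hc := hν.gm
  have sA : ∀ (F : ℕ → ℝ), ∑ b ∈ range C.tb.oa, F b = F 0 + ∑ k ∈ range C.tb.nb, F (1 + k) :=
    fun F => by rw [show C.tb.oa = 1 + C.tb.nb by omega, sum_range_add, sum_range_one]
  have sC : ∀ (F : ℕ → ℝ), ∑ b ∈ range C.tb.oc, F b =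
      ∑ b ∈ range C.tb.oa, F b + ∑ i ∈ range C.tb.na, F (C.tb.oa + i) :=
    fun F => sum_range_add _ _ _
  have t1 : tri C.tb.oa (vec C.tb ν) (fun a b => MP a b - MN a b) =
      2 * KQ (ν ∗ ν) (ν ∗ ν) (ze C.tb.h4 C.tbb) := by
    rw [show C.tb.oa = 1 + C.tb.nb by omega, tri_add, tri_sym
      (fun k l => 2 * ze C.tb.h4 C.tbb (k - C.tb.h2 - (l - C.tb.h2))) (n := C.tb.nb)
      (fun k hk l hl => by
        simp only [hMP, hMN]
        rw [if_neg (by omega), if_neg (by omega), if_pos (by omega), if_neg (by omega), ← ze_neg,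
          ze_eq (C.tb.nb - (1 + k) + (1 + l - 1)) (by omega) (by omega)]
        simp)
      (fun k l => by rw [← ze_neg]; congr 2; ring), sum_eq_zero fun i hi => by
        have := mem_range.1 hi
        simp only [hMP, hMN, sum_range_one]
        rw [if_neg (by omega), if_neg (by omega), if_neg (by omega), if_neg (by omega)]
        simp, KQ_it hb hb]
    simp only [← sumB hν, mul_sum, sum_mul, tri, sum_range_one, hMP, hMN]
    rw [if_neg (by omega), if_neg (by omega), if_neg (by omega), if_neg (by omega)]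
    simp [mul_assoc]
  have t2 : ∑ i ∈ range C.tb.na, (∑ b ∈ range C.tb.oa, ((MP (C.tb.oa + i) b -
      MN (C.tb.oa + i) b : ℤ) : ℝ) * vec C.tb ν b) * vec C.tb ν (C.tb.oa + i) =
      KQ (ν ∗ ν) ν (zs C.tb.h3 C.tba) := by
    rw [KQ_it hb hν]
    simp only [← sumB hν, ← sumA hν, sum_mul]
    rw [sum_comm (s := range C.tb.nb)]
    refine sum_congr rfl fun i hi => ?_
    have := mem_range.1 hi
    simp only [sA, hMP, hMN, if_neg (show ¬C.tb.oc ≤ C.tb.oa + i by omega), le_add_iff_nonneg_right,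
      zero_le, if_true]
    rw [if_neg (by omega), if_neg (by omega)]
    simp only [add_zero, sub_zero, Int.cast_zero, zero_mul, zero_add]
    refine sum_congr rfl fun k hk => ?_
    have := mem_range.1 hk
    rw [if_pos (by omega), if_neg (by omega),
      zs_eq (C.tb.h2 - (C.tb.oa + i - C.tb.oa) + (1 + k - 1)) (by omega)]
    push_cast
    ring
  have t3 : tri C.tb.na (fun i => vec C.tb ν (C.tb.oa + i)) (fun i j =>
      MP (C.tb.oa + i) (C.tb.oa + j) - MN (C.tb.oa + i) (C.tb.oa + j)) =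
      2 * (KQ ν ν (ze C.tb.h2 C.t11) + KQ ν (rf ν) (zs C.tb.h2 C.t20)) := by
    rw [tri_sym (fun i j => 2 * (ze C.tb.h2 C.t11 (i - C.tb.h - (j - C.tb.h)) +
      zs C.tb.h2 C.t20 (i - C.tb.h - -(j - C.tb.h)))) (fun i hi j hj => by
        simp only [hMP, hMN]
        rw [if_neg (by omega), if_pos (by omega), if_pos (by omega), if_neg (by omega),
          if_pos (by omega), if_neg (by omega), ← ze_neg,
          ze_eq (C.tb.h2 - (C.tb.oa + i - C.tb.oa) + (C.tb.oa + j - C.tb.oa)) (by omega) (by omega),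
          zs_eq (C.tb.oa + i - C.tb.oa + (C.tb.oa + j - C.tb.oa)) (by omega)]
        simp)
      (fun k l => by rw [← ze_neg]; congr 3 <;> ring), KQ_it hν hν, KQ_it hν hν.refl]
    simp only [IT_rf, ← sumA hν, mul_sum, sum_mul, ← sum_add_distrib]
    exact sum_congr rfl fun i _ => sum_congr rfl fun j _ => by ring
  have t4 : ∑ j ∈ range C.tb.na, (∑ b ∈ range C.tb.oc, ((MP (C.tb.oc + j) b -
      MN (C.tb.oc + j) b : ℤ) : ℝ) * vec C.tb ν b) * vec C.tb ν (C.tb.oc + j) =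
      KQ ν (gm ν) fun n => zs C.tb.h3 C.q1 n - zs C.tb.h3 C.tba n := by
    rw [KQ_it hν hc]
    simp only [← sumC hν, ← sumA hν, sum_mul]
    symm
    rw [sum_comm]
    symm
    refine sum_congr rfl fun j hj => ?_
    have := mem_range.1 hj
    simp only [sC, hMP, hMN, hK, le_add_iff_nonneg_right, zero_le, if_true, Nat.add_sub_cancel_left]
    rw [sum_eq_zero fun b hb => by
      have := mem_range.1 hb
      simp [show ¬C.tb.oa ≤ b by omega, show ¬C.tb.oc ≤ b by omega], zero_add]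
    refine sum_congr rfl fun i hi => ?_
    have := mem_range.1 hi
    simp only [if_pos this, if_neg (show ¬C.tb.oc ≤ C.tb.oa + i by omega)]
    rw [zs_eq (C.tb.h4 - j + i) (by omega), zs_eq (C.tb.h4 - j + i) (by omega),
      zs_eq (j + i) (by omega), zs_eq (j + i) (by omega)]
    push_cast
    ring
  have t5 : tri C.tb.na (fun i => vec C.tb ν (C.tb.oc + i)) (fun i j =>
      MP (C.tb.oc + i) (C.tb.oc + j) - MN (C.tb.oc + i) (C.tb.oc + j)) =
      2 * KQ (gm ν) (gm ν) fun n => ze C.tb.h4 C.q2 n - ze C.tb.h4 C.tbb n := by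
    set τ : ℤ → ℝ := fun n => ze C.tb.h4 C.q2 n - ze C.tb.h4 C.tbb n with hτ
    have ev : ∀ n, τ (-n) = τ n := fun n => by simp only [hτ, ze_neg]
    rw [tri_sym (fun j l => 4 * (τ (l - j) + τ (j + l - C.tb.h4))) (fun j hj l hl => by
        simp only [hMP, hMN, hK, hτ, le_add_iff_nonneg_right, zero_le, if_true,
          Nat.add_sub_cancel_left, if_neg (show ¬C.tb.oc + l - C.tb.oa < C.tb.na by omega), ite_self]
        rw [ze_eq (C.tb.h4 - j + l) (by omega) (by omega),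
          ze_eq (C.tb.h4 - j + l) (by omega) (by omega),
          ze_eq (j + l) (by omega) (by omega), ze_eq (j + l) (by omega) (by omega)]
        push_cast
        ring)
      (fun k l => by rw [← ev, neg_sub, add_comm (k : ℤ)]), KQ_it hc hc]
    simp only [← sumC hν, mul_sum, sum_mul, ← sum_add_distrib]
    refine sum_congr rfl fun j _ => sum_congr rfl fun l _ => ?_
    rw [← ev (j - C.tb.h2 - (l - C.tb.h2)), ← ev (C.tb.h2 - j - (l - C.tb.h2)),
      show -((j : ℤ) - C.tb.h2 - (l - C.tb.h2)) = l - j by ring,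
      show (C.tb.h2 : ℤ) - j - (C.tb.h2 - l) = l - j by ring,
      show (j : ℤ) - C.tb.h2 - (C.tb.h2 - l) = j + l - C.tb.h4 by omega,
      show -((C.tb.h2 : ℤ) - j - (l - C.tb.h2)) = j + l - C.tb.h4 by omega]
    ring
  rw [Tb.D, Nat.add_eq, tri_add, t4, t5, Tb.oc, Nat.add_eq, tri_add, t1, t2, t3, Cf.QQ]
  ring

end Pool.Agent.Lib.MP_834949_an.Ck
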