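import Mathlib
import Pool.Agent.Lib.MP_834949_an.B.Ck

/-!
Meaning of the basic operations on packed numbers.
-/

set_option exponentiation.threshold 1100

namespace Pool.Agent.Lib.MP_834949_an.Ck

open Finset

lemma force_eq {α : Type} (x : ℕ) (f : ℕ → α) : force x f = f x := by cases x <;> rfl

lemma allN_spec {n : ℕ} {f : ℕ → Bool} (h : allN n f = true) : ∀ k, k < n → f k = true := by
  induction n with
  | zero => intro k hk; omega
  | succ n ih =>
    have h' : cond (f n) (allN n f) false = true := h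
    intro k hk
    cases hf : f n
    · simp [hf] at h'
    · rw [hf] at h'
      rcases Nat.lt_succ_iff_lt_or_eq.1 hk with h1 | h1
      · exact ih h' k h1
      · rw [h1, hf]

lemma cond_and {a b : Bool} (h : cond a b false = true) : a = true ∧ b = true := by
  cases a <;> simp_all

lemma sumN_eq (n : ℕ) (f : ℕ → ℕ) : sumN n f = ∑ k ∈ range n, f k := by
  induction n with
  | zero => rfl
  | succ n ih => rw [sum_range_succ, ← ih]; rfl

lemma sumS_eq (n : ℕ) (z : ℕ → Bool) (f : ℕ → ℕ) :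
    sumS n z f = sumN n fun k => if z k = true then 0 else f k := by
  rw [sumN_eq]
  induction n with
  | zero => rfl
  | succ n ih =>
    rw [sum_range_succ, ← ih]
    show @Bool.rec (fun _ => ℕ) (Nat.add (sumS n z f) (f n)) (sumS n z f) (z n) = _
    cases z n <;> simp

lemma mx_eq (a b : ℕ) : mx a b = max a b := by show a + (b - a) = _; omega
lemma mn_eq (a b : ℕ) : mn a b = min a b := by show a - (a - b) = _; omega

/-- The base. -/
def Y : ℕ := 2 ^ 336

lemma Y_pos : 0 < Y := by unfold Y; positivity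
lemma Y_pow (k : ℕ) : 2 ^ (336 * k) = Y ^ k := pow_mul 2 336 k
lemma p2_eq (k : ℕ) : p2 k = 2 ^ k := rfl
lemma m2_eq (k : ℕ) : m2 k = 2 ^ k - 1 := rfl
lemma MM_eq : MM + 1 = Y := Nat.sub_add_cancel Y_pos
lemma OO_eq : OO = 2 ^ 334 := rfl
lemma Y_OO : (Y : ℤ) = 4 * 2 ^ 334 := by unfold Y; norm_num
lemma sr_eq (k X : ℕ) : sr k X = X / Y ^ k := by
  rw [← Y_pow]; exact Nat.shiftRight_eq_div_pow X _
lemma sl_eq (k X : ℕ) : sl k X = X * Y ^ k := by rw [← Y_pow]; exact Nat.shiftLeft_eq X _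
lemma land_m2 (X k : ℕ) : Nat.land X (m2 k) = X % 2 ^ k := Nat.and_two_pow_sub_one_eq_mod X k
lemma dg_eq (X j : ℕ) : dg X j = X / Y ^ j % Y := by rw [← sr_eq]; exact land_m2 _ _
lemma pw_eq (n : ℕ) : pw n = Y ^ n := by rw [pw, sl_eq, one_mul]
lemma tr_eq (n X : ℕ) : tr n X = X % Y ^ n := by
  rw [tr, lw, pw_eq, ← Y_pow]; exact land_m2 _ _
lemma dg_lt (X j : ℕ) : dg X j < Y := by rw [dg_eq]; exact Nat.mod_lt _ Y_pos
lemma tr_lt (n X : ℕ) : tr n X < Y ^ n := by rw [tr_eq]; exact Nat.mod_lt _ (pow_pos Y_pos n)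
lemma dg_sr (k X j : ℕ) : dg (sr k X) j = dg X (k + j) := by
  rw [dg_eq, dg_eq, sr_eq, Nat.div_div_eq_div_mul, pow_add]

lemma ones_eq (n : ℕ) : ones n = ∑ j ∈ range n, Y ^ j := by
  have h : Y ^ n = 1 + MM * ∑ j ∈ range n, Y ^ j := by
    induction n with
    | zero => simp
    | succ n ih => rw [sum_range_succ, pow_succ, mul_add, ← add_assoc, ← ih, ← MM_eq]; ring
  have h1 : 1 < MM := by decide
  show pw n / MM = _
  rw [pw_eq, h, Nat.add_mul_div_left _ _ (by omega), Nat.div_eq_of_lt h1, zero_add]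

/-- Value of a digit string. -/
def ev (b : ℤ) (n : ℕ) (f : ℕ → ℤ) : ℤ := ∑ j ∈ range n, f j * b ^ j

lemma ev_zero {b : ℤ} (hb : 0 < b) {n : ℕ} {g : ℕ → ℤ} (h : b ^ n ∣ ev b n g)
    (hg : ∀ j < n, |g j| < b) : ∀ j < n, g j = 0 := by
  induction n with
  | zero => intro j hj; omega
  | succ n ih =>
    have e : ev b (n + 1) g = ev b n g + g n * b ^ n := sum_range_succ _ _
    rw [e] at h
    have h1 := ih ((dvd_add_left (Dvd.intro_left _ rfl)).1 ((pow_dvd_pow b n.le_succ).trans h))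
      fun j hj => hg j (by omega)
    have h2 : ev b n g = 0 := sum_eq_zero fun j hj => by rw [h1 j (mem_range.1 hj), zero_mul]
    rw [h2, zero_add, pow_succ', mul_dvd_mul_iff_right (pow_pos hb n).ne'] at h
    intro j hj
    rcases Nat.lt_succ_iff_lt_or_eq.1 hj with h3 | h3
    · exact h1 j h3
    · rw [h3]; exact Int.eq_zero_of_abs_lt_dvd h (hg n (by omega))

lemma mod_digits (b X n : ℕ) : X % b ^ n = ∑ j ∈ range n, X / b ^ j % b * b ^ j := by
  induction n with
  | zero => simp [Nat.mod_one]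
  | succ n ih => rw [Nat.mod_pow_succ, sum_range_succ, ih, mul_comm]

lemma digit_eq {b X n : ℕ} (hb : 0 < b) {f : ℕ → ℤ} (h : (X : ℤ) ≡ ev b n f [ZMOD (b : ℤ) ^ n])
    (hf : ∀ j < n, |f j - (X / b ^ j % b : ℕ)| < b) :
    ∀ j < n, ((X / b ^ j % b : ℕ) : ℤ) = f j := by
  intro j hj
  have h1 : (X : ℤ) ≡ ev b n fun j => (X / b ^ j % b : ℕ) [ZMOD (b : ℤ) ^ n] := by
    have := congrArg (Nat.cast : ℕ → ℤ) (mod_digits b X n)
    rw [Nat.cast_sum] at this
    simp only [Nat.cast_mul, Nat.cast_pow] at this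
    rw [ev, ← this]
    push_cast
    exact (Int.mod_modEq _ _).symm
  have h2 := (h1.symm.trans h).dvd
  rw [ev, ev, ← sum_sub_distrib] at h2
  simp only [← sub_mul] at h2
  exact (sub_eq_zero.1 (ev_zero (by exact_mod_cast hb) h2 hf j hj)).symm

/-- The lowest `n` signed digits of `X` are given by `f`. -/
def Cg (n X : ℕ) (f : ℕ → ℤ) : Prop := (X : ℤ) ≡ ev Y n f [ZMOD (Y : ℤ) ^ n]

variable {n m X Z : ℕ} {f g : ℕ → ℤ}

lemma ev_mono (f : ℕ → ℤ) (h : m ≤ n) : ev Y n f ≡ ev Y m f [ZMOD (Y : ℤ) ^ m] := by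
  obtain ⟨k, rfl⟩ := Nat.exists_eq_add_of_le h
  rw [ev, sum_range_add]
  refine (Int.modEq_iff_dvd.2 ?_).symm
  rw [ev, add_sub_cancel_left]
  exact dvd_sum fun j _ => Dvd.dvd.mul_left (pow_dvd_pow _ (by omega)) _

lemma Cg.mono (h : Cg n X f) (hm : m ≤ n) : Cg m X f :=
  (h.of_dvd (pow_dvd_pow _ hm)).trans (ev_mono f hm)

lemma Cg.congr (h : Cg n X f) (e : ∀ j < n, f j = g j) : Cg n X g := by
  have : ev Y n f = ev Y n g := sum_congr rfl fun j hj => by rw [e j (mem_range.1 hj)]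
  rwa [Cg, ← this]

lemma Cg.dg (n X : ℕ) : Cg n X fun j => dg X j := by
  have := congrArg (Nat.cast : ℕ → ℤ) (mod_digits Y X n)
  rw [Nat.cast_sum] at this
  simp only [Nat.cast_mul, Nat.cast_pow, ← dg_eq] at this
  rw [Cg, ev, ← this]
  push_cast
  exact (Int.mod_modEq _ _).symm

lemma Cg.dg_of (h : Cg n X f) (hf : ∀ j < n, |f j - Ck.dg X j| < Y) :
    ∀ j < n, (Ck.dg X j : ℤ) = f j := by
  simp only [dg_eq] at hf ⊢
  exact digit_eq Y_pos h hf

lemma Cg.dg_eq (h : Cg n X f) (hf : ∀ j < n, 0 ≤ f j ∧ f j < Y) :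
    ∀ j < n, (Ck.dg X j : ℤ) = f j :=
  h.dg_of fun j hj => by
    have h1 := hf j hj
    have h2 : (Ck.dg X j : ℤ) < Y := by exact_mod_cast dg_lt X j
    have h3 : (0 : ℤ) ≤ Ck.dg X j := by positivity
    rw [abs_lt]
    constructor <;> linarith [h1.1, h1.2]

lemma Cg.add (h1 : Cg n X f) (h2 : Cg n Z g) : Cg n (Nat.add X Z) fun j => f j + g j := by
  have := Int.ModEq.add h1 h2
  rw [ev, ev, ← sum_add_distrib] at this
  simp only [← add_mul] at this
  rw [Cg, Nat.add_eq, Nat.cast_add]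
  exact this

lemma Cg.smul (c : ℕ) (h : Cg n X f) : Cg n (Nat.mul c X) fun j => c * f j := by
  have := Int.ModEq.mul_left (c : ℤ) h
  rw [ev, mul_sum] at this
  simp only [← mul_assoc] at this
  rw [Cg, Nat.mul_eq, Nat.cast_mul]
  exact this

lemma Cg.tr (h : Cg n X f) (hm : n ≤ m) : Cg n (tr m X) f := by
  refine Int.ModEq.trans ?_ h
  rw [tr_eq]
  push_cast
  exact (Int.mod_modEq _ _).of_dvd (pow_dvd_pow _ hm)

lemma Cg.ng (h : Cg n X f) (hm : n ≤ m) : Cg n (ng m X) fun j => -f j := by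
  have h1 := (h.tr hm).neg
  rw [ev, ← sum_neg_distrib] at h1
  simp only [← neg_mul] at h1
  refine Int.ModEq.trans ?_ h1
  rw [Ck.ng, Nat.sub_eq, pw_eq, Nat.cast_sub (tr_lt m X).le, Nat.cast_pow, sub_eq_add_neg]
  exact Int.add_modEq_right_iff.2 (pow_dvd_pow _ hm)

lemma Cg.sb (h1 : Cg n X f) (h2 : Cg n Z g) (hm : n ≤ m) : Cg n (sb m X Z) fun j => f j - g j :=
  (h1.add (h2.ng hm)).congr fun _ _ => (sub_eq_add_neg _ _).symm

lemma Cg.zero (n : ℕ) : Cg n 0 fun _ => 0 := by simp [Cg, ev]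

lemma Cg.sl (k : ℕ) (h : Cg (m - k) X f) :
    Cg m (sl k X) fun j => if k ≤ j then f (j - k) else 0 := by
  rw [Cg, sl_eq, Nat.cast_mul, Nat.cast_pow]
  rcases le_total k m with hk | hk
  · obtain ⟨r, rfl⟩ := Nat.exists_eq_add_of_le hk
    rw [Nat.add_sub_cancel_left] at h
    have := Int.ModEq.mul_right' (c := (Y : ℤ) ^ k) h
    rw [← pow_add, add_comm r k, ev, sum_mul] at this
    rw [ev, sum_range_add, sum_eq_zero fun j hj => by
      rw [if_neg (by have := mem_range.1 hj; omega), zero_mul], zero_add]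
    refine this.trans (congrArg (· % _) (sum_congr rfl fun j _ => ?_))
    rw [if_pos (Nat.le_add_right k j), Nat.add_sub_cancel_left, pow_add]
    ring
  · rw [ev, sum_eq_zero fun j hj => by
      rw [if_neg (by have := mem_range.1 hj; omega), zero_mul]]
    exact Int.modEq_zero_iff_dvd.2 (Dvd.dvd.mul_left (pow_dvd_pow _ hk) _)

lemma Cg.const (n c : ℕ) : Cg n c fun j => if j = 0 then c else 0 := by
  cases n with
  | zero => simp [Cg, Int.modEq_one]
  | succ n => simp [Cg, ev]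

lemma Cg.sumN {c : ℕ} {F : ℕ → ℕ} {f : ℕ → ℕ → ℤ} (h : ∀ p < c, Cg n (F p) (f p)) :
    Cg n (sumN c F) fun j => ∑ p ∈ range c, f p j := by
  induction c with
  | zero => exact Cg.zero n
  | succ c ih =>
    exact ((ih fun p hp => h p (by omega)).add (h c (by omega))).congr
      fun j _ => (sum_range_succ _ _).symm

lemma Cg.bld (m n : ℕ) (F : ℕ → ℕ) : Cg m (bld n F) fun j => if j < n then F j else 0 := by
  refine (Cg.sumN (c := n) (F := fun p => Ck.sl p (F p))
    fun p _ => Cg.sl p (Cg.const _ (F p))).congr fun j _ => ?_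
  have : ∀ p, (if p ≤ j then (if j - p = 0 then (F p : ℤ) else 0) else 0) =
      if j = p then (F p : ℤ) else 0 := fun p => by split_ifs <;> first | rfl | omega
  simp only [this, sum_ite_eq, mem_range]

lemma Cg.cn (m c n : ℕ) : Cg m (cn c n) fun j => if j < n then c else 0 := by
  have : ones n = Ck.bld n fun _ => 1 := by
    rw [ones_eq, ← Ck.sumN_eq, ← funext pw_eq]
    rfl
  rw [Ck.cn, this]
  exact ((Cg.bld m n _).smul c).congr fun j _ => by split_ifs <;> simp

lemma Cg.mul (h1 : Cg n X f) (h2 : Cg n Z g) :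
    Cg n (Nat.mul X Z) fun j => ∑ i ∈ range (j + 1), f i * g (j - i) := by
  rw [Cg, Nat.mul_eq, Nat.cast_mul]
  refine (Int.ModEq.mul h1 h2).trans ?_
  have e : ev Y n (fun j => ∑ i ∈ range (j + 1), f i * g (j - i)) =
      ∑ i ∈ range n, f i * (Y : ℤ) ^ i * ev Y (n - i) g := by
    simp only [ev, mul_sum, sum_mul]
    rw [← sum_range_diag_flip n fun i k => f i * (Y : ℤ) ^ i * (g k * (Y : ℤ) ^ k)]
    refine sum_congr rfl fun j _ => sum_congr rfl fun i hi => ?_
    have : j = i + (j - i) := by have := mem_range.1 hi; omega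
    conv_lhs => rw [this, pow_add, ← this]
    ring
  rw [e, ev, sum_mul]
  refine Int.ModEq.sum fun i hi => ?_
  have := Int.ModEq.mul_left' (c := (Y : ℤ) ^ i) (ev_mono g (Nat.sub_le n i))
  rw [← pow_add, Nat.add_sub_cancel' (mem_range.1 hi).le] at this
  rw [mul_assoc, mul_assoc]
  exact this.mul_left _

lemma Cg.mac {V NV a : ℕ} (o d : ℕ) (h1 : Cg n V f) (h2 : Cg n NV fun j => -f j) (h3 : Cg n a g) :
    Cg n (mac o d V NV a) fun j => g j + ((d : ℤ) - o) * f j := by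
  unfold Ck.mac
  simp only [Nat.sub_eq]
  rcases e1 : d - o with _ | x
  · rcases e2 : o - d with _ | z
    · exact h3.congr fun j _ => by rw [show d = o by omega]; simp
    · exact (h3.add (h2.smul (z + 1))).congr fun j _ => by
        rw [show o = d + (z + 1) by omega]; push_cast; ring
  · exact (h3.add (h1.smul (x + 1))).congr fun j _ => by
      rw [show d = o + (x + 1) by omega]; push_cast; ring

lemma dg_ext (X j : ℕ) {f : ℕ → ℕ} (h : Cg (j + 1) X fun i => f i) (hf : ∀ i, f i < Y) :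
    dg X j = f j := by
  exact_mod_cast h.dg_eq (fun i _ => ⟨by positivity, by exact_mod_cast hf i⟩) j (by omega)

lemma dg_cn {c : ℕ} (hc : c < Y) (n j : ℕ) : dg (cn c n) j = if j < n then c else 0 :=
  dg_ext _ j (f := fun j => if j < n then c else 0) ((Cg.cn _ c n).congr fun _ _ => by simp)
    fun i => by split_ifs; exacts [hc, Y_pos]

lemma dg_tr (n X j : ℕ) : dg (tr n X) j = if j < n then dg X j else 0 := by
  split_ifs with h
  · exact dg_ext _ j ((Cg.dg _ X).tr h) (dg_lt X)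
  · rw [dg_eq, Nat.div_eq_of_lt ((tr_lt n X).trans_le (Nat.pow_le_pow_right Y_pos (by omega))),
      Nat.zero_mod]

lemma dg_sl (k X j : ℕ) : dg (sl k X) j = if k ≤ j then dg X (j - k) else 0 :=
  dg_ext _ j (f := fun j => if k ≤ j then dg X (j - k) else 0)
    (((Cg.dg _ X).sl k).congr fun _ _ => by simp) fun i => by
      split_ifs; exacts [dg_lt _ _, Y_pos]

lemma dg_big (h : X < Y ^ n) {j : ℕ} (hj : n ≤ j) : dg X j = 0 := by
  rw [dg_eq, Nat.div_eq_of_lt (h.trans_le (Nat.pow_le_pow_right Y_pos hj)), Nat.zero_mod]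

lemma dg_cat (h : X < Y ^ n) (Z j : ℕ) :
    dg (Nat.add X (sl n Z)) j = if j < n then dg X j else dg Z (j - n) :=
  dg_ext _ j (f := fun j => if j < n then dg X j else dg Z (j - n))
    (((Cg.dg _ X).add ((Cg.dg _ Z).sl n)).congr fun i _ => by
      by_cases hi : i < n
      · simp [hi]
      · simp [hi, not_lt.1 hi, dg_big h (not_lt.1 hi)]) fun i => by
      split_ifs <;> exact dg_lt _ _

lemma dg_land (X Z j : ℕ) : dg (Nat.land X Z) j = Nat.land (dg X j) (dg Z j) := by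
  rw [dg_eq, dg_eq, dg_eq, ← Y_pow]
  exact (congrArg (· % Y) Nat.and_div_two_pow).trans Nat.and_mod_two_pow

lemma m2_lt {w : ℕ} (hw : w ≤ 336) : m2 w < Y :=
  (Nat.sub_lt (Nat.two_pow_pos w) one_pos).trans_le (Nat.pow_le_pow_right two_pos hw)

lemma dg_fld {w : ℕ} (hw : w ≤ 336) (n X j : ℕ) :
    dg (fld n w X) j = if j < n then dg X j % 2 ^ w else 0 := by
  rw [fld, dg_land, dg_cn (m2_lt hw)]
  split_ifs
  · exact land_m2 _ _
  · exact Nat.and_zero _

lemma dg_shift {w e : ℕ} (h : e + w ≤ 336) (X j : ℕ) :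
    dg (Nat.shiftRight X e) j % 2 ^ w = dg X j / 2 ^ e % 2 ^ w := by
  rw [dg_eq, dg_eq, ← Y_pow, Y, Nat.shiftRight_eq, Nat.shiftRight_eq_div_pow]
  refine Nat.eq_of_testBit_eq fun i => ?_
  simp only [Nat.testBit_mod_two_pow, Nat.testBit_div_two_pow]
  by_cases hi : i < w
  · rw [show i + 336 * j + e = i + e + 336 * j by ring]
    simp [hi, show i < 336 by omega, show i + e < 336 by omega]
  · simp [hi]

lemma nn_spec (h : nn n X = true) {j : ℕ} (hj : j < n) : dg X j < 2 ^ 334 := by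
  have h1 : dg (Nat.land X (cn (Nat.mul 3 OO) n)) j = 0 := by
    rw [Nat.eq_of_beq_eq_true h, dg_eq]; simp
  rw [dg_land, dg_cn (by decide), if_pos hj] at h1
  have h2 := congrArg (· / 2 ^ 334) h1
  have h3 : Nat.mul 3 OO / 2 ^ 334 = 2 ^ 2 - 1 := by decide
  simp only [Nat.land_eq, Nat.and_div_two_pow, h3, Nat.and_two_pow_sub_one_eq_mod] at h2
  have h4 : dg X j < 4 * 2 ^ 334 := by exact_mod_cast Y_OO ▸ (Nat.cast_lt (α := ℤ)).2 (dg_lt X j)
  generalize 2 ^ 334 = K at *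
  have h5 : dg X j / K < 4 := Nat.div_lt_of_lt_mul (by omega)
  rw [Nat.zero_div] at h2
  have h6 : dg X j / K = 0 := by rwa [Nat.mod_eq_of_lt h5] at h2
  rcases Nat.div_eq_zero_iff.1 h6 with h7 | h7 <;> omega

end Pool.Agent.Lib.MP_834949_an.Ck
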