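import Pool.Agent.Lib.MP_834949_an.B.Pk1

/-!
Packed numbers with bounds on the digits; sub-digits.
-/

set_option exponentiation.threshold 1100

namespace Pool.Agent.Lib.MP_834949_an.Ck

open Finset

/-- Signed digits with a bound. -/
def Rp (n X : ℕ) (f : ℕ → ℤ) (b : ℕ) : Prop := Cg n X f ∧ ∀ j < n, |f j| ≤ 2 ^ b

variable {n m X Z a b : ℕ} {f g : ℕ → ℤ}

lemma pw_le (h : a ≤ b) : (2 : ℤ) ^ a ≤ 2 ^ b := pow_le_pow_right₀ one_le_two h

lemma Rp.le (h : Rp n X f a) (hb : a ≤ b) : Rp n X f b :=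
  ⟨h.1, fun j hj => (h.2 j hj).trans (pw_le hb)⟩

lemma Rp.mono (h : Rp n X f a) (hm : m ≤ n) : Rp m X f a :=
  ⟨h.1.mono hm, fun j hj => h.2 j (by omega)⟩

lemma Rp.congr (h : Rp n X f a) (e : ∀ j < n, f j = g j) : Rp n X g a :=
  ⟨h.1.congr e, fun j hj => e j hj ▸ h.2 j hj⟩

lemma bd_add {x y : ℤ} (h1 : |x| ≤ 2 ^ a) (h2 : |y| ≤ 2 ^ b) : |x + y| ≤ 2 ^ (max a b + 1) := by
  have := pw_le (le_max_left a b)
  have := pw_le (le_max_right a b)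
  have := abs_add_le x y
  rw [pow_succ]
  linarith

lemma bd_mul {x y : ℤ} (h1 : |x| ≤ 2 ^ a) (h2 : |y| ≤ 2 ^ b) : |x * y| ≤ 2 ^ (a + b) := by
  rw [abs_mul, pow_add]
  exact mul_le_mul h1 h2 (abs_nonneg _) (by positivity)

lemma bd_nat {c : ℕ} (h : c ≤ 2 ^ a) : |(c : ℤ)| ≤ 2 ^ a := by
  rw [Nat.abs_cast]; exact_mod_cast h

lemma bd_sum {c : ℕ} {F : ℕ → ℤ} (hc : c ≤ 2 ^ a) (h : ∀ p < c, |F p| ≤ 2 ^ b) :
    |∑ p ∈ range c, F p| ≤ 2 ^ (a + b) := by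
  refine (abs_sum_le_sum_abs _ _).trans ((sum_le_card_nsmul _ _ _ fun p hp =>
    h p (mem_range.1 hp)).trans ?_)
  rw [card_range, nsmul_eq_mul, pow_add]
  exact mul_le_mul_of_nonneg_right (by exact_mod_cast hc) (by positivity)

lemma bd_ite {x : ℤ} {p : Prop} [Decidable p] (h : p → |x| ≤ 2 ^ a) :
    |if p then x else 0| ≤ 2 ^ a := by
  split_ifs with hp
  · exact h hp
  · simp

lemma Rp.add (h1 : Rp n X f a) (h2 : Rp n Z g b) :
    Rp n (Nat.add X Z) (fun j => f j + g j) (max a b + 1) :=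
  ⟨h1.1.add h2.1, fun j hj => bd_add (h1.2 j hj) (h2.2 j hj)⟩

lemma Rp.smul {c : ℕ} (hc : c ≤ 2 ^ a) (h : Rp n X f b) :
    Rp n (Nat.mul c X) (fun j => c * f j) (a + b) :=
  ⟨h.1.smul c, fun j hj => bd_mul (bd_nat hc) (h.2 j hj)⟩

lemma Rp.tr (h : Rp n X f a) (hm : n ≤ m) : Rp n (tr m X) f a := ⟨h.1.tr hm, h.2⟩

lemma Rp.ng (h : Rp n X f a) (hm : n ≤ m) : Rp n (ng m X) (fun j => -f j) a :=
  ⟨h.1.ng hm, fun j hj => by rw [abs_neg]; exact h.2 j hj⟩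

lemma Rp.sb (h1 : Rp n X f a) (h2 : Rp n Z g b) :
    Rp n (sb n X Z) (fun j => f j - g j) (max a b + 1) :=
  (h1.add (h2.ng le_rfl)).congr fun _ _ => (sub_eq_add_neg _ _).symm

lemma Rp.sl (k : ℕ) (h : Rp (m - k) X f a) :
    Rp m (sl k X) (fun j => if k ≤ j then f (j - k) else 0) a :=
  ⟨h.1.sl k, fun _ hj => bd_ite fun _ => h.2 _ (by omega)⟩

lemma Rp.const (n : ℕ) {c : ℕ} (hc : c ≤ 2 ^ a) : Rp n c (fun j => if j = 0 then c else 0) a :=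
  ⟨Cg.const n c, fun _ _ => bd_ite fun _ => bd_nat hc⟩

lemma Rp.cn (m n : ℕ) {c : ℕ} (hc : c ≤ 2 ^ a) :
    Rp m (cn c n) (fun j => if j < n then c else 0) a :=
  ⟨Cg.cn m c n, fun _ _ => bd_ite fun _ => bd_nat hc⟩

lemma Rp.cn' (n : ℕ) {c : ℕ} (hc : c ≤ 2 ^ a) : Rp n (Ck.cn c n) (fun _ => c) a :=
  (Rp.cn n n hc).congr fun _ hj => if_pos hj

lemma Rp.sumN {c : ℕ} {F : ℕ → ℕ} {f : ℕ → ℕ → ℤ} (hc : c ≤ 2 ^ a)
    (h : ∀ p < c, Rp n (F p) (f p) b) : Rp n (sumN c F) (fun j => ∑ p ∈ range c, f p j) (a + b) :=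
  ⟨Cg.sumN fun p hp => (h p hp).1, fun j hj => bd_sum hc fun p hp => (h p hp).2 j hj⟩

lemma Rp.mul (hn : n ≤ 2 ^ m) (h1 : Rp n X f a) (h2 : Rp n Z g b) :
    Rp n (Nat.mul X Z) (fun j => ∑ i ∈ range (j + 1), f i * g (j - i)) (m + (a + b)) :=
  ⟨h1.1.mul h2.1, fun j hj => bd_sum (by omega) fun i hi =>
    bd_mul (h1.2 i (by omega)) (h2.2 _ (by omega))⟩

lemma Rp.nonneg (h : Rp n X f a) (ha : a ≤ 334) (hn : nn n X = true) : ∀ j < n, 0 ≤ f j := by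
  intro j hj
  rw [← h.1.dg_of (fun i hi => ?_) j hj]
  · positivity
  · have h1 := abs_le.1 ((h.2 i hi).trans (pw_le ha))
    have h2 : (dg X i : ℤ) < 2 ^ 334 := by exact_mod_cast nn_spec hn hi
    have h3 : (0 : ℤ) ≤ dg X i := by positivity
    rw [Y_OO, abs_lt]
    constructor <;> linarith [h1.1, h1.2]

lemma Rp.dg_eq (h : Rp n X f a) (ha : a ≤ 335) (h0 : ∀ j < n, 0 ≤ f j) :
    ∀ j < n, (dg X j : ℤ) = f j :=
  h.1.dg_eq fun j hj => ⟨h0 j hj, by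
    have := (abs_le.1 ((h.2 j hj).trans (pw_le ha))).2
    rw [Y_OO]
    norm_num at this ⊢
    linarith⟩

lemma Rp.nm (h : Rp n X f a) (ha : a ≤ 334) : ∀ j < n, (dg (nm n X) j : ℤ) = f j + OO :=
  ((((h.le ha).add (Rp.cn' n (a := 334) OO_eq.le)).tr le_rfl).dg_eq (by norm_num)) fun j hj => by
    have := (abs_le.1 ((h.le ha).2 j hj)).1
    rw [OO_eq]
    push_cast at this ⊢
    linarith

lemma Rp.cut (h : Rp n X f a) (ha : a ≤ 335) (h0 : ∀ j < n, 0 ≤ f j) (m : ℕ) :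
    Rp m (Ck.tr n X) (fun j => if j < n then f j else 0) a :=
  ⟨(Cg.dg m _).congr fun j _ => by
    rw [dg_tr]
    split_ifs with hj
    exacts [h.dg_eq ha h0 j hj, rfl], fun j _ => bd_ite (h.2 j)⟩

/-- All digits are below `2 ^ w`. -/
def Bd (w X : ℕ) : Prop := ∀ j, dg X j < 2 ^ w

variable {w : ℕ}

lemma Bd.rp (h : Bd w X) (m : ℕ) : Rp m X (fun j => dg X j) w :=
  ⟨Cg.dg m X, fun j _ => bd_nat (h j).le⟩

lemma Bd.sr (h : Bd w X) (k : ℕ) : Bd w (sr k X) := fun j => dg_sr k X j ▸ h _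

lemma Bd.tr (h : Bd w X) (k : ℕ) : Bd w (tr k X) := fun j => by
  rw [dg_tr]; split_ifs; exacts [h _, by positivity]

lemma Bd.sl (h : Bd w X) (k : ℕ) : Bd w (sl k X) := fun j => by
  rw [dg_sl]; split_ifs; exacts [h _, by positivity]

lemma Bd.fld (hw : w ≤ 336) (n X : ℕ) : Bd w (fld n w X) := fun j => by
  rw [dg_fld hw]; split_ifs; exacts [Nat.mod_lt _ (by positivity), by positivity]

lemma Bd.cn {c : ℕ} (hw : w ≤ 336) (hc : c < 2 ^ w) (n : ℕ) : Bd w (cn c n) := fun j => by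
  rw [dg_cn (hc.trans_le (Nat.pow_le_pow_right two_pos hw))]
  split_ifs; exacts [hc, by positivity]

lemma fld_lt (hw : w ≤ 336) (n X : ℕ) : fld n w X < Y ^ n := by
  refine Nat.and_le_right.trans_lt ?_
  have h1 : m2 w ≤ MM := by have := m2_lt hw; have := MM_eq; omega
  refine (Nat.mul_le_mul_right _ h1).trans_lt ?_
  have : MM * ones n ≤ pw n := Nat.mul_div_le _ _
  rw [pw_eq] at this
  refine this.lt_of_ne fun e => ?_
  have h2 : Nat.Coprime MM (Y ^ n) := Nat.Coprime.pow_right _ (by rw [← MM_eq]; simp)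
  exact absurd (h2.eq_one_of_dvd ⟨_, e.symm⟩) (by decide)

lemma dsum_eq (hX : X < Y ^ n) (h : Bd w X) (hn : n ≤ 2 ^ 10) (hw : w ≤ 320) :
    dsum X = ∑ j ∈ range n, dg X j := by
  have h1 : ∑ j ∈ range n, dg X j ≤ 2 ^ 10 * 2 ^ 320 :=
    (sum_le_card_nsmul _ _ _ fun j _ => (h j).le.trans (Nat.pow_le_pow_right two_pos hw)).trans
      (by rw [card_range]; exact Nat.mul_le_mul_right _ hn)
  have h2 : X ≡ ∑ j ∈ range n, dg X j [MOD MM] := by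
    conv_lhs => rw [← Nat.mod_eq_of_lt hX, mod_digits]
    refine Nat.ModEq.sum fun j _ => ?_
    rw [← dg_eq]
    have : Y ≡ 1 [MOD MM] := by rw [← MM_eq]; simp [Nat.ModEq]
    simpa using (this.pow j).mul_left (dg X j)
  exact Eq.trans h2 (Nat.mod_eq_of_lt (h1.trans_lt (show _ < MM by decide)))

lemma pos_eq (n w X : ℕ) : ∃ Z, pos n w X = fld n w Z := ⟨_, force_eq _ _⟩

lemma Bd.pos (hw : w ≤ 336) (n X : ℕ) : Bd w (pos n w X) := by
  obtain ⟨Z, h⟩ := pos_eq n w X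
  exact h ▸ Bd.fld hw n Z

lemma pos_lt (hw : w ≤ 336) (n X : ℕ) : pos n w X < Y ^ n := by
  obtain ⟨Z, h⟩ := pos_eq n w X
  exact h ▸ fld_lt hw n Z

section slots

/-- Three coefficients placed at the exponents `0, 1, 3`. -/
def pol {R : Type} [CommRing R] (t : R) (x : ℕ → R) : R := x 0 + x 1 * t + x 2 * t ^ 3

/-- Coefficients of a product of two such polynomials. -/
def sl2 {R : Type} [CommRing R] (x y : ℕ → R) : ℕ → R
  | 0 => x 0 * y 0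
  | 1 => x 0 * y 1 + x 1 * y 0
  | 2 => x 1 * y 1
  | 3 => x 0 * y 2 + x 2 * y 0
  | 4 => x 1 * y 2 + x 2 * y 1
  | 6 => x 2 * y 2
  | _ => 0

lemma pol_mul (t : ℤ) (x y : ℕ → ℤ) : pol t x * pol t y = ev t 7 (sl2 x y) := by
  simp only [ev, sum_range_succ, sum_range_zero, pol, sl2]; ring

lemma sl2_bd {x y : ℕ → ℤ} (hx : ∀ i, |x i| ≤ 2 ^ a) (hy : ∀ i, |y i| ≤ 2 ^ b) (s : ℕ) :
    |sl2 x y s| ≤ 2 ^ (a + b + 1) := by
  have h1 := fun i j => bd_mul (hx i) (hy j)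
  have h2 := fun i j => (h1 i j).trans (pw_le (Nat.le_succ _))
  have h3 := fun i j k l => bd_add (h1 i j) (h1 k l)
  simp only [max_self] at h3
  unfold sl2
  split <;> first | exact h2 _ _ | exact h3 _ _ _ _ | simp

/-- The base of the sub-digits. -/
def tt : ℤ := 2 ^ 48

lemma dg_slot {s : ℕ} (hs : s < 7) (n Z e : ℕ) :
    dg (slot n s Z) e = if e < n then dg Z e / (2 ^ 48) ^ s % 2 ^ 48 else 0 := by
  rw [slot, dg_fld (by norm_num), dg_shift (by simp only [Nat.mul_eq]; omega), ← pow_mul]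
  rfl

lemma off_digit {G : ℕ → ℕ → ℤ} (h : Cg n X fun e => ev tt 7 (G e))
    (hG : ∀ e < n, ∀ s < 7, |G e s| < 2 ^ 47) {e s : ℕ} (he : e < n) (hs : s < 7) :
    ((dg (Nat.add X (cn o7 n)) e / (2 ^ 48) ^ s % 2 ^ 48 : ℕ) : ℤ) = G e s + 2 ^ 47 := by
  have e7 : ∀ e, ev tt 7 (G e) + (o7 : ℕ) = ev tt 7 fun s => G e s + 2 ^ 47 := fun e => by
    have : ((o7 : ℕ) : ℤ) = ev tt 7 fun _ => 2 ^ 47 := by decide +kernel
    simp only [this, ev, add_mul, sum_add_distrib]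
  have h1 := ((h.add (Cg.cn n o7 n)).congr (g := fun e => ev tt 7 fun s => G e s + 2 ^ 47)
    fun e he => by rw [if_pos he, e7]).dg_eq (fun e he => ?_) e he
  · refine digit_eq (b := 2 ^ 48) (n := 7) (f := fun s => G e s + 2 ^ 47) (by norm_num)
      (by rw [h1]; rfl) (fun s hs => ?_) s hs
    have h2 := abs_lt.1 (hG e he s hs)
    have h3 := Nat.mod_lt (dg (Nat.add X (cn o7 n)) e / (2 ^ 48) ^ s) (Nat.two_pow_pos 48)
    rw [abs_lt]
    constructor <;> omega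
  · have h2 := fun s hs => abs_lt.1 (hG e he s hs)
    refine ⟨sum_nonneg fun s hs => mul_nonneg (by linarith [(h2 s (mem_range.1 hs)).1])
      (by unfold tt; positivity), lt_of_le_of_lt (b := ev tt 7 fun _ => 2 ^ 48 - 1)
      (sum_le_sum fun s hs => mul_le_mul_of_nonneg_right
        (by linarith [(h2 s (mem_range.1 hs)).2]) (by unfold tt; positivity))
      (by decide +kernel)⟩

lemma land_u3 {c : ℕ} (hc : c < 2 ^ 48) (z : ℕ) :
    ∃ x : ℕ → ℕ, (∀ i, x i ≤ c) ∧ (Nat.land z (Nat.mul c u3) : ℤ) = pol tt fun i => x i := by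
  have hu : Nat.mul c u3 = c + 2 ^ 48 * (c + 2 ^ 48 * (2 ^ 48 * c)) := by
    show c * (1 + 2 ^ 48 + 2 ^ 144) = _
    ring
  have key : ∀ z c r : ℕ, c < 2 ^ 48 → z &&& (c + 2 ^ 48 * r) =
      (z % 2 ^ 48 &&& c) + 2 ^ 48 * (z / 2 ^ 48 &&& r) := fun z c r hc => by
    conv_lhs => rw [← Nat.mod_add_div (z &&& (c + 2 ^ 48 * r)) (2 ^ 48)]
    rw [Nat.and_mod_two_pow, Nat.and_div_two_pow, Nat.add_mul_mod_self_left, Nat.mod_eq_of_lt hc,
      Nat.add_mul_div_left _ _ (Nat.two_pow_pos 48), Nat.div_eq_of_lt hc, zero_add]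
  refine ⟨fun i => if i = 0 then z % 2 ^ 48 &&& c else if i = 1 then z / 2 ^ 48 % 2 ^ 48 &&& c
    else z / 2 ^ 48 / 2 ^ 48 / 2 ^ 48 &&& c, fun i => ?_, ?_⟩
  · dsimp only
    split_ifs <;> exact Nat.and_le_right
  · rw [hu, Nat.land_eq, key _ _ _ hc, key _ _ _ hc, ← zero_add (2 ^ 48 * c),
      key _ _ _ (Nat.two_pow_pos 48)]
    simp [pol, tt]
    ring

lemma land_off {c : ℕ} (hc : c + 1 < 48) (z : ℕ) : ∃ x : ℕ → ℤ, (∀ i, |x i| ≤ 2 ^ c) ∧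
    (Nat.land z (Nat.mul (2 ^ (c + 1) - 1) u3) : ℤ) - Nat.mul (2 ^ c) u3 = pol tt x := by
  obtain ⟨x, h1, h2⟩ := land_u3 (c := 2 ^ (c + 1) - 1)
    ((Nat.sub_le _ _).trans_lt (Nat.pow_lt_pow_right one_lt_two hc)) z
  refine ⟨fun i => x i - 2 ^ c, fun i => ?_, ?_⟩
  · have h3 : (x i : ℤ) ≤ 2 ^ (c + 1) := by exact_mod_cast (h1 i).trans (Nat.sub_le _ _)
    have h4 : (0 : ℤ) ≤ x i := by positivity
    rw [pow_succ] at h3
    rw [abs_le]
    constructor <;> linarith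
  · have : ((u3 : ℕ) : ℤ) = 1 + tt + tt ^ 3 := by decide +kernel
    rw [h2, Nat.mul_eq, Nat.cast_mul, this]
    simp only [pol]
    push_cast
    ring

lemma atom3 (z : ℕ) : ∃ x : ℕ → ℤ, (∀ i, |x i| ≤ 2 ^ 15) ∧
    (Nat.sub (Nat.land z m3) o3 : ℤ) = pol tt x := by
  rcases le_total o3 (Nat.land z m3) with h | h
  · rw [Nat.sub_eq, Nat.cast_sub h]
    exact land_off (c := 15) (by norm_num) z
  · exact ⟨fun _ => 0, by simp, by rw [Nat.sub_eq, Nat.sub_eq_zero_of_le h]; simp [pol]⟩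

lemma atom9 (z : ℕ) : ∃ x : ℕ → ℕ → ℤ, (∀ w i, |x w i| ≤ 2 ^ 15) ∧
    (Nat.sub (Nat.land z m9) o9 : ℤ) = pol (Y : ℤ) fun w => pol tt (x w) := by
  rcases le_total o9 (Nat.land z m9) with h | h
  · choose x h1 h2 using fun j => land_off (c := 15) (by norm_num) (dg z j)
    refine ⟨fun w => x (if w = 2 then 3 else w), fun w i => h1 _ i, ?_⟩
    have h3 : Nat.land z m9 < Y ^ 4 := Nat.and_le_right.trans_lt (by decide +kernel)
    have h4 : dg m9 0 = m3 ∧ dg m9 1 = m3 ∧ dg m9 2 = 0 ∧ dg m9 3 = m3 := by decide +kernel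
    have h5 : ((o9 : ℕ) : ℤ) = o3 * (1 + Y + Y ^ 3) := by decide +kernel
    rw [Nat.sub_eq, Nat.cast_sub h, ← Nat.mod_eq_of_lt h3, mod_digits, h5]
    simp only [← dg_eq, dg_land, sum_range_succ, sum_range_zero, h4, pol.eq_1 (Y : ℤ), ← h2]
    have e1 : Nat.mul (2 ^ (15 + 1) - 1) u3 = m3 := rfl
    have e2 : Nat.mul (2 ^ 15) u3 = o3 := rfl
    simp only [e1, e2, Nat.land_eq, Nat.and_zero]
    push_cast
    ring
  · exact ⟨fun _ _ => 0, by simp, by rw [Nat.sub_eq, Nat.sub_eq_zero_of_le h]; simp [pol]⟩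

end slots

end Pool.Agent.Lib.MP_834949_an.Ck
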