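import Pool.Agent.Lib.MP_834949_an.B.Pk2

/-!
Packed vectors as linear forms.
-/

set_option exponentiation.threshold 1100

namespace Pool.Agent.Lib.MP_834949_an.Ck

open Finset

lemma Tb.dims (B : Tb) : B.h2 = 2 * B.h ∧ B.h3 = 3 * B.h ∧ B.h4 = 4 * B.h ∧ B.h6 = 6 * B.h ∧
    B.q2 = 2 * B.q ∧ B.na = 2 * B.h + 1 ∧ B.nb = 4 * B.h + 1 ∧ B.oa = 4 * B.h + 2 ∧
    B.oc = 6 * B.h + 3 ∧ B.D = 8 * B.h + 4 ∧ B.og = 12 * B.h + 5 ∧ B.P = 12 * B.h := by
  simp only [Tb.h2, Tb.h3, Tb.h4, Tb.h6, Tb.q2, Tb.na, Tb.nb, Tb.oa, Tb.oc, Tb.D, Tb.og, Tb.P,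
    Nat.add_eq, Nat.mul_eq, Nat.succ_eq_add_one, true_and, and_true]
  omega

/-- The linear form with integer coefficients `f`. -/
noncomputable def dot (D : ℕ) (v : ℕ → ℝ) (f : ℕ → ℤ) : ℝ := ∑ a ∈ range D, (f a : ℝ) * v a

/-- `X` represents a linear form with coefficients at most `2 ^ b` and value `x`. -/
def HV (D : ℕ) (v : ℕ → ℝ) (X b : ℕ) (x : ℝ) : Prop := ∃ f, Rp D X f b ∧ dot D v f = x

variable {D X Z a b : ℕ} {v : ℕ → ℝ} {x y : ℝ} {f g : ℕ → ℤ}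

lemma HV.le (h : HV D v X a x) (hb : a ≤ b) : HV D v X b x :=
  let ⟨f, h1, h2⟩ := h; ⟨f, h1.le hb, h2⟩

lemma HV.eq (h : HV D v X a x) (hb : a ≤ b) (e : x = y) : HV D v X b y := e ▸ h.le hb

lemma HV.add (h1 : HV D v X a x) (h2 : HV D v Z b y) :
    HV D v (Nat.add X Z) (max a b + 1) (x + y) := by
  obtain ⟨f, h1, rfl⟩ := h1
  obtain ⟨g, h2, rfl⟩ := h2
  exact ⟨_, h1.add h2, by simp [dot, add_mul, sum_add_distrib]⟩

lemma HV.smul {c : ℕ} (hc : c ≤ 2 ^ a) (h : HV D v X b x) :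
    HV D v (Nat.mul c X) (a + b) (c * x) := by
  obtain ⟨f, h, rfl⟩ := h
  exact ⟨_, h.smul hc, by simp [dot, mul_sum, mul_assoc]⟩

lemma HV.ng (h : HV D v X a x) : HV D v (ng D X) a (-x) := by
  obtain ⟨f, h, rfl⟩ := h
  exact ⟨_, h.ng le_rfl, by simp [dot]⟩

lemma HV.sb (h1 : HV D v X a x) (h2 : HV D v Z b y) :
    HV D v (sb D X Z) (max a b + 1) (x - y) :=
  (h1.add h2.ng).eq le_rfl (sub_eq_add_neg _ _).symm

lemma HV.tr (h : HV D v X a x) : HV D v (tr D X) a x :=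
  let ⟨f, h1, h2⟩ := h; ⟨f, h1.tr le_rfl, h2⟩

lemma HV.const (hD : 0 < D) {c : ℕ} (hc : c ≤ 2 ^ a) : HV D v c a (c * v 0) :=
  ⟨_, Rp.const D hc, by simp [dot, hD]⟩

lemma HV.zero : HV D v 0 a 0 :=
  ⟨fun _ => 0, ⟨Cg.zero D, fun _ _ => by simp⟩, by simp [dot]⟩

lemma HV.sumN {c : ℕ} {F : ℕ → ℕ} {x : ℕ → ℝ} (hc : c ≤ 2 ^ a)
    (h : ∀ p < c, HV D v (F p) b (x p)) : HV D v (sumN c F) (a + b) (∑ p ∈ range c, x p) := by
  choose! f h1 h2 using h
  refine ⟨_, Rp.sumN hc h1, ?_⟩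
  simp only [dot, Int.cast_sum, sum_mul]
  rw [sum_comm]
  exact sum_congr rfl fun p hp => h2 p (mem_range.1 hp)

lemma sum_put {k n : ℕ} (hk : k + n ≤ D) (F : ℕ → ℕ → ℝ) :
    ∑ a ∈ range D, (if k ≤ a then (if a - k < n then F (a - k) a else 0) else 0) =
      ∑ i ∈ range n, F i (k + i) := by
  obtain ⟨r, rfl⟩ := Nat.exists_eq_add_of_le hk
  rw [sum_range_add, sum_range_add, sum_eq_zero fun a ha => if_neg (by
    have := mem_range.1 ha; omega), sum_eq_zero (s := range r) fun a _ => by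
      rw [if_pos (by omega), if_neg (by omega)], zero_add, add_zero]
  exact sum_congr rfl fun i hi => by
    rw [if_pos (by omega), Nat.add_sub_cancel_left, if_pos (mem_range.1 hi)]

lemma HV.put {k n : ℕ} (hk : k + n ≤ D) (h : Rp n X f a) (ha : a ≤ 335) (h0 : ∀ j < n, 0 ≤ f j) :
    HV D v (sl k (Ck.tr n X)) a (∑ i ∈ range n, f i * v (k + i)) := by
  refine ⟨_, (h.cut ha h0 _).sl k, ?_⟩
  rw [← sum_put hk fun i a => f i * v a]
  exact sum_congr rfl fun a _ => by dsimp only; split_ifs <;> simp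

lemma Bd.put {k n w : ℕ} (hk : k + n ≤ D) (h : Bd w X) (hw : w ≤ 335) :
    HV D v (Ck.sl k (Ck.tr n X)) w (∑ i ∈ range n, dg X i * v (k + i)) :=
  (HV.put hk (h.rp n) hw fun _ _ => by positivity).eq le_rfl (by simp)

lemma HV.macs {c o S X0 : ℕ} {V NV : ℕ → ℕ} {w : ℕ → ℝ} {k e : ℕ} (h0 : HV D v X0 (a + b) x)
    (hN : ∀ i, NV i = Ck.ng D (V i)) (hV : ∀ i < c, HV D v (V i) b (w i))
    (hS : ∀ i < c, |(dg S i : ℤ) - o| ≤ 2 ^ a) (hc : c + 1 ≤ 2 ^ k) (he : k + (a + b) ≤ e) :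
    HV D v (Nat.rec X0 (fun i ih => mac o (dg S i) (V i) (NV i) ih) c) e
      (x + ∑ i ∈ range c, ((dg S i : ℝ) - o) * w i) := by
  obtain ⟨f, h1, rfl⟩ := h0
  choose! g h2 h3 using hV
  have key : ∀ c' ≤ c, Cg D (Nat.rec X0 (fun i ih => mac o (dg S i) (V i) (NV i) ih) c')
      fun j => f j + ∑ i ∈ range c', ((dg S i : ℤ) - o) * g i j := by
    intro c' hc'
    induction c' with
    | zero => exact h1.1.congr fun _ _ => by simp
    | succ c' ih =>
      exact (Cg.mac o _ (h2 c' hc').1 (hN c' ▸ (h2 c' hc').1.ng le_rfl) (ih (by omega))).congr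
        fun j _ => by rw [sum_range_succ, add_assoc]
  refine ⟨_, ⟨key c le_rfl, fun j hj => le_trans ?_ (pw_le he)⟩, ?_⟩
  · have := bd_sum (F := fun i => Nat.rec (f j) (fun i _ => ((dg S i : ℤ) - o) * g i j) i) hc
      (b := a + b) fun i hi => by
        cases i with
        | zero => exact h1.2 j hj
        | succ i => exact bd_mul (hS i (by omega)) ((h2 i (by omega)).2 j hj)
    rwa [sum_range_succ', add_comm] at this
  · simp only [dot, Int.cast_add, add_mul, sum_add_distrib, Int.cast_sum, sum_mul]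
    rw [sum_comm]
    congr 1
    refine sum_congr rfl fun i hi => ?_
    rw [← h3 i (mem_range.1 hi), dot, mul_sum]
    exact sum_congr rfl fun j _ => by push_cast; ring

namespace Tb

variable {B : Tb}

lemma W_b {k : ℕ} (hk : k < B.nb) : B.W (k + 1) = if k = 0 ∨ k = B.h4 then 1 else 2 := by
  have := B.dims
  have h1 : Nat.ble B.oa (k + 1) = false := by rw [← Bool.not_eq_true, Nat.ble_eq]; omega
  have h2 : ∀ a b : ℕ, Nat.beq a b = decide (a = b) := fun a b => by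
    rw [Bool.eq_iff_iff]; simp
  rw [W, h1, h2, h2]
  by_cases h3 : k = 0
  · simp [h3]
  · by_cases h4 : k = B.h4
    · simp [show k + 1 = B.nb by omega, ← h4]
    · simp [h3, h4, show k + 1 ≠ B.nb by omega]

lemma W_le (hq : B.q ≤ 512) (a : ℕ) : B.W a ≤ 2 ^ 10 := by
  have := B.dims
  unfold W
  cases Nat.ble B.oa a <;> cases Nat.beq a 1 <;> cases Nat.beq a B.nb <;> simp <;> omega

lemma wsum_eq {w : ℕ} (h1 : 1 ≤ B.h) (h2 : B.h ≤ 37) (hX : X < Y ^ B.nb) (h : Bd w X)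
    (hw : w ≤ 320) : B.wsum X = ∑ k ∈ range B.nb, B.W (k + 1) * dg X k := by
  have := B.dims
  have e : ∑ k ∈ range B.nb, B.W (k + 1) * dg X k + dg X B.h4 + dg X 0 =
      2 * ∑ k ∈ range B.nb, dg X k := by
    have e1 : ∀ c < B.nb, dg X c = ∑ k ∈ range B.nb, if k = c then dg X k else 0 := fun c hc => by
      simp [hc]
    rw [e1 B.h4 (by omega), e1 0 (by omega), mul_sum, ← sum_add_distrib, ← sum_add_distrib]
    refine sum_congr rfl fun k hk => ?_
    rw [W_b (mem_range.1 hk)]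
    split_ifs <;> omega
  rw [wsum, esum, dsum_eq hX h (by omega) hw]
  simp only [Nat.sub_eq, Nat.mul_eq]
  omega

lemma sum_W (h1 : 1 ≤ B.h) : ∑ k ∈ range B.nb, B.W (k + 1) = 2 * B.h4 := by
  have := B.dims
  have e1 : ∀ c < B.nb, 1 = ∑ k ∈ range B.nb, if k = c then 1 else 0 := fun c hc => by simp [hc]
  have e : ∑ k ∈ range B.nb, B.W (k + 1) + (∑ k ∈ range B.nb, if k = B.h4 then 1 else 0) +
      (∑ k ∈ range B.nb, if k = 0 then 1 else 0) = ∑ k ∈ range B.nb, 2 := by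
    rw [← sum_add_distrib, ← sum_add_distrib]
    refine sum_congr rfl fun k hk => ?_
    rw [W_b (mem_range.1 hk)]
    split_ifs <;> omega
  rw [← e1 _ (by omega), ← e1 _ (by omega), sum_const, card_range, smul_eq_mul] at e
  omega

lemma wsum_le {w : ℕ} (h1 : 1 ≤ B.h) (h2 : B.h ≤ 37) (hX : X < Y ^ B.nb) (h : Bd w X)
    (hw : w ≤ 320) : B.wsum X ≤ 2 ^ (9 + w) := by
  have := B.dims
  rw [wsum_eq h1 h2 hX h hw]
  refine (sum_le_card_nsmul _ _ (2 * 2 ^ w) fun k hk => Nat.mul_le_mul ?_ (h k).le).trans ?_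
  · rw [W_b (mem_range.1 hk)]; split_ifs <;> omega
  · rw [card_range, smul_eq_mul, pow_add, ← mul_assoc]
    exact Nat.mul_le_mul_right _ (by omega)

end Tb

/-- The values attached to the extended positions. -/
noncomputable def wE (B : Tb) (v w : ℕ → ℝ) (e : ℕ) : ℝ :=
  if e < B.D then 134217728 * v e
  else if e < B.og then 134217728 * (B.W (e - B.D + 1) * v 0 - v (1 + (e - B.D)))
  else w (e - B.og)

theorem Cf.ctr_spec (C : Cf) (h1 : 1 ≤ C.tb.h) (h2 : C.tb.h ≤ 37) {o c S : ℕ} {w : ℕ → ℝ}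
    (hV : ∀ i < c, HV C.tb.D v (C.vl i) 49 (w i)) (hS : Bd 48 S) (ho : o < 2 ^ 48) (hc : c ≤ 255) :
    HV C.tb.D v (C.ctr o c S) 106
      (∑ e ∈ range (C.tb.og + c), ((dg S e : ℝ) - o) * wE C.tb v w e) := by
  have hd := C.tb.dims
  have hD : 0 < C.tb.D := by omega
  have g1 : C.gpt S < Y ^ C.tb.nb := tr_lt _ _
  have g2 : Bd 48 (C.gpt S) := (hS.sr _).tr _
  have a1 : HV C.tb.D v S 48 (∑ a ∈ range C.tb.D, dg S a * v a) :=
    ⟨_, hS.rp _, by simp [dot]⟩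
  have a2 : HV C.tb.D v (sl 1 (cn o C.tb.nb)) 48 (∑ i ∈ range C.tb.nb, o * v (1 + i)) := by
    refine ⟨_, (Rp.cn _ _ ho.le).sl 1, ?_⟩
    rw [← sum_put (D := C.tb.D) (by omega) fun _ a => o * v a]
    exact sum_congr rfl fun a _ => by dsimp only; split_ifs <;> simp
  have a3 := HV.const (v := v) hD (Tb.wsum_le h1 h2 g1 g2 (by norm_num))
  have a4 : HV C.tb.D v (cn o C.tb.D) 48 (∑ a ∈ range C.tb.D, o * v a) :=
    ⟨_, Rp.cn' _ ho.le, by simp [dot]⟩
  have a5 : HV C.tb.D v (sl 1 (C.gpt S)) 48 _ :=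
    (hS.sr C.tb.D).put (k := 1) (n := C.tb.nb) (by omega) (by norm_num)
  have a6 := HV.const (v := v) (a := 57) hD (c := Nat.mul o (Nat.mul 2 C.tb.h4))
    ((Nat.mul_le_mul ho.le (show 2 * C.tb.h4 ≤ 2 ^ 9 by omega)).trans (by norm_num))
  have a7 := (((a1.add a2).add a3).sb ((a4.add a5).add a6)).smul (a := 27) (c := 134217728)
    (by norm_num)
  refine (HV.macs (a := 49) (k := 8) (S := sr C.tb.og S) (a7.le (by norm_num)) (fun _ => rfl) hV
    (fun i _ => (sub_eq_add_neg (dg _ i : ℤ) o) ▸ bd_add (bd_nat (hS.sr _ i).le)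
      (by rw [abs_neg]; exact bd_nat ho.le)) (by omega) le_rfl).eq le_rfl ?_
  have e1 : (Nat.mul o (Nat.mul 2 C.tb.h4) : ℝ) = ∑ k ∈ range C.tb.nb, C.tb.W (k + 1) * (o : ℝ) := by
    rw [← sum_mul, ← Nat.cast_sum, Tb.sum_W h1, ← Nat.cast_mul, mul_comm]
    rfl
  rw [e1, Tb.wsum_eq h1 h2 g1 g2 (by norm_num), show C.tb.og + c = C.tb.D + C.tb.nb + c from rfl,
    sum_range_add, sum_range_add]
  congr 1
  · push_cast
    simp only [sum_mul, mul_add, mul_sub, mul_sum]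
    rw [sum_congr rfl (s₂ := range C.tb.D) fun a ha =>
        show ((dg S a : ℝ) - o) * wE C.tb v w a =
          134217728 * (dg S a * v a) - 134217728 * (o * v a) by
          rw [wE, if_pos (mem_range.1 ha)]; ring,
      sum_congr rfl (s₂ := range C.tb.nb) fun k hk =>
        show ((dg S (C.tb.D + k) : ℝ) - o) * wE C.tb v w (C.tb.D + k) =
          134217728 * (o * v (1 + k)) + 134217728 * (C.tb.W (k + 1) * dg (C.gpt S) k * v 0) -
          (134217728 * (dg (sr C.tb.D S) k * v (1 + k)) +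
            134217728 * (C.tb.W (k + 1) * o * v 0)) by
          have := mem_range.1 hk
          rw [wE, if_neg (by omega), if_pos (by omega), Nat.add_sub_cancel_left, Cf.gpt, dg_tr,
            if_pos this, dg_sr]
          ring]
    simp only [sum_add_distrib, sum_sub_distrib]
    ring
  · refine sum_congr rfl fun i _ => ?_
    rw [dg_sr, wE, if_neg (by omega), if_neg (by omega)]
    congr 2
    omega

end Pool.Agent.Lib.MP_834949_an.Ck
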