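import Pool.Agent.Lib.MP_834949_an.B.Pk3

/-!
Products of positive semidefinite three by three matrices with squares.
-/

set_option exponentiation.threshold 1100

namespace Pool.Agent.Lib.MP_834949_an.Ck

open Finset

/-- The pattern of `sl2` for a general table of products. -/
def sl3 {R : Type} [CommRing R] (B : ℕ → ℕ → R) : ℕ → R
  | 0 => B 0 0
  | 1 => B 0 1 + B 1 0
  | 2 => B 1 1
  | 3 => B 0 2 + B 2 0
  | 4 => B 1 2 + B 2 1
  | 6 => B 2 2
  | _ => 0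

/-- The symmetric matrix with entries `F 0, F 1, F 3, F 2, F 4, F 6` is positive semidefinite. -/
def Psd (F : ℕ → ℝ) : Prop := ∀ ξ : ℕ → ℝ, 0 ≤ ∑ s ∈ range 7, sl2 ξ ξ s * F s

open scoped MatrixOrder in
lemma Psd.kron {F G : ℕ → ℝ} (hF : Psd F) (hG : Psd G) (ξ : ℕ → ℕ → ℝ) :
    0 ≤ ∑ s ∈ range 7, (∑ σ ∈ range 7, sl3 (fun i j => sl2 (ξ i) (ξ j) s) σ * G σ) * F s := by
  have h : (!![G 0, G 1, G 3; G 1, G 2, G 4; G 3, G 4, G 6] : Matrix (Fin 3) (Fin 3) ℝ).PosSemidef := by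
    refine .of_dotProduct_mulVec_nonneg ?_ fun x => ?_
    · ext i j
      fin_cases i <;> fin_cases j <;> simp
    · have := hG fun i => if i = 0 then x 0 else if i = 1 then x 1 else x 2
      simp [sum_range_succ, sl2] at this
      simp [Matrix.mulVec, dotProduct, Fin.sum_univ_three]
      linarith
  obtain ⟨a, ha⟩ := CStarAlgebra.nonneg_iff_eq_star_mul_self.mp h.nonneg
  have e := fun i j => congrFun (congrFun ha i) j
  have e0 := e 0 0
  have e1 := e 0 1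
  have e2 := e 1 1
  have e3 := e 0 2
  have e4 := e 1 2
  have e6 := e 2 2
  simp [Matrix.mul_apply, Fin.sum_univ_three] at e0 e1 e2 e3 e4 e6
  have k := fun r => hF fun u => a r 0 * ξ 0 u + a r 1 * ξ 1 u + a r 2 * ξ 2 u
  have k0 := k 0
  have k1 := k 1
  have k2 := k 2
  simp only [sum_range_succ, sum_range_zero, sl2, sl3] at k0 k1 k2 ⊢
  rw [e0, e1, e2, e3, e4, e6]
  linarith

lemma sl2_cast (x y : ℕ → ℤ) (s : ℕ) :
    ((sl2 x y s : ℤ) : ℝ) = sl2 (fun i => (x i : ℝ)) (fun i => (y i : ℝ)) s := by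
  unfold sl2; split <;> simp

lemma sl3_cast (B : ℕ → ℕ → ℤ) (s : ℕ) :
    ((sl3 B s : ℤ) : ℝ) = sl3 (fun i j => (B i j : ℝ)) s := by
  unfold sl3; split <;> simp

lemma sl3_big (B : ℕ → ℕ → ℤ) {s : ℕ} (hs : 7 ≤ s) : sl3 B s = 0 := by
  unfold sl3; split <;> omega

lemma sl3_bd {B : ℕ → ℕ → ℤ} {a : ℕ} (h : ∀ i j, |B i j| ≤ 2 ^ a) (s : ℕ) :
    |sl3 B s| ≤ 2 ^ (a + 1) := by
  have h2 := fun i j => (h i j).trans (pw_le (Nat.le_succ _))
  have h3 := fun i j k l => bd_add (h i j) (h k l)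
  simp only [max_self] at h3
  unfold sl3
  split <;> first | exact h2 _ _ | exact h3 _ _ _ _ | simp

lemma sq9 (ξ : ℕ → ℕ → ℤ) :
    (pol (Y : ℤ) fun w => pol tt (ξ w)) * (pol (Y : ℤ) fun w => pol tt (ξ w)) =
      ev Y 7 fun σ => ev tt 7 fun s => sl3 (fun i j => sl2 (ξ i) (ξ j) s) σ := by
  simp only [ev, sum_range_succ, sum_range_zero, pol, sl2, sl3]; ring

lemma Cg.of_ev {X k : ℕ} {g : ℕ → ℤ} (h : (X : ℤ) = ev Y k g) (hg : ∀ j, k ≤ j → g j = 0)
    (n : ℕ) : Cg n X g := by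
  refine Cg.mono (n := k + n) ?_ (by omega)
  rw [Cg, h, ev, ev, sum_range_add, sum_eq_zero (s := range n) fun j _ => by
    rw [hg _ (by omega), zero_mul], add_zero]

lemma ev_sum (c : ℕ) (p : ℕ → Prop) [DecidablePred p] (g : ℕ → ℕ → ℤ) :
    (∑ i ∈ range c, if p i then ev tt 7 (g i) else 0) =
      ev tt 7 fun s => ∑ i ∈ range c, if p i then g i s else 0 := by
  simp only [ev, sum_mul]
  rw [sum_comm]
  exact sum_congr rfl fun i _ => by split_ifs <;> simp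

lemma lt47 {x : ℤ} {a : ℕ} (h : |x| ≤ 2 ^ a) (ha : a ≤ 46) : |x| < 2 ^ 47 :=
  (h.trans (pw_le ha)).trans_lt (by norm_num)

lemma land_le (a b : ℕ) : Nat.land a b ≤ b := Nat.and_le_right

lemma Cf.s_le (C : Cf) (i : ℕ) : C.s i ≤ 2 ^ 96 := (land_le _ _).trans (Nat.sub_le _ _)

lemma Cf.a3_spec (C : Cf) (f n : ℕ) : ∃ G : ℕ → ℕ → ℤ,
    Cg n (C.a3 f) (fun e => ev tt 7 (G e)) ∧ (∀ e s, |G e s| < 2 ^ 47) ∧
      ∀ F, Psd F → ∀ e, 0 ≤ ∑ s ∈ range 7, (G e s : ℝ) * F s := by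
  choose ξ h1 h2 using atom3
  set X := dec3 (nth C.pb (Nat.mul 2 f))
  set c := Nat.land (nth C.sc (Nat.add 26 f)) 511
  set u : ℕ → ℕ := fun i => Nat.land (Nat.shiftRight (sr i X) 96) 1023
  refine ⟨fun e s => ∑ i ∈ range c, if e = u i then sl2 (ξ (sr i X)) (ξ (sr i X)) s else 0,
    ?_, fun e s => ?_, fun F hF e => ?_⟩
  · simp only [Cf.a3, force_eq]
    refine (Cg.sumN fun i _ => Cg.sl (u i) (Cg.const _ _)).congr fun e _ => ?_
    rw [← ev_sum]
    refine sum_congr rfl fun i _ => ?_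
    rw [← pol_mul, ← h2, Nat.mul_eq, Nat.cast_mul]
    split_ifs <;> first | omega | rfl
  · exact lt47 (bd_sum (a := 9) ((land_le _ 511).trans (by norm_num))
      fun i _ => bd_ite fun _ => sl2_bd (h1 _) (h1 _) s) (by norm_num)
  · simp only [Int.cast_sum, sum_mul]
    rw [sum_comm]
    refine sum_nonneg fun i _ => ?_
    split_ifs
    · simpa only [sl2_cast] using hF _
    · simp

lemma Cf.a9_spec (C : Cf) (f n : ℕ) : ∃ G : ℕ → ℕ → ℤ,
    Cg n (C.a9 f) (fun e => ev tt 7 (G e)) ∧ (∀ e s, |G e s| < 2 ^ 47) ∧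
      ∀ F w : ℕ → ℝ, Psd F → (∀ g ≤ f, Psd fun σ => w (7 * g + σ)) →
        0 ≤ ∑ s ∈ range 7, (∑ e ∈ range (Cf.n9 f), (G e s : ℝ) * w e) * F s := by
  choose ξ h1 h2 using atom9
  set X := dec9 (nth C.pb (Nat.succ (Nat.mul 2 f)))
  set c := Nat.land (nth C.sc (Nat.add 42 f)) 127
  set z : ℕ → ℕ := fun i => sr (Nat.mul 4 i) X
  set u : ℕ → ℕ := fun i => Nat.mod (Nat.land (Nat.shiftRight (z i) 96) 15) (Nat.succ f)
  have hu : ∀ i, u i ≤ f := fun i => Nat.lt_succ_iff.1 (Nat.mod_lt _ f.succ_pos)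
  refine ⟨fun e s => ∑ i ∈ range c, if 7 * u i ≤ e then
    sl3 (fun a b => sl2 (ξ (z i) a) (ξ (z i) b) s) (e - 7 * u i) else 0,
    ?_, fun e s => ?_, fun F w hF hw => ?_⟩
  · simp only [Cf.a9, force_eq]
    refine (Cg.sumN fun i _ => Cg.sl (7 * u i) (Cg.of_ev (k := 7)
      (g := fun σ => ev tt 7 fun s => sl3 (fun a b => sl2 (ξ (z i) a) (ξ (z i) b) s) σ) ?_
      (fun j hj => ?_) _)).congr fun e _ => ev_sum _ _ _
    · rw [← sq9, ← h2, Nat.mul_eq, Nat.cast_mul]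
    · simp [ev, sl3_big _ hj]
  · exact lt47 (bd_sum (a := 7) ((land_le _ 127).trans (by norm_num))
      fun i _ => bd_ite fun _ => sl3_bd (fun a b => sl2_bd (h1 _ a) (h1 _ b) s) _) (by norm_num)
  · simp only [Int.cast_sum, sum_mul]
    rw [sum_congr rfl fun s _ => sum_comm, sum_comm]
    refine sum_nonneg fun i _ => ?_
    refine (hF.kron (hw _ (hu i)) fun a b => ξ (z i) a b).trans_eq (sum_congr rfl fun s _ => ?_)
    rw [← sum_mul, ← sum_put (D := Cf.n9 f) (k := 7 * u i) (n := 7)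
      (by have := hu i; show _ ≤ 7 * (f + 1); omega)
      fun σ e => sl3 (fun a b => sl2 (fun k => (ξ (z i) a k : ℝ)) (fun k => ξ (z i) b k) s) σ * w e]
    congr 1
    refine sum_congr rfl fun e _ => ?_
    split_ifs with h3 h4
    · simp only [sl3_cast, sl2_cast]
    · rw [sl3_big _ (by omega)]; simp
    · simp

variable {v : ℕ → ℝ}

theorem Cf.rr_spec (C : Cf) (h1 : 1 ≤ C.tb.h) (h2 : C.tb.h ≤ 37) {w : ℕ → ℝ} {f : ℕ} (hf : f < 16)
    (hV : ∀ i < C.nG + 112, HV C.tb.D v (C.vl i) 49 (w i))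
    (hw : ∀ e < C.nN, 0 ≤ wE C.tb v w e) (hP : ∀ g < 16, Psd fun σ => w (C.nG + (7 * g + σ))) :
    ∃ r : ℕ → ℝ, (∀ t < 7, HV C.tb.D v (C.rr f t) 202 (r t)) ∧
      0 ≤ ∑ t ∈ range 7, r t * w (C.nG + (7 * f + t)) := by
  obtain ⟨G3, a1, a2, a3⟩ := C.a3_spec f C.nN
  obtain ⟨G9, b1, b2, b3⟩ := C.a9_spec f (Cf.n9 f)
  have hn : Cf.n9 f = 7 * (f + 1) := rfl
  have hG : C.nG ≤ 63 := Nat.and_le_right
  have hN : C.nN = C.tb.og + C.nG := rfl
  have hD : C.tb.D ≤ C.tb.og := Nat.le_add_right _ _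
  refine ⟨fun t => C.s (Nat.add 10 f) * (∑ e ∈ range C.nN, G3 e t * wE C.tb v w e +
    ∑ e ∈ range (Cf.n9 f), G9 e t * w (C.nG + e)), fun t ht => ?_, ?_⟩
  · refine ((C.ctr_spec h1 h2 (o := p2 47) (c := Nat.add C.nG (Cf.n9 f)) (w := w)
      (fun i hi => hV i (by simp only [Nat.add_eq] at hi; omega))
      (Bd.fld (by norm_num) _ _) (by decide) (by simp only [Nat.add_eq]; omega)).tr.smul
      (C.s_le _)).eq le_rfl ?_
    congr 1
    rw [show C.tb.og + Nat.add C.nG (Cf.n9 f) = C.nN + Cf.n9 f from (Nat.add_assoc _ _ _).symm,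
      sum_range_add]
    congr 1 <;> refine sum_congr rfl fun e he => ?_ <;> have he := mem_range.1 he
    · have := congrArg (Int.cast : ℤ → ℝ) (off_digit a1 (fun e _ s _ => a2 e s) he ht)
      rw [← slot, dg_slot ht, if_pos (by simp only [Nat.add_eq]; omega), Cf.az,
        dg_cat (tr_lt _ _), if_pos he, dg_tr, if_pos he]
      rw [Int.cast_natCast] at this
      rw [this, p2_eq]
      push_cast
      ring
    · have := congrArg (Int.cast : ℤ → ℝ) (off_digit b1 (fun e _ s _ => b2 e s) he ht)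
      rw [← slot, dg_slot ht, if_pos (by simp only [Nat.add_eq]; omega), Cf.az,
        dg_cat (tr_lt _ _), if_neg (by omega), Nat.add_sub_cancel_left, wE, if_neg (by omega),
        if_neg (by omega), show C.nN + e - C.tb.og = C.nG + e by omega]
      rw [Int.cast_natCast] at this
      rw [this, p2_eq]
      push_cast
      ring
  · simp only [mul_assoc, ← mul_sum, add_mul, sum_add_distrib]
    refine mul_nonneg (by positivity) (add_nonneg ?_ (b3 _ _ (hP f hf) fun g hg => hP g (by omega)))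
    simp only [sum_mul]
    rw [sum_comm]
    refine sum_nonneg fun e he => ?_
    have := mul_nonneg (a3 _ (hP f hf) e) (hw e (mem_range.1 he))
    rw [sum_mul] at this
    exact this.trans_eq (sum_congr rfl fun s _ => by ring)

end Pool.Agent.Lib.MP_834949_an.Ck
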