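import Pool.Agent.Lib.MP_834949_an.B.Pk4

/-!
The products of two linear forms subtracted by the checker have a nonnegative sum.
-/

set_option exponentiation.threshold 1100

namespace Pool.Agent.Lib.MP_834949_an.Ck

open Finset

section
variable {α : Type} {a b : ℕ} {x y : α}
lemma cT (h : a ≤ b) : cond (Nat.ble a b) x y = x := by rw [Nat.ble_eq_true_of_le h]; rfl
lemma cF (h : b < a) : cond (Nat.ble a b) x y = y := by
  rw [show Nat.ble a b = false by rw [← Bool.not_eq_true, Nat.ble_eq]; omega]; rfl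
lemma cB : cond (Nat.beq a b) x y = if a = b then x else y := by
  split_ifs with h
  · rw [h, Nat.beq_refl]; rfl
  · rw [show Nat.beq a b = false by rw [← Bool.not_eq_true, Nat.beq_eq]; exact h]; rfl
end

/-- The entries of one of the three by three matrices. -/
noncomputable def FF (z : ℝ) (x : ℕ → ℝ) : ℕ → ℝ
  | 0 => 8388632 * z
  | 1 => x 0
  | 2 => x 3 + 24 * z + x 4
  | 3 => x 1
  | 4 => x 2
  | 6 => x 3 + 24 * z - x 4
  | _ => 0

/-- The quadratic form given by a lower triangle. -/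
noncomputable def tri (D : ℕ) (v : ℕ → ℝ) (M : ℕ → ℕ → ℤ) : ℝ :=
  ∑ a ∈ range D, v a * (2 * ∑ b ∈ range a, M a b * v b + M a a * v a)

/-- What the checker needs to know about the vector `v`. -/
structure Env (C : Cf) (v : ℕ → ℝ) (x : ℕ → ℕ → ℝ) : Prop where
  h1 : 1 ≤ C.tb.h
  h2 : C.tb.h ≤ 37
  q2 : C.tb.q ≤ 512
  v0 : 0 < v 0
  nn : ∀ a, 0 ≤ v a
  le : ∀ a, v a ≤ C.tb.W a * v 0
  rho : ∀ r, HV C.tb.D v (C.tb.rho r) 49 0
  ht : ∀ f < 16, HV C.tb.D v (C.tb.t1 f) 30 (x f 0) ∧ HV C.tb.D v (C.tb.t3 f) 30 (x f 1) ∧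
    HV C.tb.D v (C.tb.t4 f) 30 (x f 2) ∧ HV C.tb.D v (C.tb.tcc f) 30 (x f 3) ∧
    HV C.tb.D v (C.tb.tcb f) 30 (x f 4)
  psd : ∀ f < 16, Psd (FF (C.tb.q2 * v 0) (x f))
  gv : ∀ i, ∃ y, 0 ≤ y ∧ HV C.tb.D v (C.gv i) 100 y

variable {D X a : ℕ} {v : ℕ → ℝ} {C : Cf} {x : ℕ → ℕ → ℝ}

lemma HV.nn {y : ℝ} (h : HV D v X a y) (ha : a ≤ 334) (hv : ∀ a, 0 ≤ v a) (hn : nn D X = true) :
    0 ≤ y := by
  obtain ⟨f, h1, rfl⟩ := h
  exact sum_nonneg fun j hj =>
    mul_nonneg (by exact_mod_cast h1.nonneg ha hn j (mem_range.1 hj)) (hv j)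

lemma Bd.le {w w' : ℕ} (h : Bd w X) (hw : w ≤ w') : Bd w' X :=
  fun j => (h j).trans_le (Nat.pow_le_pow_right two_pos hw)

lemma HV.off (D X : ℕ) (v : ℕ → ℝ) {w c : ℕ} (hw : w ≤ 336) (hc : c ≤ 2 ^ w) :
    ∃ y, HV D v (Ck.sb D (fld D w X) (cn c D)) (w + 1) y :=
  ⟨_, _, (((Bd.fld hw D X).rp D).sb (Rp.cn' D hc)).le (by simp), rfl⟩

lemma sum_blk (k n : ℕ) (g : ℕ → ℝ) :
    ∑ p ∈ range (k * n), g p = ∑ f ∈ range n, ∑ j ∈ range k, g (k * f + j) := by
  induction n with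
  | zero => simp
  | succ n ih => rw [mul_add_one, sum_range_add, ih, sum_range_succ]

namespace Env

lemma gp (E : Env C v x) (r : ℕ) : ∃ y, 0 ≤ y ∧ HV C.tb.D v (C.gp r) 49 y := by
  obtain ⟨y, h0, h1⟩ := E.gv (C.s (Nat.add 58 (Nat.mul 3 r)))
  have h2 := h1.smul (C.s_le (Nat.add 59 (Nat.mul 3 r)))
  simp only [Cf.gp, force_eq]
  generalize Nat.mul (C.s _) (C.gv _) = X at h2 ⊢
  obtain ⟨z, h3⟩ := HV.off C.tb.D (Nat.shiftRight (Nat.add X (cn (p2 79) C.tb.D)) 32) v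
    (w := 48) (c := m2 47) (by norm_num) (by decide)
  have h4 := h3.tr
  generalize tr C.tb.D _ = Z at h4 ⊢
  cases hn : Ck.nn C.tb.D (sb C.tb.D (Nat.mul (p2 32) Z) X)
  · exact ⟨0, le_rfl, HV.zero⟩
  · have h5 := ((h4.smul (a := 32) (c := p2 32) le_rfl).sb h2).nn (by norm_num) E.nn hn
    refine ⟨z, ?_, h4⟩
    have : 0 ≤ (C.s (Nat.add 59 (Nat.mul 3 r)) : ℝ) * y := by positivity
    rw [p2_eq] at h5
    push_cast at h5
    linarith

lemma z (E : Env C v x) : HV C.tb.D v C.tb.q2 10 (C.tb.q2 * v 0) := by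
  have := C.tb.dims
  have := E.q2
  exact HV.const (by omega) (by omega)

lemma zc (E : Env C v x) (c : ℕ) (hc : c ≤ 2 ^ a) :
    HV C.tb.D v (Nat.mul c C.tb.q2) (a + 10) (c * (C.tb.q2 * v 0)) := E.z.smul hc

lemma t26 (E : Env C v x) {f : ℕ} (hf : f < 16) :
    HV C.tb.D v (C.tb.t26 f) 31 (x f 3 + 24 * (C.tb.q2 * v 0)) :=
  ((E.ht f hf).2.2.2.1.add (E.zc (a := 5) 24 (by norm_num))).eq (by norm_num) (by norm_num)

lemma tv (E : Env C v x) {f s : ℕ} (hf : f < 16) (hs : s < 7) :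
    HV C.tb.D v (C.tb.tv (7 * f + s)) 49 (FF (C.tb.q2 * v 0) (x f) s) := by
  obtain ⟨a1, a3, a4, -, ab⟩ := E.ht f hf
  rw [Tb.tv, force_eq, show Nat.div (7 * f + s) 7 = f from show (7 * f + s) / 7 = f by omega,
    show Nat.mod (7 * f + s) 7 = s from show (7 * f + s) % 7 = s by omega]
  refine HV.tr ?_
  simp only [Tb.tv0, cB]
  interval_cases s <;> simp only [reduceIte, Nat.reduceEqDiff, OfNat.ofNat_ne_zero, one_ne_zero,
    OfNat.ofNat_ne_one]
  · exact (E.zc (a := 24) 8388632 (by norm_num)).eq (by norm_num) (by simp [FF])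
  · exact a1.le (by norm_num)
  · exact ((E.t26 hf).add ab).le (by norm_num)
  · exact a3.le (by norm_num)
  · exact a4.le (by norm_num)
  · exact HV.zero
  · exact ((E.t26 hf).sb ab).le (by norm_num)

lemma vl (E : Env C v x) : ∃ w : ℕ → ℝ, (∀ i < C.nG + 112, HV C.tb.D v (C.vl i) 49 (w i)) ∧
    (∀ e < C.nN, 0 ≤ wE C.tb v w e) ∧ (∀ i < C.nG, 0 ≤ w i) ∧
    ∀ f < 16, ∀ s < 7, w (C.nG + (7 * f + s)) = FF (C.tb.q2 * v 0) (x f) s := by
  choose y h1 h2 using E.gp
  refine ⟨fun i => if i < C.nG then y i else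
    FF (C.tb.q2 * v 0) (x ((i - C.nG) / 7)) ((i - C.nG) % 7), fun i hi => ?_, fun e he => ?_,
    fun i hi => ?_, fun f _ s hs => ?_⟩
  · dsimp only
    rw [Cf.vl]
    split_ifs with h
    · rw [cF h]; exact h2 i
    · rw [cT (not_lt.1 h), force_eq]
      have := E.tv (f := (i - C.nG) / 7) (s := (i - C.nG) % 7) (by omega) (by omega)
      rwa [Nat.div_add_mod] at this
  · have : C.nN = C.tb.og + C.nG := rfl
    unfold wE
    split_ifs with h3 h4
    · exact mul_nonneg (by norm_num) (E.nn e)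
    · exact mul_nonneg (by norm_num) (sub_nonneg.2 (add_comm 1 (e - C.tb.D) ▸ E.le _))
    · exact (h1 _).trans_eq (if_pos (by omega)).symm
  · exact (h1 _).trans_eq (if_pos hi).symm
  · dsimp only
    rw [if_neg (by omega), Nat.add_sub_cancel_left]
    congr <;> omega

theorem pairs (E : Env C v x) {y : ℝ} (hy : HV C.tb.D v C.lin 140 y) : ∃ ρ τ : ℕ → ℝ,
    (∀ p < C.np, HV C.tb.D v (C.R p) 240 (ρ p) ∧ HV C.tb.D v (C.T p) 49 (τ p)) ∧
      C.s 0 * y * (C.tb.q2 * v 0) ≤ ∑ p ∈ range C.np, ρ p * τ p := by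
  obtain ⟨w, w1, w2, w3, w4⟩ := E.vl
  have hP : ∀ g < 16, Psd fun σ => w (C.nG + (7 * g + σ)) := fun g hg ξ =>
    (E.psd g hg ξ).trans_eq (sum_congr rfl fun s hs => by rw [← w4 g hg s (mem_range.1 hs)])
  choose! r r1 r2 using fun f (hf : f < 16) => C.rr_spec E.h1 E.h2 hf w1 w2 hP
  have het : ∀ k, ∃ y, HV C.tb.D v (C.et k) 29 y :=
    fun k => HV.off _ _ v (by norm_num) (by norm_num)
  set z := C.tb.q2 * v 0
  set A : ℕ → ℕ → ℝ := fun f k => if k = 0 then r f 1 else if k = 1 then r f 3 else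
    if k = 2 then r f 4 else if k = 3 then r f 2 + r f 6 else r f 2 - r f 6 with hA
  set B := C.s 0 * y + ∑ f ∈ range 16, (8388632 * r f 0 + 24 * (r f 2 + r f 6)) with hB
  have key : ∀ p < C.np, ∃ ρ τ, (HV C.tb.D v (C.R p) 240 ρ ∧ HV C.tb.D v (C.T p) 49 τ) ∧
      (if p < 80 then A (p / 5) (p % 5) * x (p / 5) (p % 5) else if p = 80 then B * z else 0) ≤
        ρ * τ := by
    intro p hp
    have hnp : C.np = 87 + C.nG := rfl
    have hG : C.nG ≤ 63 := land_le _ _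
    unfold Cf.R Cf.T
    simp only [force_eq, Nat.sub_eq]
    rcases le_or_gt 87 p with h | h
    · rw [cT h, cT h, if_neg (by omega), if_neg (by omega)]
      refine ⟨_, _, ⟨((C.ctr_spec E.h1 E.h2 (w := w) (fun i hi => w1 i (by omega))
        ((Bd.fld (by norm_num) _ _).le (by norm_num)) (by norm_num) (by omega)).smul
        (C.s_le _)).tr.le (by norm_num), (w1 _ (by omega)).tr⟩,
        mul_nonneg (mul_nonneg (by positivity) (sum_nonneg fun e he => mul_nonneg (by simp)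
          (w2 e (mem_range.1 he)))) (w3 _ (by omega))⟩
    rw [cF h, cF h]
    obtain ⟨η, hη⟩ := het (p - 81)
    rcases le_or_gt 85 p with h | h
    · rw [cT h, cT h, if_neg (by omega), if_neg (by omega)]
      exact ⟨_, _, ⟨(hη.smul (C.s_le _)).tr.le (by norm_num), hη.tr.le (by norm_num)⟩,
        by rw [mul_assoc]; exact mul_nonneg (by positivity) (mul_self_nonneg η)⟩
    rw [cF h, cF h]
    rcases le_or_gt 81 p with h | h
    · rw [cT h, cT h, if_neg (by omega), if_neg (by omega)]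
      exact ⟨_, _, ⟨(hη.smul (C.s_le _)).tr.le (by norm_num), (E.rho _).tr⟩, by simp⟩
    rw [cF h, cF h]
    rcases le_or_gt 80 p with h | h
    · rw [cT h, cT h, if_neg (by omega), if_pos (by omega)]
      refine ⟨B, z, ⟨HV.tr (((hy.smul (C.s_le 0)).add (HV.sumN (a := 4) (by norm_num)
        fun f hf => ((r1 f hf 0 (by norm_num)).smul (a := 24) (c := 8388632) (by norm_num)).add
          (((r1 f hf 2 (by norm_num)).add (r1 f hf 6 (by norm_num))).smul (a := 5) (c := 24)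
            (by norm_num)))).eq (by norm_num) (by simp [hB])), E.z.tr.le (by norm_num)⟩, le_rfl⟩
    rw [cF h, cF h, if_pos h]
    have hf : p / 5 < 16 := by omega
    obtain ⟨a1, a3, a4, ac, ab⟩ := E.ht _ hf
    have r3 := r1 _ hf
    have : p % 5 < 5 := Nat.mod_lt _ (by norm_num)
    refine ⟨_, _, ⟨HV.tr ?_, HV.tr ?_⟩, le_rfl⟩ <;>
      rw [show Nat.mod p 5 = p % 5 from rfl, show Nat.div p 5 = p / 5 from rfl] <;>
      simp only [cB, hA] <;> split_ifs with h0 h1 h2 h3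
    exacts [(r3 1 (by norm_num)).le (by norm_num), (r3 3 (by norm_num)).le (by norm_num),
      (r3 4 (by norm_num)).le (by norm_num),
      ((r3 2 (by norm_num)).add (r3 6 (by norm_num))).le (by norm_num),
      ((r3 2 (by norm_num)).sb (r3 6 (by norm_num))).le (by norm_num),
      h0 ▸ a1.le (by norm_num), h1 ▸ a3.le (by norm_num), h2 ▸ a4.le (by norm_num),
      h3 ▸ ac.le (by norm_num), (show p % 5 = 4 by omega) ▸ ab.le (by norm_num)]
  choose! ρ τ k1 k2 using key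
  refine ⟨ρ, τ, k1, le_trans ?_ (sum_le_sum fun p hp => k2 p (mem_range.1 hp))⟩
  rw [show C.np = 5 * 16 + 1 + (6 + C.nG) by show 87 + C.nG = _; omega, sum_range_add,
    sum_range_succ, sum_blk, sum_eq_zero (s := range (6 + C.nG)) fun p _ => by
      rw [if_neg (by omega), if_neg (by omega)], if_neg (by omega), if_pos rfl, add_zero, hB,
    add_mul, add_left_comm, sum_mul, ← sum_add_distrib, le_add_iff_nonneg_right]
  refine sum_nonneg fun f hf => ?_
  have hf := mem_range.1 hf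
  have := r2 f hf
  rw [sum_congr rfl fun s hs => by rw [w4 f hf s (mem_range.1 hs)]] at this
  rw [sum_congr rfl fun k hk => by
    have := mem_range.1 hk
    rw [if_pos (by omega), show (5 * f + k) / 5 = f by omega, show (5 * f + k) % 5 = k by omega]]
  simp only [sum_range_succ, sum_range_zero, FF, hA] at this ⊢
  norm_num at this ⊢
  linarith

end Env

end Pool.Agent.Lib.MP_834949_an.Ck
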