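import Pool.Agent.Lib.MP_834949_an.B.Pk5

/-!
The rows of the residual matrix.
-/

set_option exponentiation.threshold 1100

namespace Pool.Agent.Lib.MP_834949_an.Ck

open Finset

variable {D : ℕ} {v : ℕ → ℝ} {C : Cf} {x : ℕ → ℕ → ℝ}

lemma Cf.sy_spec {r t : ℕ → ℕ → ℤ}
    (h : ∀ p < C.np, Rp D (C.R p) (r p) 240 ∧ Rp D (C.T p) (t p) 49) {a b n m : ℕ} (hb : b ≤ a)
    (ha : a < n) (hn : n ≤ D) (hm : m ≤ n) : ∃ f g, Cg m (C.syP b n a) f ∧ Cg m (C.syN b n) g ∧
      ∀ j < m, f j - g j = ∑ p ∈ range C.np, (r p a * t p j + t p a * r p j) := by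
  have hR : ∀ p < C.np, Cg m (C.Rv n p) (r p) := fun p hp => ((h p hp).1.1.mono (by omega)).tr hm
  have hT : ∀ p < C.np, Cg m (C.Tv n p) (t p) := fun p hp => ((h p hp).2.1.mono (by omega)).tr hm
  have hRs : ∀ p < C.np, (dg (C.Rs n p) a : ℤ) = r p a + OO :=
    fun p hp => ((h p hp).1.mono hn).nm (by norm_num) a ha
  have hTs : ∀ p < C.np, (dg (C.Ts n p) a : ℤ) = t p a + OO :=
    fun p hp => ((h p hp).2.mono hn).nm (by norm_num) a ha
  have ite : ∀ (c : Prop) [Decidable c] {X : ℕ} {f : ℕ → ℤ}, Cg m X f →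
      Cg m (if c then 0 else X) fun j => if c then 0 else f j := fun c _ X f hX => by
    split_ifs; exacts [Cg.zero m, hX]
  simp only [Cf.syP, Cf.syN, sumS_eq]
  refine ⟨_, _, (Cg.sumN (f := fun p j => (dg (C.Rs n p) a : ℤ) * t p j) fun p hp => ?_).add
    (Cg.sumN fun p hp => ite _ ((hR p hp).smul _)),
    ((Cg.sumN hT).add (Cg.sumN fun p hp => ite _ (hR p hp))).smul _, fun j _ => ?_⟩
  · split_ifs with hz
    · have := (hT p hp).smul (dg (C.Rs n p) a)
      rwa [Nat.eq_of_beq_eq_true hz] at this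
    · exact (hT p hp).smul _
  · rw [mul_add, mul_sum, mul_sum, ← sum_add_distrib, ← sum_add_distrib, ← sum_sub_distrib]
    refine sum_congr rfl fun p hp => ?_
    have h1 := hRs p (mem_range.1 hp)
    have h2 := hTs p (mem_range.1 hp)
    split_ifs with hz
    · have h3 := dg_sr b (C.Ts n p) (a - b)
      rw [Nat.eq_of_beq_eq_true hz, dg_cn (by decide), if_pos (by simp only [Nat.sub_eq]; omega),
        Nat.add_sub_cancel' hb] at h3
      rw [← h3, right_eq_add] at h2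
      rw [h1, h2]
      ring
    · rw [h1, h2]
      ring

lemma Cf.lo3_spec (C : Cf) (h2 : C.tb.h ≤ 37) : ∃ y : ℕ → ℕ → ℕ → ℤ,
    (∀ j a i, |y j a i| ≤ 2 ^ 19) ∧ ∀ n a, a < n → ∀ b < a + 1,
      (dg (C.lo3 n a (a + 1)) b : ℤ) = ∑ j ∈ range C.tb.G,
        (y j a 0 * y j b 0 + y j a 1 * y j b 1 + y j a 2 * y j b 2) + Cf.o3L := by
  choose ξ h1 h3 using land_off (c := 19) (by norm_num)
  have hG : C.tb.G ≤ 2 ^ 7 := by
    have := C.tb.dims
    show (C.tb.D + 2) / 3 ≤ _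
    omega
  have hs : ∀ j, ∃ W, C.ls j = Nat.land W (cn mL (3 * (C.tb.G - 1 - j + 1))) :=
    fun j => ⟨_, force_eq _ _⟩
  choose W hW using hs
  set y : ℕ → ℕ → ℕ → ℤ := fun j b i => if b < 3 * (C.tb.G - j) then ξ (dg (W j) b) i else 0
    with hy
  have hy1 : ∀ j a i, |y j a i| ≤ 2 ^ 19 := fun j a i => bd_ite fun _ => h1 _ i
  have hd : ∀ j b, b < 3 * (C.tb.G - j) → (dg (C.ls j) b : ℤ) - oL = pol tt (y j b) := by
    intro j b hb
    rw [hW, dg_land, dg_cn (by decide), if_pos (by omega)]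
    simp only [hy, if_pos hb]
    exact h3 _
  refine ⟨y, hy1, fun n a ha b hb => ?_⟩
  have hc : C.lc a = C.tb.G - a / 3 := rfl
  have hv : ∀ j < C.lc a, Cg (a + 1) (C.Lv n j) fun b => pol tt (y j b) := fun j hj => by
    have hm : a + 1 ≤ C.lm n j := by
      rw [Cf.lm, mn_eq]; simp only [Nat.mul_eq, Nat.sub_eq]; omega
    rw [Cf.Lv, force_eq]
    exact (((Cg.dg _ _).sb (Cg.cn _ oL _) hm).tr hm).congr fun b hb => by
      rw [if_pos (by omega), hd j b (by omega)]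
  have hl : Cg (a + 1) (C.ll n a (a + 1)) fun b => ev tt 7 fun s =>
      ∑ j ∈ range C.tb.G, sl2 (y j a) (y j b) s := by
    refine ((Cg.sumN fun j hj => (hv j hj).smul _).sb ((Cg.sumN hv).smul oL) le_rfl).congr
      fun b _ => ?_
    simp only [ev, sum_mul]
    rw [sum_comm, mul_sum, ← sum_sub_distrib, ← sum_subset (range_subset_range.2
      (show C.lc a ≤ C.tb.G by omega)) fun j h4 h5 => ?_]
    · refine sum_congr rfl fun j hj => ?_
      have := mem_range.1 hj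
      rw [← sub_mul, Cf.Ls, dg_tr, if_pos ha, hd j a (by omega), pol_mul, ev]
    · rw [← ev, ← pol_mul]
      simp only [mem_range] at h4 h5
      simp [pol, hy, show ¬ a < 3 * (C.tb.G - j) by omega]
  have ho := fun s hs => off_digit hl (fun e _ s _ => lt47 (bd_sum hG fun j _ =>
    sl2_bd (hy1 j a) (hy1 j e) s) (by norm_num)) hb (s := s) hs
  have hb48 : ∀ s Z, Bd 48 (slot (a + 1) s Z) := fun s Z => Bd.fld (by norm_num) _ _
  rw [Cf.lo3, force_eq, ((((hb48 0 _).rp (a + 1)).add ((hb48 2 _).rp _)).add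
    ((hb48 6 _).rp _)).dg_eq (by norm_num) (fun _ _ => by positivity) b hb,
    dg_slot (by norm_num), dg_slot (by norm_num), dg_slot (by norm_num), if_pos hb, if_pos hb,
    if_pos hb, ho 0 (by norm_num), ho 2 (by norm_num), ho 6 (by norm_num)]
  simp only [sl2, sum_add_distrib, show ((Cf.o3L : ℕ) : ℤ) = 3 * 2 ^ 47 by decide]
  ring

lemma tri_congr {M N : ℕ → ℕ → ℤ} (h : ∀ a < D, ∀ b ≤ a, M a b = N a b) :
    tri D v M = tri D v N :=
  sum_congr rfl fun a ha => by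
    rw [h a (mem_range.1 ha) a le_rfl, sum_congr rfl fun b hb => by
      rw [h a (mem_range.1 ha) b (mem_range.1 hb).le]]

lemma tri_prod (f g : ℕ → ℤ) :
    tri D v (fun a b => f a * g b + g a * f b) = 2 * (dot D v f * dot D v g) := by
  induction D with
  | zero => simp [tri, dot]
  | succ D ih =>
    rw [tri, sum_range_succ, ← tri, ih]
    simp only [dot, sum_range_succ]
    push_cast
    simp only [add_mul, sum_add_distrib, mul_assoc, ← mul_sum]
    ring

lemma tri_sum (c : ℕ) (M : ℕ → ℕ → ℕ → ℤ) :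
    tri D v (fun a b => ∑ p ∈ range c, M p a b) = ∑ p ∈ range c, tri D v (M p) := by
  unfold tri
  rw [sum_comm]
  refine sum_congr rfl fun a _ => ?_
  push_cast
  simp only [sum_mul, ← mul_sum, sum_add_distrib]
  rw [sum_comm]

lemma tri_lin (c d : ℤ) (M N K : ℕ → ℕ → ℤ) :
    tri D v (fun a b => c * M a b - N a b - d * K a b) =
      c * tri D v M - tri D v N - d * tri D v K := by
  unfold tri
  rw [mul_sum, mul_sum, ← sum_sub_distrib, ← sum_sub_distrib]
  refine sum_congr rfl fun a _ => ?_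
  push_cast
  simp only [sub_mul, sum_sub_distrib, mul_assoc, ← mul_sum]
  ring

lemma HV.sl1 {m X w : ℕ} (h : Bd w X) :
    HV (m + 1) v (Ck.sl 1 X) w (∑ l ∈ range m, dg X l * v (l + 1)) :=
  ⟨_, (h.rp _).sl 1, by simp [dot, sum_range_succ']⟩

lemma Env.y_spec (E : Env C v x) : ∃ P N : ℕ → ℝ,
    (∀ k, HV (k + 2) v (C.yP (k + 1)) 130 (P k) ∧ HV (k + 2) v (C.yN (k + 1)) 130 (N k) ∧
      C.ys (k + 1) ≤ 2 ^ 130) ∧
    ∑ k ∈ range (C.tb.D - 1), v (k + 1) * (P k + C.ys (k + 1) * v 0 - N k) ≤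
      ∑ k ∈ range (C.tb.D - 1), (C.tb.W (k + 1) * C.ys (k + 1) : ℝ) * v 0 ^ 2 := by
  have hd := C.tb.dims
  have h1 := E.h1
  have h2 := E.h2
  have bp : ∀ k, Bd 13 (C.yp k) := fun k => Bd.fld (by norm_num) _ _
  have bn : ∀ k, Bd 13 (C.yn k) := fun k => Bd.fld (by norm_num) _ _
  have lp : ∀ k, C.yp k < Y ^ (k + 1) := fun k => fld_lt (by norm_num) _ _
  have ln : ∀ k, C.yn k < Y ^ (k + 1) := fun k => fld_lt (by norm_num) _ _
  have lp' : ∀ k < C.tb.nb, C.yp k < Y ^ C.tb.nb :=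
    fun k hk => (lp k).trans_le (Nat.pow_le_pow_right Y_pos hk)
  have ha : ∀ y : ℕ → ℕ, (∀ k, Bd 13 (y k)) → ∀ k,
      (dg (sumN C.tb.nb fun k => Nat.mul (C.tb.W (Nat.succ k)) (y k)) k : ℝ) =
        ∑ j ∈ range C.tb.nb, (C.tb.W (j + 1) : ℝ) * dg (y j) k ∧
      dg (sumN C.tb.nb fun k => Nat.mul (C.tb.W (Nat.succ k)) (y k)) k ≤ 2 ^ 31 := by
    intro y hy k
    have h3 := Rp.sumN (a := 8) (c := C.tb.nb) (by omega)
      fun j _ => ((hy j).rp (k + 1)).smul (Tb.W_le E.q2 (Nat.succ j))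
    have h4 := h3.dg_eq (by norm_num) (fun _ _ => by positivity) k (by omega)
    have h5 := h3.2 k (by omega)
    beta_reduce at h5
    rw [← h4, Nat.abs_cast] at h5
    exact ⟨by exact_mod_cast h4, by exact_mod_cast h5⟩
  have hs : ∀ {y : ℕ} {k : ℕ}, k < C.tb.nb → y < Y ^ (k + 1) →
      ∑ l ∈ range (k + 1), (dg y l : ℝ) * v (l + 1) = ∑ l ∈ range C.tb.nb, dg y l * v (l + 1) :=
    fun hk hy => sum_subset (range_subset_range.2 hk) fun l _ h3 => by
      rw [dg_big hy (by simpa using h3)]; simp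
  have ys : ∀ k, C.ys (k + 1) = if k < C.tb.nb then C.s 3 * C.tb.wsum (C.yp k) else 0 := by
    intro k
    rw [Cf.ys]
    split_ifs with h
    · rw [cF (by omega), force_eq]; rfl
    · rw [cT (by omega)]
  refine ⟨fun k => if k < C.tb.nb then
      C.s 3 * (∑ l ∈ range C.tb.nb, dg (C.yn k) l * v (l + 1) + dg C.ap k * v 0) else 0,
    fun k => if k < C.tb.nb then
      C.s 3 * (∑ l ∈ range C.tb.nb, dg (C.yp k) l * v (l + 1) + dg C.an k * v 0) else 0,
    fun k => ?_, ?_⟩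
  · rw [ys, Cf.yP, Cf.yN]
    dsimp only
    split_ifs with h
    · rw [cF (by omega), cF (by omega), force_eq, force_eq, ← hs h (lp k), ← hs h (ln k)]
      exact ⟨(((HV.sl1 (bn k)).add (HV.const (by omega) (ha _ bp k).2)).smul (C.s_le 3)).le
        (by norm_num), (((HV.sl1 (bp k)).add (HV.const (by omega) (ha _ bn k).2)).smul
        (C.s_le 3)).le (by norm_num), (Nat.mul_le_mul (C.s_le 3)
        (Tb.wsum_le h1 h2 (lp' k h) (bp k) (by norm_num))).trans (by norm_num)⟩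
    · rw [cT (by omega), cT (by omega)]
      exact ⟨HV.zero, HV.zero, by norm_num⟩
  · have hn : range C.tb.nb ⊆ range (C.tb.D - 1) := range_subset_range.2 (by omega)
    beta_reduce
    rw [← sum_subset hn fun k _ h => by simp [ys, show ¬ k < C.tb.nb by simpa using h],
      ← sum_subset hn fun k _ h => by simp [ys, show ¬ k < C.tb.nb by simpa using h]]
    set g : ℕ → ℝ := fun k => C.tb.W (k + 1) * v 0 - v (k + 1) with hg
    have g0 : ∀ k, 0 ≤ g k := fun k => sub_nonneg.2 (E.le _)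
    have k1 : 0 ≤ ∑ k ∈ range C.tb.nb, ∑ l ∈ range C.tb.nb, (C.s 3 : ℝ) *
        (dg (C.yp k) l * (g k * g l) + dg (C.yn k) l * (g k * v (l + 1))) :=
      sum_nonneg fun k _ => sum_nonneg fun l _ => by
        have := g0 k
        have := g0 l
        have := E.nn (l + 1)
        positivity
    have k2 : ∀ y : ℕ → ℕ, ∑ k ∈ range C.tb.nb, ∑ j ∈ range C.tb.nb,
        v (k + 1) * (C.s 3 * (C.tb.W (j + 1) * dg (y j) k * v 0)) = ∑ k ∈ range C.tb.nb,
        ∑ l ∈ range C.tb.nb, v (l + 1) * (C.s 3 * (C.tb.W (k + 1) * dg (y k) l * v 0)) :=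
      fun y => sum_comm
    rw [← sub_nonneg, ← sum_sub_distrib, sum_congr rfl fun k hk => by
      have hk := mem_range.1 hk
      rw [ys, if_pos hk, if_pos hk, if_pos hk, Cf.ap, Cf.an, (ha _ bp k).1, (ha _ bn k).1,
        Tb.wsum_eq h1 h2 (lp' k hk) (bp k) (by norm_num)]]
    push_cast
    simp only [mul_add, mul_sub, mul_sum, sum_mul, sum_add_distrib, sum_sub_distrib, k2]
    simp only [← sum_add_distrib, ← sum_sub_distrib]
    exact k1.trans_eq (sum_congr rfl fun k _ => sum_congr rfl fun l _ => by simp only [hg]; ring)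

end Pool.Agent.Lib.MP_834949_an.Ck
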