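import Pool.Agent.Lib.MP_834949_an.B.Pk6

/-!
Soundness of the algebraic part of the checker.
-/

set_option exponentiation.threshold 1100

namespace Pool.Agent.Lib.MP_834949_an.Ck

open Finset

variable {v : ℕ → ℝ} {C : Cf} {x : ℕ → ℕ → ℝ}

lemma Tb.blk (B : Tb) {a : ℕ} (ha : a < B.D) : B.bs a ≤ a ∧ a < B.be a ∧ B.be a ≤ B.D := by
  simp only [Tb.bs, Tb.be, mn_eq, mx_eq]
  omega

lemma Cf.hR_spec {a : ℕ} {f : ℕ → ℤ} {p n : ℝ} (hE : Rp (a + 1) (C.eR a (a + 1)) f 300)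
    (h1 : HV (a + 1) v (C.yP a) 130 p) (h2 : HV (a + 1) v (C.yN a) 130 n) (h3 : C.ys a ≤ 2 ^ 130) :
    HV (a + 1) v (C.hR a (a + 1)) 305
      (2 * ∑ b ∈ range a, f b * v b + f a * v a + (p + C.ys a * v 0 - n)) := by
  obtain ⟨g, g1, g2⟩ := (h1.add (HV.const (by omega) h3))
  obtain ⟨k, k1, rfl⟩ := h2
  rw [Cf.hR, force_eq, ← g2]
  refine ⟨fun j => (2 * f j + if j = a then -f a else 0) + (g j + -k j), ⟨(((((hE.1.smul 2).add
    ((Cg.const _ OO).sl a)).add g1.1).sb (((Cg.const _ _).sl a).add k1.1) le_rfl).congr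
    fun j hj => ?_), fun j hj => ?_⟩, ?_⟩
  · rw [hE.nm (by norm_num) a (by omega)]
    split_ifs <;> omega
  · refine (bd_add (bd_add (bd_mul (a := 1) (by norm_num) (hE.2 j hj)) (bd_ite (a := 300)
      fun _ => ?_)) (bd_add (g1.2 j hj) (b := 130) ?_)).trans (pw_le (by norm_num))
    · rw [abs_neg]; exact hE.2 a (by omega)
    · rw [abs_neg]; exact k1.2 j hj
  · simp only [dot]
    push_cast
    simp only [add_mul, sum_add_distrib, ite_mul, zero_mul, sum_ite_eq', mem_range, neg_mul,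
      sum_neg_distrib, mul_assoc, ← mul_sum, sum_range_succ (fun b => (f b : ℝ) * v b),
      if_pos a.lt_succ_self]
    ring

lemma Env.row (E : Env C v x) {a bud : ℕ} {h : ℝ} (hH : HV (a + 1) v (C.hR a (a + 1)) 305 h)
    (hr : 1 ≤ C.row a bud) : 1 ≤ bud ∧ (C.row a bud : ℝ) * v 0 ^ 2 ≤
      bud * v 0 ^ 2 + (v a * h - C.tb.W a * C.ys a * v 0 ^ 2) := by
  simp only [Cf.row, force_eq, Nat.succ_eq_add_one] at hr ⊢
  have b1 : Bd 240 (tr C.tb.nb (sr 1 (pos (a + 1) 240 (ng (a + 1) (C.hR a (a + 1)))))) :=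
    ((Bd.pos (by norm_num) _ _).sr 1).tr _
  have b2 := tr_lt C.tb.nb (sr 1 (pos (a + 1) 240 (ng (a + 1) (C.hR a (a + 1)))))
  generalize tr C.tb.nb _ = Z at *
  have h3 := (hH.add (HV.sl1 b1)).sb
    (HV.const (by omega) (Tb.wsum_le E.h1 E.h2 b2 b1 (by norm_num)))
  have h4 : ∑ l ∈ range a, (dg Z l : ℝ) * v (l + 1) ≤ C.tb.wsum Z * v 0 := by
    rw [Tb.wsum_eq E.h1 E.h2 b2 b1 (by norm_num)]
    push_cast
    rw [sum_mul, sum_subset (range_subset_range.2 (Nat.le_add_left C.tb.nb a)) fun l _ hl => by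
      rw [dg_big b2 (by simpa using hl)]; simp]
    refine (sum_le_sum fun l _ => ?_).trans (sum_le_sum_of_subset_of_nonneg
      (range_subset_range.2 (Nat.le_add_right _ _)) fun l _ _ => by have := E.v0; positivity)
    exact (mul_le_mul_of_nonneg_left (E.le _) (by positivity)).trans_eq (by ring)
  generalize sb (a + 1) _ (C.tb.wsum Z) = H at *
  have h5 : Nat.sub OO (dg (nm 1 H) 0) ≤ 2 ^ 307 := by
    obtain ⟨f, f1, -⟩ := h3
    have f2 := (f1.mono (m := 1) (by omega)).nm (by norm_num) 0 one_pos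
    have f3 := (abs_le.1 ((f1.le (b := 307) (by norm_num)).2 0 (by omega))).1
    rw [Nat.sub_eq, tsub_le_iff_right]
    exact_mod_cast (by linarith : (OO : ℤ) ≤ 2 ^ 307 + dg (nm 1 H) 0)
  generalize Nat.sub OO (dg (nm 1 H) 0) = e at *
  cases hn : Ck.nn (a + 1) (Nat.add H e)
  · rw [hn] at hr; exact absurd hr (Nat.not_succ_le_zero 0)
  · have h6 := (h3.add (HV.const (by omega) h5)).nn (by norm_num) E.nn hn
    rw [hn, cond_true, Nat.sub_eq, Nat.mul_eq, Nat.add_eq] at hr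
    rw [cond_true, Nat.sub_eq, Nat.mul_eq, Nat.add_eq, Nat.cast_sub (by omega)]
    refine ⟨by omega, ?_⟩
    push_cast
    have h7 := mul_le_mul_of_nonneg_left (E.le a) (mul_nonneg e.cast_nonneg E.v0.le)
    have h8 := mul_nonneg (E.nn a) (show 0 ≤ h + e * v 0 by linarith)
    linarith

theorem Env.sound (E : Env C v x) {y : ℝ} (hy : HV C.tb.D v C.lin 140 y) {MP MN : ℕ → ℕ → ℤ}
    (hM : ∀ a, 1 ≤ a → a < C.tb.D →
      Rp (a + 1) (C.qP a) (MP a) 30 ∧ Rp (a + 1) (C.qN a) (MN a) 30) (h00 : MP 0 0 = MN 0 0)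
    (hS : 24 * C.st * tri C.tb.D v (fun a b => MP a b - MN a b) ≤ 2 * y * (C.tb.q2 * v 0))
    (hc : 1 ≤ C.rows (C.tb.D - 1)) : False := by
  have hd := C.tb.dims
  obtain ⟨ρ, τ, p1, p2⟩ := E.pairs hy
  choose! r r1 r2 using fun p hp => (p1 p hp).1
  choose! t t1 t2 using fun p hp => (p1 p hp).2
  obtain ⟨l, l1, l2⟩ := C.lo3_spec E.h2
  obtain ⟨P, N, y1, y2⟩ := E.y_spec
  set c : ℕ → ℤ := fun a => if a = 0 then 8 else 1 with hcd
  set M : ℕ → ℕ → ℤ := fun a b => C.sq * (MP a b - MN a b) -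
    ∑ p ∈ range C.np, (r p a * t p b + t p a * r p b) - C.s 2 * ∑ j ∈ range C.tb.G,
      ∑ i ∈ range 3, (c a * l j a i * (c b * l j b i) + c a * l j a i * (c b * l j b i)) with hMd
  have hb : ∀ a < C.tb.D, ∀ b < C.tb.D, |MP a b - MN a b| ≤ 2 ^ 31 → |M a b| ≤ 2 ^ 300 := by
    intro a ha b hb h
    have c1 : ∀ a j i, |c a * l j a i| ≤ 2 ^ (3 + 19) := fun a j i =>
      bd_mul (by simp only [hcd]; split_ifs <;> norm_num) (l1 j a i)
    have n1 : C.np ≤ 2 ^ 8 := by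
      have : C.nG ≤ 63 := land_le _ _
      show 87 + C.nG ≤ _
      omega
    have n2 : C.tb.G ≤ 2 ^ 7 := by
      have := E.h2
      show (C.tb.D + 2) / 3 ≤ _
      omega
    have n3 : C.sq ≤ 2 ^ 197 := (Nat.mul_le_mul (show 24 ≤ 2 ^ 5 by norm_num)
      (Nat.mul_le_mul (C.s_le 0) (C.s_le 1))).trans (by norm_num)
    have k1 := bd_mul (bd_nat n3) h
    have k2 := bd_sum n1 fun p hp => bd_add (bd_mul ((r1 p hp).2 a ha) ((t1 p hp).2 b hb))
      (bd_mul ((t1 p hp).2 a ha) ((r1 p hp).2 b hb))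
    have k3 := bd_mul (bd_nat (C.s_le 2)) (bd_sum n2 fun j _ => bd_sum (c := 3) (a := 2)
      (by norm_num) fun i _ => bd_add (bd_mul (c1 a j i) (c1 b j i)) (bd_mul (c1 a j i) (c1 b j i)))
    rw [← abs_neg] at k2 k3
    have k4 := (bd_add (bd_add k1 k2) k3).trans (pw_le (b := 300) (by norm_num))
    rwa [← sub_eq_add_neg, ← sub_eq_add_neg] at k4
  have hsL : (C.sL : ℤ) = 2 * C.s 2 := by simp [Cf.sL]
  have hE : ∀ k, k + 1 < C.tb.D → Rp (k + 2) (C.eR (k + 1) (k + 2)) (M (k + 1)) 300 := by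
    intro k hk
    obtain ⟨b1, b2, b3⟩ := C.tb.blk hk
    obtain ⟨f, g, s1, s2, s3⟩ := Cf.sy_spec (fun p hp => ⟨r1 p hp, t1 p hp⟩) b1 b2 b3 b2
    obtain ⟨m1, m2⟩ := hM (k + 1) (by omega) hk
    refine ⟨?_, fun b hb' => hb _ hk b (by omega) ?_⟩
    · simp only [Cf.eR, force_eq]
      refine ((((m1.1.smul _).add s2).add (((Cg.cn _ _ _).add (Cg.const _ _)).smul _)).sb
        (((m2.1.smul _).add s1).add (((Cg.dg _ _).add (Cg.const _ _)).smul _)) le_rfl).congr
        fun b hb' => ?_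
      simp only [hMd]
      rw [← s3 b hb']
      simp only [hcd, sum_range_succ _ 2, sum_range_succ _ 1, sum_range_one,
        Nat.mul_eq, Nat.cast_mul, l2 _ _ b2 b hb', l2 _ _ b2 0 (by omega), hsL, if_pos hb',
        Nat.succ_ne_zero, if_false, sum_add_distrib]
      split_ifs with h0
      · simp only [h0, mul_left_comm _ (8 : ℤ), ← mul_sum, one_mul]
        push_cast
        ring
      · simp only [one_mul]
        ring
    · have := bd_add (m1.2 b hb') (b := 30) (by rw [abs_neg]; exact m2.2 b hb')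
      rwa [← sub_eq_add_neg] at this
  have h0 : 1 ≤ C.e00 → (C.e00 : ℤ) = M 0 0 := by
    obtain ⟨b1, b2, b3⟩ := C.tb.blk (a := 0) (by omega)
    obtain ⟨f, g, s1, s2, s3⟩ := Cf.sy_spec (fun p hp => ⟨r1 p hp, t1 p hp⟩) le_rfl b2 b3 b2
    have k : Rp 1 _ (M 0) 300 := ⟨(((s2.add (((Cg.const _ Cf.o3L).smul 64).smul C.sL)).sb
        (s1.add (((Cg.dg _ (C.lo3 (C.tb.be 0) 0 1)).smul 64).smul C.sL)) le_rfl).congr
        fun b hb' => by
          obtain rfl : b = 0 := by omega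
          simp only [hMd]
          rw [← s3 0 hb']
          simp only [hcd, sum_range_succ _ 2, sum_range_succ _ 1, sum_range_one,
            l2 _ _ b2 0 hb', hsL, sum_add_distrib, if_true, h00, mul_left_comm _ (8 : ℤ),
            mul_assoc (8 : ℤ), ← mul_sum]
          push_cast
          ring), fun b hb' => by
        obtain rfl : b = 0 := by omega
        exact hb 0 (by omega) 0 (by omega) (by simp [h00])⟩
    have k2 := k.nm (by norm_num) 0 one_pos
    rw [Cf.e00, force_eq, Nat.sub_eq]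
    intro h
    rw [Nat.cast_sub (by omega), k2]
    ring
  have ind : ∀ n < C.tb.D, 1 ≤ C.rows n → (C.rows n : ℝ) * v 0 ^ 2 ≤ M 0 0 * v 0 ^ 2 +
      ∑ k ∈ range n, (v (k + 1) * (2 * ∑ b ∈ range (k + 1), M (k + 1) b * v b +
        M (k + 1) (k + 1) * v (k + 1) + (P k + C.ys (k + 1) * v 0 - N k)) -
        C.tb.W (k + 1) * C.ys (k + 1) * v 0 ^ 2) := by
    intro n hn h
    induction n with
    | zero => rw [← h0 h]; simp [Cf.rows]
    | succ n ih =>
      have e : C.rows (n + 1) = C.row (n + 1) (C.rows n) :=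
        force_eq (n + 1) fun a => C.row a (C.rows n)
      rw [e] at h ⊢
      obtain ⟨k1, k2⟩ := E.row (Cf.hR_spec (hE n hn) (y1 n).1 (y1 n).2.1 (y1 n).2.2) h
      have := ih (by omega) k1
      rw [sum_range_succ]
      linarith
  have k1 := ind _ (by omega) hc
  have k2 : tri C.tb.D v M = M 0 0 * v 0 ^ 2 + ∑ k ∈ range (C.tb.D - 1), v (k + 1) *
      (2 * ∑ b ∈ range (k + 1), M (k + 1) b * v b + M (k + 1) (k + 1) * v (k + 1)) := by
    conv_lhs => rw [tri, show C.tb.D = C.tb.D - 1 + 1 by omega, sum_range_succ']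
    simp
    ring
  have k3 : tri C.tb.D v M ≤ 0 := by
    rw [hMd, tri_lin, tri_sum, tri_sum, sum_congr rfl fun p hp => by
      rw [tri_prod, r2 p (mem_range.1 hp), t2 p (mem_range.1 hp)], ← mul_sum]
    have k4 : 0 ≤ ∑ j ∈ range C.tb.G, tri C.tb.D v fun a b => ∑ i ∈ range 3,
        (c a * l j a i * (c b * l j b i) + c a * l j a i * (c b * l j b i)) :=
      sum_nonneg fun j _ => by
        rw [tri_sum]
        refine sum_nonneg fun i _ => ?_
        rw [tri_prod (fun a => c a * l j a i) fun a => c a * l j a i]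
        exact mul_nonneg zero_le_two (mul_self_nonneg _)
    have k5 := mul_le_mul_of_nonneg_left hS (C.s 0).cast_nonneg
    have k6 := mul_nonneg (C.s 2).cast_nonneg k4
    simp only [Cf.sq, Nat.mul_eq]
    push_cast
    linarith
  simp only [mul_add (v _) _ (_ - _), sum_sub_distrib, sum_add_distrib] at k1
  have k7 : (1 : ℝ) ≤ C.rows (C.tb.D - 1) := by exact_mod_cast hc
  have k8 := pow_pos E.v0 2
  nlinarith

end Pool.Agent.Lib.MP_834949_an.Ck
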